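import Pool.Agent.Lib.MP_0430e4_lc.PFR.C1

/-!
# PFR.C2: a popular sum (C2)

PROOF. `r = conv (unf A) (unf B)` is a law with entropy `E = ∑ r x * (- log r x)`, so some `x` has `0 < r x` and `- log r x ≤ E`, i.e.
`exp (-E) ≤ r x`. `r x = card {a ∈ A | x - a ∈ B} / (card A * card B)` and `E = dst + (log card A + log card B) / 2`.
-/

set_option autoImplicit false

open Finset

namespace Pool.Agent.Lib.MP_0430e4_lc.PFR

section

variable {G : Type} [AddCommGroup G] [Fintype G]

/-- a law has a value at least `exp (-H)` -/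
private lemma C2_large {S : Type} [Fintype S] {p : S → ℝ} (hp : IsLaw p) :
    ∃ x, Real.exp (-ent p) ≤ p x := by
  by_contra h
  push Not at h
  have hex : ∃ x, p x ≠ 0 := by
    by_contra h
    push Not at h
    have := hp.sum_one
    simp [h] at this
  obtain ⟨x0, hx0⟩ := hex
  have key : ∀ x, p x ≠ 0 → p x * ent p < Real.negMulLog (p x) := by
    intro x hx
    have hpos : 0 < p x := lt_of_le_of_ne (hp.nonneg x) (Ne.symm hx)
    have h1 : Real.log (p x) < -ent p := by
      rw [← Real.log_exp (-ent p)]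
      exact Real.log_lt_log hpos (h x)
    unfold Real.negMulLog
    have : p x * ent p < p x * (-Real.log (p x)) := mul_lt_mul_of_pos_left (by linarith) hpos
    linarith
  have h2 : ∑ x, p x * ent p < ∑ x, Real.negMulLog (p x) := by
    apply Finset.sum_lt_sum
    · intro x _
      by_cases hx : p x = 0
      · simp [hx]
      · exact (key x hx).le
    · exact ⟨x0, Finset.mem_univ _, key x0 hx0⟩
  rw [← Finset.sum_mul, hp.sum_one, one_mul] at h2
  exact lt_irrefl _ h2

open Classical in
private lemma C2_conv (A B : Finset G) (x : G) :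
    conv (unf A) (unf B) x =
      ((A.filter (fun a => x - a ∈ B)).card : ℝ) / (A.card * B.card) := by
  have e : ∀ y, unf A y * unf B (x - y) =
      if y ∈ A ∧ x - y ∈ B then 1 / ((A.card : ℝ) * B.card) else 0 := by
    intro y
    unfold unf
    by_cases h1 : y ∈ A
    · by_cases h3 : x - y ∈ B
      · rw [if_pos h1, if_pos h3, if_pos ⟨h1, h3⟩, div_mul_div_comm, one_mul]
      · have h5 : ¬ (y ∈ A ∧ x - y ∈ B) := fun h => h3 h.2
        rw [if_neg h3, if_neg h5, mul_zero]
    · have h5 : ¬ (y ∈ A ∧ x - y ∈ B) := fun h => h1 h.1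
      rw [if_neg h1, if_neg h5, zero_mul]
  rw [conv_comm, conv_apply, Finset.sum_congr rfl (fun y _ => e y), ← Finset.sum_filter,
    Finset.sum_const, nsmul_eq_mul]
  have e3 : (Finset.univ.filter (fun y => y ∈ A ∧ x - y ∈ B)) =
      A.filter (fun y => x - y ∈ B) := by
    ext y; simp
  rw [e3]
  ring

open Classical in
theorem C2 {A B : Finset G} (hA : A.Nonempty) (hB : B.Nonempty) :
    ∃ x : G, Real.exp (- dst (unf A) (unf B)) * Real.sqrt (A.card * B.card) ≤
      ((A.filter (fun a => x - a ∈ B)).card : ℝ) := by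
  have hAc : 0 < (A.card : ℝ) := by exact_mod_cast hA.card_pos
  have hBc : 0 < (B.card : ℝ) := by exact_mod_cast hB.card_pos
  obtain ⟨x, hx⟩ := C2_large (conv_isLaw (unf_isLaw hA) (unf_isLaw hB))
  refine ⟨x, ?_⟩
  rw [C2_conv, le_div_iff₀ (by positivity)] at hx
  refine le_trans (le_of_eq ?_) hx
  have hd : dst (unf A) (unf B) = ent (conv (unf A) (unf B)) -
      (Real.log A.card + Real.log B.card) / 2 := by
    unfold dst; rw [ent_unf hA, ent_unf hB]
  have hs : Real.sqrt ((A.card : ℝ) * B.card) =
      Real.exp ((Real.log A.card + Real.log B.card) / 2) := by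
    rw [← Real.log_mul hAc.ne' hBc.ne', Real.sqrt_eq_rpow, Real.rpow_def_of_pos (by positivity)]
    congr 1; ring
  have hm : (A.card : ℝ) * B.card = Real.exp (Real.log A.card + Real.log B.card) := by
    rw [Real.exp_add, Real.exp_log hAc, Real.exp_log hBc]
  rw [hs, hm, hd, ← Real.exp_add, ← Real.exp_add]
  congr 1
  ring

end

end Pool.Agent.Lib.MP_0430e4_lc.PFR
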