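import Pool.Agent.Lib.MP_0430e4_lc.PFR.Defs

/-!
# PFR.C3: subgroups of all sizes, cosets (C3, C4)

PROOFS. `C3`: `V` is a 2-group of order `2 ^ N`; for `2 ^ j ≤ m < 2 ^ (j + 1)` there is a subgroup of order `2 ^ j`
(`Sylow.exists_subgroup_card_pow_prime`, or induction through subgroups of index 2). `C4`: sum over `y` with `x - y ∈ V` of
`card {a ∈ A | y - a ∈ W}` is `∑ a ∈ A with x - a ∈ V, card W`; there are `card V` such `y`, so one is at least the average.
-/

set_option autoImplicit false

open Finset

namespace Pool.Agent.Lib.MP_0430e4_lc.PFR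

section

variable {G : Type} [AddCommGroup G] [Fintype G]

private lemma C3_card_coset (V : AddSubgroup G) (a : G) [DecidablePred (fun x => x - a ∈ V)] :
    ((Finset.univ : Finset G).filter (fun x => x - a ∈ V)).card = Nat.card V := by
  rw [← Fintype.card_subtype, ← Nat.card_eq_fintype_card]
  exact Nat.card_congr
    { toFun := fun x => ⟨x.1 - a, x.2⟩
      invFun := fun v => ⟨v.1 + a, by simp⟩
      left_inv := fun x => by ext; simp
      right_inv := fun v => by ext; simp }

theorem C3 (h2 : ∀ x : G, x + x = 0) (V : AddSubgroup G) {m : ℕ} (hm : 1 ≤ m)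
    (hmV : m ≤ Nat.card V) : ∃ W : AddSubgroup G, W ≤ V ∧ Nat.card W ≤ m ∧ m < 2 * Nat.card W := by
  classical
  let S : Set (AddSubgroup G) := {W | W ≤ V ∧ Nat.card W ≤ m}
  have hS : S.Finite := Set.toFinite _
  have hSn : S.Nonempty := ⟨⊥, bot_le, by simpa using hm⟩
  obtain ⟨W, hW, hmax⟩ := Set.exists_max_image S (fun W => Nat.card W) hS hSn
  refine ⟨W, hW.1, hW.2, ?_⟩
  by_cases hWV : V = W
  · have h1 : 0 < Nat.card W := Nat.card_pos
    have h3 : m ≤ Nat.card W := hWV ▸ hmV
    omega
  have hne : ∃ g ∈ V, g ∉ W := by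
    by_contra h
    push Not at h
    exact hWV (le_antisymm (fun g hg => h g hg) hW.1)
  obtain ⟨g, hgV, hgW⟩ := hne
  have neg_eq : ∀ x : G, -x = x := fun x => neg_eq_of_add_eq_zero_left (h2 x)
  let U : AddSubgroup G :=
    { carrier := {x | x ∈ W ∨ x - g ∈ W}
      zero_mem' := Or.inl W.zero_mem
      add_mem' := by
        rintro a b (ha | ha) (hb | hb)
        · exact Or.inl (W.add_mem ha hb)
        · right
          have := W.add_mem ha hb
          have e : a + (b - g) = a + b - g := by abel
          rwa [e] at this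
        · right
          have := W.add_mem ha hb
          have e : a - g + b = a + b - g := by abel
          rwa [e] at this
        · left
          have := W.add_mem ha hb
          have e : a - g + (b - g) = a + b - (g + g) := by abel
          rwa [e, h2, sub_zero] at this
      neg_mem' := by
        intro a ha
        show -a ∈ W ∨ -a - g ∈ W
        rw [neg_eq]; exact ha }
  have hUV : U ≤ V := by
    rintro x (hx | hx)
    · exact hW.1 hx
    · have := V.add_mem (hW.1 hx) hgV
      simpa using this
  have e1 : ∀ X : AddSubgroup G, Nat.card X =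
      ((Finset.univ : Finset G).filter (fun x => x ∈ X)).card := fun X => by
    rw [Nat.card_eq_fintype_card, Fintype.card_subtype]
  have hcard : Nat.card U ≤ 2 * Nat.card W := by
    have e2 := C3_card_coset W 0
    have e3 := C3_card_coset W g
    have e4 : ((Finset.univ : Finset G).filter (fun x => x ∈ U)) ⊆
        ((Finset.univ : Finset G).filter (fun x => x - 0 ∈ W)) ∪
        ((Finset.univ : Finset G).filter (fun x => x - g ∈ W)) := by
      intro x hx
      rw [Finset.mem_filter] at hx
      rw [Finset.mem_union, Finset.mem_filter, Finset.mem_filter, sub_zero]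
      rcases hx.2 with h | h
      · exact Or.inl ⟨Finset.mem_univ _, h⟩
      · exact Or.inr ⟨Finset.mem_univ _, h⟩
    have e5 := (Finset.card_le_card e4).trans (Finset.card_union_le _ _)
    have e6 := e1 U
    omega
  have hlt : Nat.card W < Nat.card U := by
    rw [e1 W, e1 U]
    apply Finset.card_lt_card
    rw [Finset.ssubset_iff_of_subset]
    · refine ⟨g, ?_, ?_⟩
      · rw [Finset.mem_filter]
        exact ⟨Finset.mem_univ _, Or.inr (by simp [W.zero_mem])⟩
      · rw [Finset.mem_filter]
        rintro ⟨_, h⟩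
        exact hgW h
    · intro x hx
      rw [Finset.mem_filter] at hx ⊢
      exact ⟨hx.1, Or.inl hx.2⟩
  by_contra hcon
  push Not at hcon
  have hUS : U ∈ S := ⟨hUV, hcard.trans hcon⟩
  exact absurd (hmax U hUS) (not_le.2 hlt)

open Classical in
theorem C4 {V W : AddSubgroup G} (hWV : W ≤ V) (A : Finset G) (x : G) :
    ∃ y : G, ((A.filter (fun a => x - a ∈ V)).card : ℝ) * Nat.card W / Nat.card V ≤
      ((A.filter (fun a => y - a ∈ W)).card : ℝ) := by
  have hVc : 0 < (Nat.card V : ℝ) := by
    have : 0 < Nat.card V := Nat.card_pos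
    positivity
  set Vf : Finset G := (Finset.univ : Finset G).filter (fun y => y - x ∈ V) with hVf
  have hVfc : Vf.card = Nat.card V := C3_card_coset V x
  have hVfn : Vf.Nonempty := ⟨x, by simp only [hVf, Finset.mem_filter]; simp [V.zero_mem]⟩
  by_contra hcon
  push Not at hcon
  have h1 : ∑ y ∈ Vf, (A.filter (fun a => y - a ∈ W)).card =
      Nat.card W * (A.filter (fun a => x - a ∈ V)).card := by
    have e1 : ∀ y, (A.filter (fun a => y - a ∈ W)).card =
        ∑ a ∈ A, if y - a ∈ W then 1 else 0 := fun y => by
      rw [Finset.card_filter]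
    rw [Finset.sum_congr rfl (fun y _ => e1 y), Finset.sum_comm]
    rw [Finset.card_filter, Finset.mul_sum]
    refine Finset.sum_congr rfl (fun a _ => ?_)
    rw [← Finset.card_filter]
    by_cases ha : x - a ∈ V
    · rw [if_pos ha, mul_one, ← C3_card_coset W a]
      congr 1
      ext y
      simp only [hVf, Finset.mem_filter]
      constructor
      · rintro ⟨_, h⟩
        exact ⟨Finset.mem_univ _, h⟩
      · rintro ⟨_, h⟩
        refine ⟨⟨Finset.mem_univ _, ?_⟩, h⟩
        have := V.sub_mem (hWV h) ha
        have e : y - a - (x - a) = y - x := by abel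
        rwa [e] at this
    · rw [if_neg ha, mul_zero, Finset.card_eq_zero, Finset.filter_eq_empty_iff]
      intro y hy h
      simp only [hVf, Finset.mem_filter] at hy
      apply ha
      have := V.sub_mem (hWV h) hy.2
      have e : y - a - (y - x) = x - a := by abel
      rwa [e] at this
  have h3 : ∑ y ∈ Vf, ((A.filter (fun a => y - a ∈ W)).card : ℝ) <
      ∑ y ∈ Vf, ((A.filter (fun a => x - a ∈ V)).card : ℝ) * Nat.card W / Nat.card V :=
    Finset.sum_lt_sum_of_nonempty hVfn (fun y _ => hcon y)
  rw [Finset.sum_const, hVfc, nsmul_eq_mul] at h3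
  have h4 : ∑ y ∈ Vf, ((A.filter (fun a => y - a ∈ W)).card : ℝ) =
      (Nat.card W : ℝ) * ((A.filter (fun a => x - a ∈ V)).card : ℝ) := by
    exact_mod_cast h1
  rw [h4] at h3
  have h5 : (Nat.card V : ℝ) * (((A.filter (fun a => x - a ∈ V)).card : ℝ) * Nat.card W /
      Nat.card V) = (Nat.card W : ℝ) * ((A.filter (fun a => x - a ∈ V)).card : ℝ) := by
    field_simp
  rw [h5] at h3
  exact lt_irrefl _ h3

end

end Pool.Agent.Lib.MP_0430e4_lc.PFR
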