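import Pool.Agent.Lib.MP_0430e4_lc.PFR.Law

/-!
# PFR.Prd: products (B6)

PROOFS. Finite sums over products (`Fintype.sum_prod_type`, `Finset.sum_mul_sum`); `ent_prd` by
`Real.negMulLog_mul : negMulLog (x * y) = y * negMulLog x + x * negMulLog y`. `H_prd` from `law_prd`, `ent_prd`, `law_isLaw`.
-/

set_option autoImplicit false

open Finset

namespace Pool.Agent.Lib.MP_0430e4_lc.PFR

section

variable {Ω Ω' S S' T U : Type} [Fintype Ω] [Fintype Ω'] [Fintype S] [Fintype S'] [Fintype T] [Fintype U]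

theorem prd_isLaw {p : Ω → ℝ} {q : Ω' → ℝ} (hp : IsLaw p) (hq : IsLaw q) : IsLaw (prd p q) := by
  refine ⟨fun x => mul_nonneg (hp.nonneg _) (hq.nonneg _), ?_⟩
  unfold prd
  rw [Fintype.sum_prod_type]
  simp only
  rw [← hp.sum_one]
  refine sum_congr rfl fun x _ => ?_
  rw [← mul_sum, hq.sum_one, mul_one]

theorem law_prd (p : Ω → ℝ) (q : Ω' → ℝ) {S S' : Type} (X : Ω → S) (Y : Ω' → S') :
    law (prd p q) (fun x => (X x.1, Y x.2)) = prd (law p X) (law q Y) := by
  classical
  funext s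
  unfold prd law
  rw [Fintype.sum_prod_type, sum_mul_sum]
  refine sum_congr rfl fun a _ => sum_congr rfl fun b _ => ?_
  by_cases h1 : X a = s.1
  · by_cases h2 : Y b = s.2
    · rw [if_pos (Prod.ext h1 h2), if_pos h1, if_pos h2]
    · rw [if_neg (fun h => h2 (congrArg Prod.snd h)), if_neg h2, mul_zero]
  · rw [if_neg (fun h => h1 (congrArg Prod.fst h)), if_neg h1, zero_mul]

theorem law_fst (p : Ω → ℝ) {q : Ω' → ℝ} (hq : IsLaw q) {S : Type} (X : Ω → S) :
    law (prd p q) (fun x => X x.1) = law p X := by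
  classical
  funext s
  unfold prd law
  rw [Fintype.sum_prod_type]
  refine sum_congr rfl fun a _ => ?_
  by_cases h : X a = s
  · simp only [if_pos h]
    rw [← mul_sum, hq.sum_one, mul_one]
  · simp only [if_neg h, sum_const_zero]

theorem law_snd {p : Ω → ℝ} (hp : IsLaw p) (q : Ω' → ℝ) {S' : Type} (Y : Ω' → S') :
    law (prd p q) (fun x => Y x.2) = law q Y := by
  classical
  funext s
  unfold prd law
  rw [Fintype.sum_prod_type_right]
  refine sum_congr rfl fun a _ => ?_
  by_cases h : Y a = s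
  · simp only [if_pos h]
    rw [← sum_mul, hp.sum_one, one_mul]
  · simp only [if_neg h, sum_const_zero]

theorem ent_prd {p : Ω → ℝ} {q : Ω' → ℝ} (hp : IsLaw p) (hq : IsLaw q) : ent (prd p q) = ent p + ent q := by
  unfold ent prd
  rw [Fintype.sum_prod_type]
  simp only
  simp_rw [Real.negMulLog_mul, sum_add_distrib]
  congr 1
  · refine sum_congr rfl fun x _ => ?_
    rw [← sum_mul, hq.sum_one, one_mul]
  · rw [sum_comm]
    refine sum_congr rfl fun x _ => ?_
    rw [← sum_mul, hp.sum_one, one_mul]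

theorem H_prd {p : Ω → ℝ} {q : Ω' → ℝ} (hp : IsLaw p) (hq : IsLaw q) (X : Ω → S) (Y : Ω' → S') :
    H (prd p q) (fun x => (X x.1, Y x.2)) = H p X + H q Y := by
  unfold H
  rw [law_prd, ent_prd (law_isLaw hp X) (law_isLaw hq Y)]

theorem H_fst {p : Ω → ℝ} {q : Ω' → ℝ} (hq : IsLaw q) (X : Ω → S) :
    H (prd p q) (fun x => X x.1) = H p X := by
  unfold H
  rw [law_fst p hq X]

theorem H_snd {p : Ω → ℝ} {q : Ω' → ℝ} (hp : IsLaw p) (Y : Ω' → S') :
    H (prd p q) (fun x => Y x.2) = H q Y := by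
  unfold H
  rw [law_snd hp q Y]

end

end Pool.Agent.Lib.MP_0430e4_lc.PFR
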