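import Pool.Agent.Lib.MP_0430e4_lc.PFR.Law
import Pool.Agent.Lib.MP_0430e4_lc.PFR.Prd

/-!
# PFR.Cnv: convolution (R1)

PROOFS. `conv_apply`: `∑ (x, y), if x + y = z then p x * q y else 0`, for fixed `y` only `x = z - y`. `law_prd_add`:
`law_law` for `(X, Y)` then `+`, and `law_prd`. `conv_comm`: `Equiv.prodComm` or substitution. `conv_assoc`: `conv_apply` twice and
`sum_comm`, or `law_prd_add` on three coordinates.
-/

set_option autoImplicit false

open Finset

namespace Pool.Agent.Lib.MP_0430e4_lc.PFR

section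

variable {G : Type} [AddCommGroup G] [Fintype G]

theorem conv_isLaw {p q : G → ℝ} (hp : IsLaw p) (hq : IsLaw q) : IsLaw (conv p q) := law_isLaw (prd_isLaw hp hq) _

theorem conv_apply (p q : G → ℝ) (z : G) : conv p q z = ∑ y, q y * p (z - y) := by
  classical
  unfold conv law prd
  rw [Fintype.sum_prod_type_right]
  refine sum_congr rfl fun y _ => ?_
  rw [Finset.sum_eq_single (z - y)]
  · simp only [sub_add_cancel, if_true]
    ring
  · intro b _ hb
    simp only
    rw [if_neg]
    intro h
    exact hb (eq_sub_of_add_eq h)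
  · intro h
    exact absurd (mem_univ _) h

theorem conv_comm (p q : G → ℝ) : conv p q = conv q p := by
  funext z
  rw [conv_apply, conv_apply]
  refine Fintype.sum_equiv (Equiv.subLeft z) _ _ fun y => ?_
  simp only [Equiv.subLeft_apply, sub_sub_cancel]
  ring

/-- the law of a sum of two independent variables -/
theorem law_prd_add {Ω Ω' : Type} [Fintype Ω] [Fintype Ω'] (w : Ω → ℝ) (w' : Ω' → ℝ) (X : Ω → G) (Y : Ω' → G) :
    law (prd w w') (fun x => X x.1 + Y x.2) = conv (law w X) (law w' Y) := by
  unfold conv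
  rw [← law_prd w w' X Y, law_law]

theorem ent_conv (p q : G → ℝ) : ent (conv p q) = H (prd p q) (fun x => x.1 + x.2) := rfl

theorem H_prd_add {Ω Ω' : Type} [Fintype Ω] [Fintype Ω'] (w : Ω → ℝ) (w' : Ω' → ℝ)
    (X : Ω → G) (Y : Ω' → G) :
    H (prd w w') (fun x => X x.1 + Y x.2) = ent (conv (law w X) (law w' Y)) := by
  unfold H
  rw [law_prd_add]

theorem conv_assoc (p q r : G → ℝ) : conv (conv p q) r = conv p (conv q r) := by
  funext z
  rw [conv_apply, conv_comm p (conv q r), conv_apply]
  simp_rw [conv_apply, mul_sum]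
  rw [sum_comm]
  conv_rhs => rw [sum_comm]
  -- both sides: sums over the value of `q`
  rw [sum_comm]
  refine sum_congr rfl fun x _ => ?_
  -- x is the value of r
  refine Fintype.sum_equiv (Equiv.subLeft (z - x)) _ _ fun y => ?_
  simp only [Equiv.subLeft_apply]
  have e1 : z - (z - x - y) - x = y := by abel
  rw [e1]
  ring

end

end Pool.Agent.Lib.MP_0430e4_lc.PFR
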