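import Pool.Agent.Lib.MP_0430e4_lc.PFR.Law
import Pool.Agent.Lib.MP_0430e4_lc.PFR.Prd
import Pool.Agent.Lib.MP_0430e4_lc.PFR.Cnv

/-!
# PFR.Rz1: Ruzsa distance: first facts (R2)

PROOFS. `ent_le_conv_right`: on `prd p q`: `ent p + ent q = H (x.1, x.2) = H (x.1 + x.2, x.2)` (`H_prd` with the identity maps, `law_id`,
`H_congr`) `≤ H (x.1 + x.2) + H (x.2) = ent (conv p q) + ent q` (`subadd`, `H_snd`): this gives `ent p ≤ ent (conv p q)`; the
other one by `conv_comm`. The rest is arithmetic (`dst p q = ent (conv p q) - (ent p + ent q) / 2`).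
-/

set_option autoImplicit false

open Finset

namespace Pool.Agent.Lib.MP_0430e4_lc.PFR

section

variable {G : Type} [AddCommGroup G] [Fintype G]

theorem ent_le_conv_left {p q : G → ℝ} (hp : IsLaw p) (hq : IsLaw q) : ent p ≤ ent (conv p q) := by
  have hpq := prd_isLaw hp hq
  -- H(x, y) <= H(x + y, y) <= H(x + y) + H(y)
  have h1 : H (prd p q) (fun x => (x.1 + x.2, x.2)) ≤ H (prd p q) (fun x => x.1 + x.2) + H (prd p q) (fun x => x.2) :=
    subadd hpq _ _
  have h2 : H (prd p q) (fun x => (x.1, x.2)) = H (prd p q) (fun x => (x.1 + x.2, x.2)) := by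
    refine H_congr hpq _ _ fun x y => ?_
    simp only [Prod.mk.injEq]
    constructor
    · rintro ⟨h, h'⟩
      rw [h'] at h
      exact ⟨add_right_cancel h, h'⟩
    · rintro ⟨h, h'⟩
      exact ⟨by rw [h, h'], h'⟩
  have h3 : H (prd p q) (fun x => (x.1, x.2)) = ent p + ent q := by
    have := H_prd hp hq (fun x : G => x) (fun x : G => x)
    rw [this]
    unfold H
    rw [law_id, law_id]
  have h4 : H (prd p q) (fun x => x.2) = ent q := by
    have := H_snd (q := q) hp (fun x : G => x)
    rw [this]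
    unfold H
    rw [law_id]
  rw [ent_conv]
  linarith

theorem ent_le_conv_right {p q : G → ℝ} (hp : IsLaw p) (hq : IsLaw q) : ent q ≤ ent (conv p q) := by
  rw [conv_comm]
  exact ent_le_conv_left hq hp

theorem dst_comm (p q : G → ℝ) : dst p q = dst q p := by
  unfold dst
  rw [conv_comm p q, add_comm]

theorem dst_nonneg {p q : G → ℝ} (hp : IsLaw p) (hq : IsLaw q) : 0 ≤ dst p q := by
  unfold dst
  linarith [ent_le_conv_left hp hq, ent_le_conv_right hp hq]

theorem ent_sub_le {p q : G → ℝ} (hp : IsLaw p) (hq : IsLaw q) : ent p - ent q ≤ 2 * dst p q := by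
  unfold dst
  linarith [ent_le_conv_left hp hq]

end

end Pool.Agent.Lib.MP_0430e4_lc.PFR
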