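import Pool.Agent.Lib.MP_0430e4_lc.PFR.Law
import Pool.Agent.Lib.MP_0430e4_lc.PFR.Prd
import Pool.Agent.Lib.MP_0430e4_lc.PFR.Cnv
import Pool.Agent.Lib.MP_0430e4_lc.PFR.Rz1

/-!
# PFR.Rz2: triangle inequality and Kaimanovich-Vershik-Madiman (R3, R4)

PROOFS. Space `prd p (prd q r)`, `x = x.1`, `y = x.2.1`, `z = x.2.2`.
`conv_triangle`: `submod` with `X = x + y`, `Y = x`, `Z = x + z`: `H(x+y, x, x+z) + H(x+z) ≤ H(x+y, x+z) + H(x, x+z)`.
`H(x+y, x, x+z) = H(x, (y, z)) = ent p + ent q + ent r` (`H_congr`, `H_prd`), `H(x, x+z) = H(x, z) ≤ ent p + ent r` (`H_congr`, `subadd`,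
`H_fst`, `H_snd`), `H(x+y, x+z) = H(x+y, y+z)` (here `h2`: `y + z = (x + y) + (x + z)`) `≤ H(x+y) + H(y+z) = ent (conv p q) + ent (conv q r)`,
`H(x+z) = ent (conv p r)` (`law_prd_add` with `Y` = a coordinate of the second factor, `law_fst`, `law_snd`, `law_id`).
`kvm`: `submod` with `X = x`, `Y = z`, `Z = x+y+z`: `H(x, z, x+y+z) = ent p + ent q + ent r`, `H(x, x+y+z) = H(x, y+z) ≤ ent p + ent (conv q r)`,
`H(z, x+y+z) = H(x+y, z) ≤ ent (conv p q) + ent r`, `H(x+y+z) = ent (conv p (conv q r)) = ent (conv (conv p q) r)`.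
`dst_triangle`: `conv_triangle` and arithmetic.
-/

set_option autoImplicit false

open Finset

namespace Pool.Agent.Lib.MP_0430e4_lc.PFR

section

variable {G : Type} [AddCommGroup G] [Fintype G]

/-- the law of `X + Y` for the coordinates `1, 2` of three independent variables, and so on -/
private theorem r3_12 (p q : G → ℝ) {r : G → ℝ} (hr : IsLaw r) :
    H (prd (prd p q) r) (fun x => x.1.1 + x.1.2) = ent (conv p q) := by
  unfold H conv
  rw [law_fst (prd p q) hr (fun x => x.1 + x.2)]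

private theorem r3_23 {p : G → ℝ} (hp : IsLaw p) (q r : G → ℝ) :
    H (prd (prd p q) r) (fun x => x.1.2 + x.2) = ent (conv q r) := by
  unfold H
  rw [law_prd_add (prd p q) r (fun x => x.2) (fun x => x), law_id, law_snd hp q (fun x => x), law_id]

private theorem r3_13 (p : G → ℝ) {q : G → ℝ} (hq : IsLaw q) (r : G → ℝ) :
    H (prd (prd p q) r) (fun x => x.1.1 + x.2) = ent (conv p r) := by
  unfold H
  rw [law_prd_add (prd p q) r (fun x => x.1) (fun x => x), law_id, law_fst p hq (fun x => x), law_id]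

private theorem r3_123 (p q r : G → ℝ) :
    H (prd (prd p q) r) (fun x => x.1.1 + x.1.2 + x.2) = ent (conv (conv p q) r) := by
  unfold H
  rw [law_prd_add (prd p q) r (fun x => x.1 + x.2) (fun x => x), law_id]
  rfl

private theorem r3_all {p q r : G → ℝ} (hp : IsLaw p) (hq : IsLaw q) (hr : IsLaw r) :
    H (prd (prd p q) r) (fun x => x) = ent p + ent q + ent r := by
  unfold H
  rw [law_id, ent_prd (prd_isLaw hp hq) hr, ent_prd hp hq]

theorem conv_triangle (h2 : ∀ x : G, x + x = 0) {p q r : G → ℝ} (hp : IsLaw p) (hq : IsLaw q) (hr : IsLaw r) :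
    ent (conv p r) + ent q ≤ ent (conv p q) + ent (conv q r) := by
  have hw := prd_isLaw (prd_isLaw hp hq) hr
  have h1 := submod hw (fun x => (x.1.1 + x.1.2, x.1.2 + x.2)) (fun x => (x.1.1, x.2))
    (fun x => x.1.1 + x.2)
  have e1 : H (prd (prd p q) r) (fun x => ((x.1.1 + x.1.2, x.1.2 + x.2), (x.1.1, x.2), x.1.1 + x.2)) =
      ent p + ent q + ent r := by
    rw [← r3_all hp hq hr]
    refine H_congr hw _ _ fun x y => ⟨fun h => by rw [h], fun h => ?_⟩
    simp only [Prod.mk.injEq] at h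
    obtain ⟨⟨h3, _⟩, ⟨h4, h5⟩, _⟩ := h
    rw [h4] at h3
    exact Prod.ext (Prod.ext h4 (add_left_cancel h3)) h5
  have e2 : H (prd (prd p q) r) (fun x => ((x.1.1 + x.1.2, x.1.2 + x.2), x.1.1 + x.2)) =
      H (prd (prd p q) r) (fun x => (x.1.1 + x.1.2, x.1.2 + x.2)) := by
    refine H_congr hw _ _ fun x y => ⟨fun h => ?_, fun h => by simp only [Prod.mk.injEq] at h; exact Prod.ext h.1.1 h.1.2⟩
    have h3 : ∀ a b c : G, (a + b) + (b + c) = a + c := by
      intro a b c
      have h4 : (a + b) + (b + c) = a + c + (b + b) := by abel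
      rw [h4, h2, add_zero]
    simp only [Prod.mk.injEq] at h ⊢
    refine ⟨h, ?_⟩
    rw [← h3 x.1.1 x.1.2 x.2, ← h3 y.1.1 y.1.2 y.2, h.1, h.2]
  have e3 : H (prd (prd p q) r) (fun x => ((x.1.1, x.2), x.1.1 + x.2)) =
      H (prd (prd p q) r) (fun x => (x.1.1, x.2)) := by
    refine H_congr hw _ _ fun x y => ⟨fun h => ?_, fun h => by simp only [Prod.mk.injEq] at h; exact Prod.ext h.1.1 h.1.2⟩
    simp only [Prod.mk.injEq] at h ⊢
    exact ⟨h, by rw [h.1, h.2]⟩
  have e4 : H (prd (prd p q) r) (fun x => (x.1.1, x.2)) = ent p + ent r := by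
    rw [H_prd (prd_isLaw hp hq) hr (fun x => x.1) (fun x => x)]
    unfold H
    rw [law_fst p hq (fun x => x), law_id, law_id]
  have h6 := subadd hw (fun x => x.1.1 + x.1.2) (fun x => x.1.2 + x.2)
  rw [r3_12 p q hr, r3_23 hp q r] at h6
  rw [e1, r3_13 p hq r, e2, e3, e4] at h1
  linarith

theorem dst_triangle (h2 : ∀ x : G, x + x = 0) {p q r : G → ℝ} (hp : IsLaw p) (hq : IsLaw q) (hr : IsLaw r) :
    dst p r ≤ dst p q + dst q r := by
  have h := conv_triangle h2 hp hq hr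
  unfold dst
  linarith

theorem kvm {p q r : G → ℝ} (hp : IsLaw p) (hq : IsLaw q) (hr : IsLaw r) :
    ent (conv (conv p q) r) + ent q ≤ ent (conv p q) + ent (conv q r) := by
  have hw := prd_isLaw (prd_isLaw hp hq) hr
  have h1 := submod hw (fun x => (x.1.1 + x.1.2, x.2)) (fun x => (x.1.1, x.1.2 + x.2))
    (fun x => x.1.1 + x.1.2 + x.2)
  have e1 : H (prd (prd p q) r) (fun x => ((x.1.1 + x.1.2, x.2), (x.1.1, x.1.2 + x.2), x.1.1 + x.1.2 + x.2)) =
      ent p + ent q + ent r := by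
    rw [← r3_all hp hq hr]
    refine H_congr hw _ _ fun x y => ⟨fun h => by rw [h], fun h => ?_⟩
    simp only [Prod.mk.injEq] at h
    obtain ⟨⟨h3, h5⟩, ⟨h4, _⟩, _⟩ := h
    rw [h4] at h3
    exact Prod.ext (Prod.ext h4 (add_left_cancel h3)) h5
  have e2 : H (prd (prd p q) r) (fun x => ((x.1.1 + x.1.2, x.2), x.1.1 + x.1.2 + x.2)) =
      ent (conv p q) + ent r := by
    have e5 : H (prd (prd p q) r) (fun x => (x.1.1 + x.1.2, x.2)) = ent (conv p q) + ent r := by
      rw [H_prd (prd_isLaw hp hq) hr (fun x => x.1 + x.2) (fun x => x)]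
      unfold H conv
      rw [law_id]
    rw [← e5]
    refine H_congr hw _ _ fun x y => ⟨fun h => ?_, fun h => by simp only [Prod.mk.injEq] at h; exact Prod.ext h.1.1 h.1.2⟩
    simp only [Prod.mk.injEq] at h ⊢
    exact ⟨h, by rw [h.1, h.2]⟩
  have e3 : H (prd (prd p q) r) (fun x => ((x.1.1, x.1.2 + x.2), x.1.1 + x.1.2 + x.2)) ≤
      ent p + ent (conv q r) := by
    have e5 : H (prd (prd p q) r) (fun x => ((x.1.1, x.1.2 + x.2), x.1.1 + x.1.2 + x.2)) =
        H (prd (prd p q) r) (fun x => (x.1.1, x.1.2 + x.2)) := by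
      refine H_congr hw _ _ fun x y => ⟨fun h => ?_, fun h => by simp only [Prod.mk.injEq] at h; exact Prod.ext h.1.1 h.1.2⟩
      simp only [Prod.mk.injEq] at h ⊢
      exact ⟨h, by rw [add_assoc, add_assoc, h.1, h.2]⟩
    rw [e5]
    have h6 := subadd hw (fun x => x.1.1) (fun x => x.1.2 + x.2)
    have h7 : H (prd (prd p q) r) (fun x => x.1.1) = ent p := by
      unfold H
      rw [law_fst (prd p q) hr (fun x => x.1), law_fst p hq (fun x => x), law_id]
    rw [r3_23 hp q r, h7] at h6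
    exact h6
  rw [e1, r3_123, e2] at h1
  linarith

end

end Pool.Agent.Lib.MP_0430e4_lc.PFR
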