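import Pool.Agent.Lib.MP_0430e4_lc.PFR.Cnv
import Pool.Agent.Lib.MP_0430e4_lc.PFR.Rz1
import Pool.Agent.Lib.MP_0430e4_lc.PFR.Rz2

/-!
# PFR.Rz3: numerical bounds (R5)

PROOFS. `a = ent p`, `b = ent q`, `c = ent (conv p q)`. `dst_self_le`: triangle through `q`, `dst_comm`. `dst_conv_le`:
`ent (conv p (conv p q)) ≤ 2 c - b` (`kvm` for `(p, q, p)`, `conv_comm`) and `ent (conv q (conv p q)) ≤ 2 c - a` (`kvm` for `(q, p, q)`);
so the left side is `≤ 4 c - a - b - (a + c) / 2 - (b + c) / 2 = 3 (c - (a + b) / 2)`. `dst_conv_self_le`: `kvm` for `(p, p, p)`: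
`ent (conv p (conv p p)) ≤ 2 e - a`, left side `≤ 2 e - a - (a + e) / 2 = 3/2 (e - a)`.
-/

set_option autoImplicit false

open Finset

namespace Pool.Agent.Lib.MP_0430e4_lc.PFR

section

variable {G : Type} [AddCommGroup G] [Fintype G]

theorem dst_self_le (h2 : ∀ x : G, x + x = 0) {p q : G → ℝ} (hp : IsLaw p) (hq : IsLaw q) :
    dst p p ≤ 2 * dst p q := by
  have h := dst_triangle h2 hp hq hp
  rw [dst_comm q p] at h
  linarith

private theorem r5_aux {p q : G → ℝ} (hp : IsLaw p) (hq : IsLaw q) :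
    dst p (conv p q) ≤ 3 / 2 * ent (conv p q) - ent q - ent p / 2 := by
  have h := kvm hp hq hp
  have e1 : conv p (conv p q) = conv (conv p q) p := conv_comm _ _
  rw [conv_comm q p] at h
  unfold dst
  rw [e1]
  linarith

theorem dst_conv_le {p q : G → ℝ} (hp : IsLaw p) (hq : IsLaw q) :
    dst p (conv p q) + dst q (conv p q) ≤ 3 * dst p q := by
  have h1 := r5_aux hp hq
  have h2 := r5_aux hq hp
  rw [conv_comm q p] at h2
  have h3 : dst p q = ent (conv p q) - (ent p + ent q) / 2 := rfl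
  rw [h3]
  linarith

theorem dst_conv_self_le {p : G → ℝ} (hp : IsLaw p) :
    dst p (conv p p) ≤ 3 / 2 * dst p p := by
  have h1 := r5_aux hp hp
  have h3 : dst p p = ent (conv p p) - (ent p + ent p) / 2 := rfl
  rw [h3]
  linarith

end

end Pool.Agent.Lib.MP_0430e4_lc.PFR
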