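import Pool.Agent.Lib.MP_0430e4_lc.PFR.Cnv
import Pool.Agent.Lib.MP_0430e4_lc.PFR.Rz1
import Pool.Agent.Lib.MP_0430e4_lc.PFR.Rz2
import Pool.Agent.Lib.MP_0430e4_lc.PFR.Rz3

/-!
# PFR.Mini: existence of a minimiser (M1)

PROOFS. `continuous_dst`: `conv_apply`, finite sums, `Real.continuous_negMulLog`. `exists_lmin`: on the compact set
`{x | IsLaw x.1 ∧ IsLaw x.2}` (`stdSimplex ℝ G ×ˢ stdSimplex ℝ G`, `isCompact_stdSimplex`) the continuous function
`τ x = dst x.1 x.2 + η * (dst p₀ x.1 + dst q₀ x.2)` has a minimum `(p, q)`. For laws `p', q'`: `τ (p,q) ≤ τ (p',q')` and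
`dst p₀ p' ≤ dst p₀ p + dst p p'` etc. (`dst_triangle`) give `LMin`. `τ (p,q) ≤ τ (p₀,q₀)` and `dst p₀ p₀, dst q₀ q₀ ≤ 2 dst p₀ q₀`.
-/

set_option autoImplicit false

open Finset

namespace Pool.Agent.Lib.MP_0430e4_lc.PFR

section

variable {G : Type} [AddCommGroup G] [Fintype G]

private lemma Mini_cont_ent {S : Type} [Fintype S] {T : Type} [TopologicalSpace T]
    {f : T → S → ℝ} (hf : ∀ s, Continuous (fun t => f t s)) :
    Continuous (fun t => ent (f t)) := by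
  unfold ent
  exact continuous_finsetSum _ (fun s _ => Real.continuous_negMulLog.comp (hf s))

private lemma Mini_cont_conv {T : Type} [TopologicalSpace T] {f g : T → G → ℝ}
    (hf : ∀ s, Continuous (fun t => f t s)) (hg : ∀ s, Continuous (fun t => g t s)) (x : G) :
    Continuous (fun t => conv (f t) (g t) x) := by
  simp only [conv_apply]
  exact continuous_finsetSum _ (fun s _ => (hg s).mul (hf _))

theorem continuous_dst : Continuous (fun x : (G → ℝ) × (G → ℝ) => dst x.1 x.2) := by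
  have c1 : ∀ s : G, Continuous (fun t : (G → ℝ) × (G → ℝ) => t.1 s) := fun s =>
    (continuous_apply s).comp continuous_fst
  have c2 : ∀ s : G, Continuous (fun t : (G → ℝ) × (G → ℝ) => t.2 s) := fun s =>
    (continuous_apply s).comp continuous_snd
  unfold dst
  exact (Mini_cont_ent (Mini_cont_conv c1 c2)).sub
    (((Mini_cont_ent c1).add (Mini_cont_ent c2)).div_const 2)

theorem exists_lmin (h2 : ∀ x : G, x + x = 0) {η : ℝ} (hη : 0 ≤ η) {p₀ q₀ : G → ℝ} (hp : IsLaw p₀)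
    (hq : IsLaw q₀) :
    ∃ p q : G → ℝ, IsLaw p ∧ IsLaw q ∧ LMin η p q ∧
      dst p q + η * (dst p₀ p + dst q₀ q) ≤ (1 + 4 * η) * dst p₀ q₀ := by
  have hc : IsCompact ((stdSimplex ℝ G) ×ˢ (stdSimplex ℝ G)) :=
    (isCompact_stdSimplex ℝ G).prod (isCompact_stdSimplex ℝ G)
  have hn : ((stdSimplex ℝ G) ×ˢ (stdSimplex ℝ G)).Nonempty :=
    ⟨(p₀, q₀), ⟨hp.nonneg, hp.sum_one⟩, ⟨hq.nonneg, hq.sum_one⟩⟩
  have d0 : Continuous (fun t : (G → ℝ) × (G → ℝ) => dst t.1 t.2) := continuous_dst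
  have d1 : Continuous (fun t : (G → ℝ) × (G → ℝ) => dst p₀ t.1) :=
    (continuous_dst (G := G)).comp (f := fun t : (G → ℝ) × (G → ℝ) => (p₀, t.1))
      (continuous_const.prodMk continuous_fst)
  have d2 : Continuous (fun t : (G → ℝ) × (G → ℝ) => dst q₀ t.2) :=
    (continuous_dst (G := G)).comp (f := fun t : (G → ℝ) × (G → ℝ) => (q₀, t.2))
      (continuous_const.prodMk continuous_snd)
  have hf : Continuous (fun t : (G → ℝ) × (G → ℝ) =>
      dst t.1 t.2 + η * (dst p₀ t.1 + dst q₀ t.2)) :=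
    d0.add (continuous_const.mul (d1.add d2))
  obtain ⟨⟨p, q⟩, hpq, hmin'⟩ := hc.exists_isMinOn hn hf.continuousOn
  have hpl : IsLaw p := ⟨hpq.1.1, hpq.1.2⟩
  have hql : IsLaw q := ⟨hpq.2.1, hpq.2.2⟩
  have hmin : ∀ p' q' : G → ℝ, IsLaw p' → IsLaw q' →
      dst p q + η * (dst p₀ p + dst q₀ q) ≤ dst p' q' + η * (dst p₀ p' + dst q₀ q') :=
    fun p' q' hp' hq' =>
      hmin' (a := (p', q')) ⟨⟨hp'.nonneg, hp'.sum_one⟩, ⟨hq'.nonneg, hq'.sum_one⟩⟩
  refine ⟨p, q, hpl, hql, ?_, ?_⟩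
  · intro p' q' hp' hq'
    have h1 := hmin p' q' hp' hq'
    have h3 := dst_triangle h2 hp hpl hp'
    have h4 := dst_triangle h2 hq hql hq'
    have h5 : η * (dst p₀ p' + dst q₀ q') ≤
        η * (dst p₀ p + dst q₀ q) + η * (dst p p' + dst q q') := by
      rw [← mul_add]
      exact mul_le_mul_of_nonneg_left (by linarith) hη
    linarith
  · have h1 := hmin p₀ q₀ hp hq
    have h3 := dst_self_le h2 hp hq
    have h4 := dst_self_le h2 hq hp
    rw [dst_comm q₀ p₀] at h4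
    have h5 : η * (dst p₀ p₀ + dst q₀ q₀) ≤ η * (4 * dst p₀ q₀) :=
      mul_le_mul_of_nonneg_left (by linarith) hη
    linarith

end

end Pool.Agent.Lib.MP_0430e4_lc.PFR
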