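import Pool.Agent.Lib.MP_0430e4_lc.PFR.Law

/-!
# PFR.Avg: averaging (M2)

PROOF. `dst p q = ∑ v i * dst p q`, and for `v i ≠ 0` the term is `≤ v i * (dst (P i) (Q i) + η * (..))`; for `v i = 0` both are `0`.
-/

set_option autoImplicit false

open Finset

namespace Pool.Agent.Lib.MP_0430e4_lc.PFR

section

variable {G : Type} [AddCommGroup G] [Fintype G]

theorem lmin_average {I : Type} [Fintype I] {η : ℝ} {p q : G → ℝ} (hm : LMin η p q) {v : I → ℝ} (hv : IsLaw v)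
    (P Q : I → G → ℝ) (hP : ∀ i, v i ≠ 0 → IsLaw (P i)) (hQ : ∀ i, v i ≠ 0 → IsLaw (Q i)) :
    dst p q ≤ ∑ i, v i * dst (P i) (Q i) + η * (∑ i, v i * dst p (P i) + ∑ i, v i * dst q (Q i)) := by
  have h1 : dst p q = ∑ i, v i * dst p q := by rw [← sum_mul, hv.sum_one, one_mul]
  have h2 : ∑ i, v i * dst (P i) (Q i) + η * (∑ i, v i * dst p (P i) + ∑ i, v i * dst q (Q i)) =
      ∑ i, v i * (dst (P i) (Q i) + η * (dst p (P i) + dst q (Q i))) := by
    rw [← sum_add_distrib, mul_sum, ← sum_add_distrib]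
    exact sum_congr rfl fun i _ => by ring
  rw [h1, h2]
  refine sum_le_sum fun i _ => ?_
  by_cases h : v i = 0
  · rw [h, zero_mul, zero_mul]
  · exact mul_le_mul_of_nonneg_left (hm _ _ (hP i h) (hQ i h)) (hv.nonneg i)

end

end Pool.Agent.Lib.MP_0430e4_lc.PFR
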