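import Pool.Agent.Lib.MP_0430e4_lc.PFR.Law
import Pool.Agent.Lib.MP_0430e4_lc.PFR.Prd

/-!
# PFR.Cnd: conditioning (B8)

PROOFS. `law_cnd`: `(if Z ω = z then w ω / P else 0)`, `P = law w Z z`; move the division out of the sum; `(X ω, Z ω) = (x, z)` is
`X ω = x ∧ Z ω = z`. `cnd_isLaw`: the sum is `P / P`. `H_chain`: for every `z`
`∑ x, negMulLog (P(x,z)) = negMulLog (P z) + P z * ∑ x, negMulLog (P(x,z) / P z)`: if `P z ≠ 0` write `P(x,z) = P z * (P(x,z) / P z)`,
`Real.negMulLog_mul` and `sum_law_pair`; if `P z = 0` all `P(x,z) = 0` (`sum_law_pair`, nonnegative) and both sides are `0`. Then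
`law_cnd`. `cnd_prd`: pointwise, with `law_prd` for the mass. `cnd_prd_snd`: pointwise, mass by `law_snd`.
-/

set_option autoImplicit false

open Finset

namespace Pool.Agent.Lib.MP_0430e4_lc.PFR

section

variable {Ω Ω' S S' T U : Type} [Fintype Ω] [Fintype Ω'] [Fintype S] [Fintype S'] [Fintype T] [Fintype U]

theorem cnd_isLaw {w : Ω → ℝ} (hw : IsLaw w) {Z : Ω → T} {z : T} (hz : law w Z z ≠ 0) : IsLaw (cnd w Z z) := by
  classical
  have h0 : 0 < law w Z z := lt_of_le_of_ne (law_nonneg hw Z z) (Ne.symm hz)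
  refine ⟨fun ω => ?_, ?_⟩
  · unfold cnd
    split_ifs
    · exact div_nonneg (hw.nonneg ω) h0.le
    · exact le_rfl
  · have h1 : ∑ ω, cnd w Z z ω = law w Z z / law w Z z := by
      unfold cnd
      conv_rhs => arg 1; unfold law
      rw [sum_div]
      refine sum_congr rfl fun ω _ => ?_
      split_ifs
      · rfl
      · rw [zero_div]
    rw [h1, div_self hz]

theorem law_cnd (w : Ω → ℝ) {S T : Type} (X : Ω → S) (Z : Ω → T) (z : T) (x : S) :
    law (cnd w Z z) X x = law w (fun ω => (X ω, Z ω)) (x, z) / law w Z z := by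
  classical
  have h : law (cnd w Z z) X x = ∑ ω, (if (X ω, Z ω) = (x, z) then w ω else 0) / law w Z z := by
    conv_lhs => unfold law
    refine sum_congr rfl fun ω _ => ?_
    unfold cnd
    by_cases h1 : X ω = x
    · rw [if_pos h1]
      by_cases h2 : Z ω = z
      · rw [if_pos h2, if_pos (show (X ω, Z ω) = (x, z) by rw [h1, h2])]
      · rw [if_neg h2, if_neg (fun h => h2 (congrArg Prod.snd h)), zero_div]
    · rw [if_neg h1, if_neg (fun h => h1 (congrArg Prod.fst h)), zero_div]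
  rw [h, ← sum_div]
  congr 1
  unfold law
  refine sum_congr rfl fun ω _ => ?_
  by_cases h1 : (X ω, Z ω) = (x, z)
  · rw [if_pos h1, if_pos h1]
  · rw [if_neg h1, if_neg h1]

theorem H_chain {w : Ω → ℝ} (hw : IsLaw w) (X : Ω → S) (Z : Ω → T) :
    H w (fun ω => (X ω, Z ω)) = H w Z + ∑ z, law w Z z * H (cnd w Z z) X := by
  classical
  have h0 : H w (fun ω => (X ω, Z ω)) = ∑ z, ∑ x, Real.negMulLog (law w (fun ω => (X ω, Z ω)) (x, z)) := by
    unfold H ent
    rw [Fintype.sum_prod_type_right]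
  have h1 : ∀ z x, Real.negMulLog (law w (fun ω => (X ω, Z ω)) (x, z)) =
      law (cnd w Z z) X x * Real.negMulLog (law w Z z) + law w Z z * Real.negMulLog (law (cnd w Z z) X x) := by
    intro z x
    by_cases hz : law w Z z = 0
    · have h2 : law w (fun ω => (X ω, Z ω)) (x, z) = 0 := by
        have h3 := sum_law_pair w X Z z
        rw [hz] at h3
        exact (sum_eq_zero_iff_of_nonneg (fun x _ => law_nonneg hw _ _)).1 h3 x (mem_univ x)
      rw [h2, hz, Real.negMulLog_zero]
      ring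
    · rw [← Real.negMulLog_mul]
      congr 1
      rw [law_cnd, mul_div_assoc', mul_div_cancel_left₀ _ hz]
  rw [h0]
  simp_rw [h1, sum_add_distrib]
  congr 1
  · unfold H ent
    refine sum_congr rfl fun z _ => ?_
    rw [← sum_mul]
    by_cases hz : law w Z z = 0
    · rw [hz, Real.negMulLog_zero, mul_zero]
    · rw [(law_isLaw (cnd_isLaw hw hz) X).sum_one, one_mul]
  · refine sum_congr rfl fun z _ => ?_
    unfold H ent
    rw [mul_sum]

theorem cnd_prd (w : Ω → ℝ) (w' : Ω' → ℝ) {T T' : Type} (Z : Ω → T) (Z' : Ω' → T') (z : T) (z' : T') :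
    cnd (prd w w') (fun x => (Z x.1, Z' x.2)) (z, z') = prd (cnd w Z z) (cnd w' Z' z') := by
  classical
  funext x
  have hm : law (prd w w') (fun x => (Z x.1, Z' x.2)) (z, z') = law w Z z * law w' Z' z' := by
    rw [law_prd]
    rfl
  unfold cnd
  rw [hm]
  unfold prd
  simp only
  by_cases h1 : Z x.1 = z
  · by_cases h2 : Z' x.2 = z'
    · rw [if_pos (show (Z x.1, Z' x.2) = (z, z') by rw [h1, h2]), if_pos h1, if_pos h2, div_mul_div_comm]
    · rw [if_neg (fun h => h2 (congrArg Prod.snd h)), if_neg h2, mul_zero]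
  · rw [if_neg (fun h => h1 (congrArg Prod.fst h)), if_neg h1, zero_mul]

theorem cnd_prd_snd {w : Ω → ℝ} (hw : IsLaw w) (w' : Ω' → ℝ) {T : Type} (Z' : Ω' → T) (z' : T) :
    cnd (prd w w') (fun x => Z' x.2) z' = prd w (cnd w' Z' z') := by
  classical
  funext x
  have hm : law (prd w w') (fun x => Z' x.2) z' = law w' Z' z' := by
    rw [law_snd hw w' Z']
  unfold cnd
  rw [hm]
  unfold prd
  simp only
  by_cases h2 : Z' x.2 = z'
  · rw [if_pos h2, if_pos h2, mul_div_assoc]
  · rw [if_neg h2, if_neg h2, mul_zero]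

end

end Pool.Agent.Lib.MP_0430e4_lc.PFR
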