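import Pool.Agent.Lib.MP_0430e4_lc.PFR.Law
import Pool.Agent.Lib.MP_0430e4_lc.PFR.Prd
import Pool.Agent.Lib.MP_0430e4_lc.PFR.Cnv
import Pool.Agent.Lib.MP_0430e4_lc.PFR.Cnd

/-!
# PFR.Rz4: conditional distance (R6)

PROOF. Space `prd p w`, `V = x.1 + X x.2`, `Z' = Z x.2`. `H_chain`: `H(V, Z') = H Z' + ∑ z, law w Z z * H (cnd (prd p w) Z' z) V`
(`law_snd`), `cnd (prd p w) Z' z = prd p (cnd w Z z)` (`cnd_prd_snd`), so `H (..) V = ent (conv p (law (cnd w Z z) X))` (`H_prd_add`,
`law_id`). `subadd`: `H(V, Z') ≤ H V + H Z'`, `H V = ent (conv p (law w X))`. Hence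
`∑ z, P z * ent (conv p (law (cnd w Z z) X)) ≤ ent (conv p (law w X))`. Further `∑ z, P z * ent (law (cnd w Z z) X) = H(X,Z) - H Z`
(`H_chain`), `∑ z, P z = 1`. Insert in `dst`.
-/

set_option autoImplicit false

open Finset

namespace Pool.Agent.Lib.MP_0430e4_lc.PFR

section

variable {G : Type} [AddCommGroup G] [Fintype G]

theorem dst_cnd_le {Ω T : Type} [Fintype Ω] [Fintype T] {p : G → ℝ} (hp : IsLaw p) {w : Ω → ℝ} (hw : IsLaw w)
    (X : Ω → G) (Z : Ω → T) :
    ∑ z, law w Z z * dst p (law (cnd w Z z) X) ≤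
      dst p (law w X) + (H w X + H w Z - H w (fun ω => (X ω, Z ω))) / 2 := by
  have hpw := prd_isLaw hp hw
  have h1 := H_chain hpw (fun x => x.1 + X x.2) (fun x => Z x.2)
  have h2 := subadd hpw (fun x => x.1 + X x.2) (fun x => Z x.2)
  have e1 : ∀ z, H (cnd (prd p w) (fun x => Z x.2) z) (fun x => x.1 + X x.2) =
      ent (conv p (law (cnd w Z z) X)) := by
    intro z
    rw [cnd_prd_snd hp w Z z]
    unfold H
    rw [law_prd_add p (cnd w Z z) (fun x => x) X, law_id]
  have e2 : H (prd p w) (fun x => x.1 + X x.2) = ent (conv p (law w X)) := by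
    unfold H
    rw [law_prd_add p w (fun x => x) X, law_id]
  rw [law_snd hp w Z] at h1
  simp_rw [e1] at h1
  rw [e2] at h2
  have h3 := H_chain hw X Z
  have h4 : ∑ z, law w Z z = 1 := (law_isLaw hw Z).sum_one
  have e3 : ∑ z, law w Z z * dst p (law (cnd w Z z) X) =
      ∑ z, law w Z z * ent (conv p (law (cnd w Z z) X)) - ent p / 2 -
        (∑ z, law w Z z * H (cnd w Z z) X) / 2 := by
    have e4 : ∀ z, law w Z z * dst p (law (cnd w Z z) X) =
        law w Z z * ent (conv p (law (cnd w Z z) X)) - law w Z z * (ent p / 2) -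
        law w Z z * H (cnd w Z z) X / 2 := by
      intro z
      unfold dst H
      ring
    rw [sum_congr rfl fun z _ => e4 z, sum_sub_distrib, sum_sub_distrib, ← sum_mul, h4, one_mul,
      sum_div]
  rw [e3]
  have h5 : dst p (law w X) = ent (conv p (law w X)) - (ent p + H w X) / 2 := rfl
  rw [h5]
  linarith

end

end Pool.Agent.Lib.MP_0430e4_lc.PFR
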