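import Pool.Agent.Lib.MP_0430e4_lc.PFR.Law
import Pool.Agent.Lib.MP_0430e4_lc.PFR.Prd
import Pool.Agent.Lib.MP_0430e4_lc.PFR.Cnv
import Pool.Agent.Lib.MP_0430e4_lc.PFR.Cnd
import Pool.Agent.Lib.MP_0430e4_lc.PFR.Rz4
import Pool.Agent.Lib.MP_0430e4_lc.PFR.Avg

/-!
# PFR.MPr: minimality, conditioning on a product space (M3)

PROOF. `I = T₁ × T₂`, `v = prd (law w₁ Z₁) (law w₂ Z₂)`, `P i = law (cnd w₁ Z₁ i.1) A`, `Q i = law (cnd w₂ Z₂ i.2) B` (laws if `v i ≠ 0`: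
`cnd_isLaw`, `law_isLaw`). (i) `H_chain` for `prd w₁ w₂`, `X = A x.1 + B x.2`, `Z = (Z₁ x.1, Z₂ x.2)`: law of `Z` is `v` (`law_prd`), `cnd_prd`,
`H_prd_add`: `∑ v * ent (conv (P i) (Q i)) = H(A+B, (Z₁, Z₂)) - (H Z₁ + H Z₂)` (`H_prd`). (ii) `∑ v * ent (P i) = ∑ z₁, law w₁ Z₁ z₁ * H (cnd w₁ Z₁ z₁) A =
H(A,Z₁) - H Z₁` (sum over `z₂` is `1`), same for `Q`. (iii) `∑ v * dst p (P i) = ∑ z₁, law w₁ Z₁ z₁ * dst p (law (cnd w₁ Z₁ z₁) A) ≤ ..`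
(`dst_cnd_le`), same for `q`. Then `lmin_average` and arithmetic.
-/

set_option autoImplicit false

open Finset

namespace Pool.Agent.Lib.MP_0430e4_lc.PFR

section

variable {G : Type} [AddCommGroup G] [Fintype G]

private theorem MPr_sum_fst {T₁ T₂ : Type} [Fintype T₁] [Fintype T₂] (u : T₁ → ℝ) {v : T₂ → ℝ} (hv : IsLaw v)
    (F : T₁ → ℝ) : ∑ z : T₁ × T₂, prd u v z * F z.1 = ∑ z, u z * F z := by
  rw [Fintype.sum_prod_type]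
  refine sum_congr rfl fun a _ => ?_
  calc ∑ b, prd u v (a, b) * F a = ∑ b, (u a * F a) * v b := sum_congr rfl fun b _ => by
        unfold prd
        ring
    _ = u a * F a := by rw [← mul_sum, hv.sum_one, mul_one]

private theorem MPr_sum_snd {T₁ T₂ : Type} [Fintype T₁] [Fintype T₂] {u : T₁ → ℝ} (hu : IsLaw u) (v : T₂ → ℝ)
    (F : T₂ → ℝ) : ∑ z : T₁ × T₂, prd u v z * F z.2 = ∑ z, v z * F z := by
  rw [Fintype.sum_prod_type, sum_comm]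
  refine sum_congr rfl fun b _ => ?_
  calc ∑ a, prd u v (a, b) * F b = ∑ a, (v b * F b) * u a := sum_congr rfl fun a _ => by
        unfold prd
        ring
    _ = v b * F b := by rw [← mul_sum, hu.sum_one, mul_one]

theorem lmin_prod {Ω₁ Ω₂ T₁ T₂ : Type} [Fintype Ω₁] [Fintype Ω₂] [Fintype T₁] [Fintype T₂]
    {η : ℝ} (hη : 0 ≤ η) {p q : G → ℝ} (hp : IsLaw p) (hq : IsLaw q) (hm : LMin η p q)
    {w₁ : Ω₁ → ℝ} (h₁ : IsLaw w₁) {w₂ : Ω₂ → ℝ} (h₂ : IsLaw w₂)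
    (A : Ω₁ → G) (Z₁ : Ω₁ → T₁) (B : Ω₂ → G) (Z₂ : Ω₂ → T₂) :
    dst p q ≤ H (prd w₁ w₂) (fun x => (A x.1 + B x.2, Z₁ x.1, Z₂ x.2))
        - (H w₁ Z₁ + H w₂ Z₂ + H w₁ (fun ω => (A ω, Z₁ ω)) + H w₂ (fun ω => (B ω, Z₂ ω))) / 2
      + η * (dst p (law w₁ A) + (H w₁ A + H w₁ Z₁ - H w₁ (fun ω => (A ω, Z₁ ω))) / 2
        + dst q (law w₂ B) + (H w₂ B + H w₂ Z₂ - H w₂ (fun ω => (B ω, Z₂ ω))) / 2) := by
  have hv₁ : IsLaw (law w₁ Z₁) := law_isLaw h₁ Z₁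
  have hv₂ : IsLaw (law w₂ Z₂) := law_isLaw h₂ Z₂
  have hv : IsLaw (prd (law w₁ Z₁) (law w₂ Z₂)) := prd_isLaw hv₁ hv₂
  have hne : ∀ z : T₁ × T₂, prd (law w₁ Z₁) (law w₂ Z₂) z ≠ 0 → law w₁ Z₁ z.1 ≠ 0 ∧ law w₂ Z₂ z.2 ≠ 0 := by
    intro z hz
    unfold prd at hz
    exact ⟨left_ne_zero_of_mul hz, right_ne_zero_of_mul hz⟩
  have h0 := lmin_average hm hv (fun z : T₁ × T₂ => law (cnd w₁ Z₁ z.1) A) (fun z => law (cnd w₂ Z₂ z.2) B)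
    (fun z hz => law_isLaw (cnd_isLaw h₁ (hne z hz).1) A) (fun z hz => law_isLaw (cnd_isLaw h₂ (hne z hz).2) B)
  have hA := H_chain h₁ A Z₁
  have hB := H_chain h₂ B Z₂
  have hC := H_chain (prd_isLaw h₁ h₂) (fun x : Ω₁ × Ω₂ => A x.1 + B x.2) (fun x => (Z₁ x.1, Z₂ x.2))
  have hZ : law (prd w₁ w₂) (fun x => (Z₁ x.1, Z₂ x.2)) = prd (law w₁ Z₁) (law w₂ Z₂) := law_prd w₁ w₂ Z₁ Z₂
  rw [H_prd h₁ h₂ Z₁ Z₂, hZ] at hC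
  have hC' : ∀ z : T₁ × T₂, H (cnd (prd w₁ w₂) (fun x => (Z₁ x.1, Z₂ x.2)) z) (fun x : Ω₁ × Ω₂ => A x.1 + B x.2) =
      ent (conv (law (cnd w₁ Z₁ z.1) A) (law (cnd w₂ Z₂ z.2) B)) := by
    intro z
    have h1 : cnd (prd w₁ w₂) (fun x => (Z₁ x.1, Z₂ x.2)) z = prd (cnd w₁ Z₁ z.1) (cnd w₂ Z₂ z.2) :=
      cnd_prd w₁ w₂ Z₁ Z₂ z.1 z.2
    rw [h1, H_prd_add]
  simp only [hC'] at hC
  have hdA := dst_cnd_le hp h₁ A Z₁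
  have hdB := dst_cnd_le hq h₂ B Z₂
  have e1 := MPr_sum_fst (law w₁ Z₁) hv₂ (fun z => dst p (law (cnd w₁ Z₁ z) A))
  have e2 := MPr_sum_snd hv₁ (law w₂ Z₂) (fun z => dst q (law (cnd w₂ Z₂ z) B))
  have e3 := MPr_sum_fst (law w₁ Z₁) hv₂ (fun z => H (cnd w₁ Z₁ z) A)
  have e4 := MPr_sum_snd hv₁ (law w₂ Z₂) (fun z => H (cnd w₂ Z₂ z) B)
  have hs : ∑ z : T₁ × T₂, prd (law w₁ Z₁) (law w₂ Z₂) z * dst (law (cnd w₁ Z₁ z.1) A) (law (cnd w₂ Z₂ z.2) B) =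
      ∑ z : T₁ × T₂, prd (law w₁ Z₁) (law w₂ Z₂) z * ent (conv (law (cnd w₁ Z₁ z.1) A) (law (cnd w₂ Z₂ z.2) B))
        - (∑ z : T₁ × T₂, prd (law w₁ Z₁) (law w₂ Z₂) z * H (cnd w₁ Z₁ z.1) A
          + ∑ z : T₁ × T₂, prd (law w₁ Z₁) (law w₂ Z₂) z * H (cnd w₂ Z₂ z.2) B) / 2 := by
    rw [← sum_add_distrib, sum_div, ← sum_sub_distrib]
    refine sum_congr rfl fun z _ => ?_
    unfold dst H
    ring
  have hη' := mul_le_mul_of_nonneg_left (add_le_add hdA hdB) hη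
  rw [hs, e1, e2, e3, e4] at h0
  refine h0.trans ?_
  refine (add_le_add (le_refl _) hη').trans ?_
  refine le_of_eq ?_
  rw [hC, hA, hB]
  ring


end

end Pool.Agent.Lib.MP_0430e4_lc.PFR
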