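import Pool.Agent.Lib.MP_0430e4_lc.PFR.Num
import Pool.Agent.Lib.MP_0430e4_lc.PFR.MPr
import Pool.Agent.Lib.MP_0430e4_lc.PFR.Rz3

/-!
# PFR.T2: second estimate (T2)

PROOF. `lmin_prod` with `Ω₁ = Ω₂ = G × G`, `w₁ = w₂ = prd p q`, `A = x.1`, `Z₁ = x.1 + x.2`, `B = x.2`, `Z₂ = x.1 + x.2`.
`H (prd w₁ w₂) (x.1.1 + x.2.2, x.1.1 + x.1.2, x.2.1 + x.2.2) = numT p q` by `H_congr` (same partition as
`(x.1.1 + x.1.2, x.1.1 + x.2.1, S)`; uses `h2`; `Q4 p q = prd w₁ w₂` by `rfl`). `H w₁ Z₁ = ent (conv p q)`, `H w₁ (A, Z₁) = H (x.1, x.2) = ent p + ent q`,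
same for `(B, Z₂)`; `law w₁ A = p`, `law w₂ B = q`. The bracket after `η` is `dst p p + dst q q + (2 c - a - b) / 2 ≤ 5 dst p q`.
-/

set_option autoImplicit false

open Finset

namespace Pool.Agent.Lib.MP_0430e4_lc.PFR

section

variable {G : Type} [AddCommGroup G] [Fintype G]

private theorem t2_part (h2 : ∀ x : G, x + x = 0) {p q : G → ℝ} (hp : IsLaw p) (hq : IsLaw q) :
    H (prd (prd p q) (prd p q)) (fun x => (x.1.1 + x.2.2, x.1.1 + x.1.2, x.2.1 + x.2.2)) = numT p q := by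
  unfold numT Q4
  refine H_congr (prd_isLaw (prd_isLaw hp hq) (prd_isLaw hp hq)) _ _ fun x y => ?_
  have h3 : ∀ a b c : G, (a + b) + (b + c) = a + c := by
    intro a b c
    have h4 : (a + b) + (b + c) = a + c + (b + b) := by abel
    rw [h4, h2, add_zero]
  simp only [Prod.mk.injEq]
  constructor
  · rintro ⟨h4, h5, h6⟩
    have h7 : x.2.1 + x.2.2 = y.2.1 + y.2.2 := by
      have h8 : ∀ a b c d : G, a + b + c + d = (a + b) + (c + d) := fun a b c d => by abel
      rw [h8, h8, h4] at h6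
      exact add_left_cancel h6
    refine ⟨?_, h4, h7⟩
    rw [← h3 x.1.1 x.2.1 x.2.2, ← h3 y.1.1 y.2.1 y.2.2, h5, h7]
  · rintro ⟨h4, h5, h6⟩
    refine ⟨h5, ?_, ?_⟩
    · rw [← h3 x.1.1 x.2.2 x.2.1, ← h3 y.1.1 y.2.2 y.2.1, h4, add_comm x.2.2, add_comm y.2.2, h6]
    · have h8 : ∀ a b c d : G, a + b + c + d = (a + b) + (c + d) := fun a b c d => by abel
      rw [h8, h8 y.1.1, h5, h6]

theorem T2 (h2 : ∀ x : G, x + x = 0) {η : ℝ} (hη : 0 ≤ η) {p q : G → ℝ} (hp : IsLaw p)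
    (hq : IsLaw q) (hm : LMin η p q) :
    dst p q ≤ numT p q - ent (conv p q) - ent p - ent q + 6 * η * dst p q := by
  have hw := prd_isLaw hp hq
  have h := lmin_prod hη hp hq hm hw hw (fun x => x.1) (fun x => x.1 + x.2) (fun x => x.2) (fun x => x.1 + x.2)
  have eA : law (prd p q) (fun x => x.1) = p := by
    rw [law_fst p hq (fun x => x), law_id]
  have eB : law (prd p q) (fun x => x.2) = q := by
    rw [law_snd hp q (fun x => x), law_id]
  have eHA : H (prd p q) (fun x => x.1) = ent p := by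
    unfold H
    rw [eA]
  have eHB : H (prd p q) (fun x => x.2) = ent q := by
    unfold H
    rw [eB]
  have eC : H (prd p q) (fun x => x.1 + x.2) = ent (conv p q) := rfl
  have eall : H (prd p q) (fun x => x) = ent p + ent q := by
    unfold H
    rw [law_id, ent_prd hp hq]
  have eAC : H (prd p q) (fun x => (x.1, x.1 + x.2)) = ent p + ent q := by
    rw [← eall]
    refine H_congr hw _ _ fun x y => ⟨fun h => by rw [h], fun h => ?_⟩
    simp only [Prod.mk.injEq] at h
    obtain ⟨h3, h4⟩ := h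
    rw [h3] at h4
    exact Prod.ext h3 (add_left_cancel h4)
  have eBC : H (prd p q) (fun x => (x.2, x.1 + x.2)) = ent p + ent q := by
    rw [← eall]
    refine H_congr hw _ _ fun x y => ⟨fun h => by rw [h], fun h => ?_⟩
    simp only [Prod.mk.injEq] at h
    obtain ⟨h3, h4⟩ := h
    rw [h3] at h4
    exact Prod.ext (add_right_cancel h4) h3
  rw [t2_part h2 hp hq, eA, eB, eHA, eHB, eC, eAC, eBC] at h
  have h3 := dst_self_le h2 hp hq
  have h4 := dst_self_le h2 hq hp
  rw [dst_comm q p] at h4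
  have h5 := dst_nonneg hp hq
  have h6 : dst p q = ent (conv p q) - (ent p + ent q) / 2 := rfl
  have h7 : η * (dst p p + (ent p + ent (conv p q) - (ent p + ent q)) / 2 +
      dst q q + (ent q + ent (conv p q) - (ent p + ent q)) / 2) ≤ η * (6 * dst p q) := by
    refine mul_le_mul_of_nonneg_left ?_ hη
    linarith
  linarith

end

end Pool.Agent.Lib.MP_0430e4_lc.PFR
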