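import Pool.Agent.Lib.MP_0430e4_lc.PFR.Law

/-!
# PFR.Eqv: change of space (B7)
-/

set_option autoImplicit false

open Finset

namespace Pool.Agent.Lib.MP_0430e4_lc.PFR

section

variable {Ω Ω' S : Type} [Fintype Ω] [Fintype Ω'] [Fintype S]

theorem H_equiv (e : Ω ≃ Ω') (w : Ω' → ℝ) (X : Ω' → S) :
    H (fun ω => w (e ω)) (fun ω => X (e ω)) = H w X := by
  classical
  rw [H_eq_sum, H_eq_sum]
  have h : law (fun ω => w (e ω)) (fun ω => X (e ω)) = law w X := by
    funext s
    unfold law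
    exact Equiv.sum_comp e (fun ω' => if X ω' = s then w ω' else 0)
  rw [h]
  exact Equiv.sum_comp e (fun ω' => w ω' * -Real.log (law w X (X ω')))

end

end Pool.Agent.Lib.MP_0430e4_lc.PFR
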