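import Pool.Agent.Lib.MP_0430e4_lc.PFR.Num
import Pool.Agent.Lib.MP_0430e4_lc.PFR.MPr
import Pool.Agent.Lib.MP_0430e4_lc.PFR.Rz3
import Pool.Agent.Lib.MP_0430e4_lc.PFR.Eqv

/-!
# PFR.T4: fourth estimate (T4)

PROOF. `lmin_prod` with `w₁ = prd p p` (variables `X1, X3`), `A = x.1`, `Z₁ = x.1 + x.2`, `w₂ = prd q q` (`X2, X4`), `B = x.1`, `Z₂ = x.1 + x.2`.
`H (prd w₁ w₂) (x.1.1 + x.2.1, x.1.1 + x.1.2, x.2.1 + x.2.2) = numT p q`: `H_equiv` with `((x1,x3),(x2,x4)) ↔ ((x1,x2),(x3,x4))` and `H_congr`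
(`S = (X1+X3) + (X2+X4)`). `H w₁ Z₁ = ent (conv p p)`, `H w₁ (A, Z₁) = 2 ent p`, same for `q`. The bracket after `η` is
`3/2 (dst p p + dst q q) ≤ 6 dst p q`.
-/

set_option autoImplicit false

open Finset

namespace Pool.Agent.Lib.MP_0430e4_lc.PFR

section

variable {G : Type} [AddCommGroup G] [Fintype G]

theorem T4 (h2 : ∀ x : G, x + x = 0) {η : ℝ} (hη : 0 ≤ η) {p q : G → ℝ} (hp : IsLaw p)
    (hq : IsLaw q) (hm : LMin η p q) :
    dst p q ≤ numT p q - (ent (conv p p) + ent (conv q q)) / 2 - ent p - ent q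
      + 6 * η * dst p q := by
  have h := lmin_prod hη hp hq hm (prd_isLaw hp hp) (prd_isLaw hq hq)
    (fun x : G × G => x.1) (fun x : G × G => x.1 + x.2)
    (fun x : G × G => x.1) (fun x : G × G => x.1 + x.2)
  have hT : H (prd (prd p p) (prd q q))
      (fun x => (x.1.1 + x.2.1, x.1.1 + x.1.2, x.2.1 + x.2.2)) = numT p q := by
    have h1 := H_equiv (Equiv.prodProdProdComm G G G G) (prd (prd p p) (prd q q))
      (fun x => (x.1.1 + x.2.1, x.1.1 + x.1.2, x.2.1 + x.2.2))
    rw [← h1]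
    have h3 : (fun ω => prd (prd p p) (prd q q) ((Equiv.prodProdProdComm G G G G) ω)) = Q4 p q := by
      funext ω
      obtain ⟨⟨a, b⟩, ⟨c, d⟩⟩ := ω
      show p a * p c * (q b * q d) = p a * q b * (p c * q d)
      ring
    rw [h3]
    unfold numT
    refine H_congr (prd_isLaw (prd_isLaw hp hq) (prd_isLaw hp hq)) _ _ fun ω ω' => ?_
    obtain ⟨⟨a, b⟩, ⟨c, d⟩⟩ := ω
    obtain ⟨⟨a', b'⟩, ⟨c', d'⟩⟩ := ω'
    show (a + b, a + c, a + b + c + d) = (a' + b', a' + c', a' + b' + c' + d') ↔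
      (a + b, a + c, b + d) = (a' + b', a' + c', b' + d')
    simp only [Prod.mk.injEq]
    constructor
    · rintro ⟨e1, e2, e3⟩
      refine ⟨e1, e2, ?_⟩
      have e4 : a + b + c + d = (a + c) + (b + d) := by abel
      have e5 : a' + b' + c' + d' = (a' + c') + (b' + d') := by abel
      rw [e4, e5, e2] at e3
      exact add_left_cancel e3
    · rintro ⟨e1, e2, e3⟩
      refine ⟨e1, e2, ?_⟩
      have e4 : a + b + c + d = (a + c) + (b + d) := by abel
      have e5 : a' + b' + c' + d' = (a' + c') + (b' + d') := by abel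
      rw [e4, e5, e2, e3]
  have hZ : ∀ r : G → ℝ, H (prd r r) (fun x : G × G => x.1 + x.2) = ent (conv r r) := fun r => rfl
  have hAZ : ∀ r : G → ℝ, IsLaw r →
      H (prd r r) (fun x : G × G => (x.1, x.1 + x.2)) = 2 * ent r := by
    intro r hr
    have h1 : H (prd r r) (fun x : G × G => (x.1, x.1 + x.2)) =
        H (prd r r) (fun x : G × G => (x.1, x.2)) := by
      refine H_congr (prd_isLaw hr hr) _ _ fun ω ω' => ?_
      simp only [Prod.mk.injEq]
      constructor
      · rintro ⟨e1, e2⟩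
        exact ⟨e1, by rw [e1, e2]⟩
      · rintro ⟨e1, e2⟩
        refine ⟨e1, ?_⟩
        rw [e1] at e2
        exact add_left_cancel e2
    have h3 := H_prd hr hr (fun x : G => x) (fun x : G => x)
    have h4 : H r (fun x : G => x) = ent r := by
      unfold H
      rw [law_id]
    rw [h1, h3, h4]
    ring
  have hA : ∀ r : G → ℝ, IsLaw r → law (prd r r) (fun x : G × G => x.1) = r := by
    intro r hr
    have h1 := law_fst r hr (fun x : G => x)
    rw [law_id] at h1
    exact h1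
  have hHA : ∀ r : G → ℝ, IsLaw r → H (prd r r) (fun x : G × G => x.1) = ent r := by
    intro r hr
    unfold H
    rw [hA r hr]
  have hd : ∀ r : G → ℝ, dst r r = ent (conv r r) - ent r := by
    intro r
    unfold dst
    ring
  have h5 := dst_self_le h2 hp hq
  have h6 := dst_self_le h2 hq hp
  rw [dst_comm q p] at h6
  rw [hT, hZ p, hZ q, hAZ p hp, hAZ q hq, hA p hp, hA q hq, hHA p hp, hHA q hq] at h
  have h7 : η * (dst p p + (ent p + ent (conv p p) - 2 * ent p) / 2 + dst q q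
      + (ent q + ent (conv q q) - 2 * ent q) / 2) ≤ η * (6 * dst p q) := by
    refine mul_le_mul_of_nonneg_left ?_ hη
    have h8 := hd p
    have h9 := hd q
    linarith
  linarith

end

end Pool.Agent.Lib.MP_0430e4_lc.PFR
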