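import Pool.Agent.Lib.MP_0430e4_lc.PFR.Law
import Pool.Agent.Lib.MP_0430e4_lc.PFR.Prd
import Pool.Agent.Lib.MP_0430e4_lc.PFR.Cnd

/-!
# PFR.Cpr: conditionally independent copies (B9)

PROOFS. `law_cprd_fst`: `∑ ω', (if Z ω = Z ω' then w ω * w ω' / P(Z ω) else 0) = w ω * P(Z ω) / P(Z ω) = w ω`, because `w ω = 0` if
`P(Z ω) = 0` (`le_law`). The same with the second coordinate (if `Z ω = Z ω'` then `P(Z ω) = P(Z ω')`). `cprd_isLaw`: nonnegative,
sum by the same computation. `cprd_supp`. `cnd_cprd`: pointwise: mass of `Z x.1 = z` is `P(z) * P(z) / P(z) = P(z)`. `H_cprd`: `H_chain` for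
`(X x.1, Y x.2)` given `Z x.1`, `cnd_cprd`, `H_prd` (if `P(z) ≠ 0`; otherwise the term has factor `0`), and `H_chain` for `w` twice.
-/

set_option autoImplicit false

open Finset

namespace Pool.Agent.Lib.MP_0430e4_lc.PFR

section

variable {Ω Ω' S S' T U : Type} [Fintype Ω] [Fintype Ω'] [Fintype S] [Fintype S'] [Fintype T] [Fintype U]

/-- a sum over the second copy -/
theorem sum_cprd_right {w : Ω → ℝ} (hw : IsLaw w) {T : Type} (Z : Ω → T) (a : Ω) : ∑ b, cprd w Z (a, b) = w a := by
  classical
  have h0 := le_law hw Z a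
  by_cases h : law w Z (Z a) = 0
  · have h1 : w a = 0 := le_antisymm (h ▸ h0) (hw.nonneg a)
    rw [h1]
    refine sum_eq_zero fun b _ => ?_
    unfold cprd
    simp only [h, div_zero, ite_self]
  · have h1 : ∑ b, cprd w Z (a, b) = w a * law w Z (Z a) / law w Z (Z a) := by
      conv_rhs => arg 1; arg 2; unfold law
      rw [mul_sum, sum_div]
      refine sum_congr rfl fun b _ => ?_
      unfold cprd
      simp only
      by_cases h2 : Z a = Z b
      · rw [if_pos h2, if_pos h2.symm]
      · rw [if_neg h2, if_neg (fun h => h2 h.symm), mul_zero, zero_div]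
    rw [h1, mul_div_assoc, div_self h, mul_one]

theorem cprd_swap (w : Ω → ℝ) {T : Type} (Z : Ω → T) (a b : Ω) : cprd w Z (a, b) = cprd w Z (b, a) := by
  classical
  unfold cprd
  simp only
  by_cases h : Z a = Z b
  · rw [if_pos h, if_pos h.symm, h, mul_comm]
  · rw [if_neg h, if_neg (fun h' => h h'.symm)]

theorem cprd_isLaw {w : Ω → ℝ} (hw : IsLaw w) {T : Type} (Z : Ω → T) : IsLaw (cprd w Z) := by
  classical
  refine ⟨fun x => ?_, ?_⟩
  · unfold cprd
    split_ifs
    · exact div_nonneg (mul_nonneg (hw.nonneg _) (hw.nonneg _)) (law_nonneg hw _ _)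
    · exact le_rfl
  · rw [Fintype.sum_prod_type]
    simp_rw [sum_cprd_right hw Z]
    exact hw.sum_one

theorem law_cprd_fst {w : Ω → ℝ} (hw : IsLaw w) {S T : Type} (Z : Ω → T) (X : Ω → S) :
    law (cprd w Z) (fun x => X x.1) = law w X := by
  classical
  funext s
  unfold law
  rw [Fintype.sum_prod_type]
  refine sum_congr rfl fun a _ => ?_
  by_cases h : X a = s
  · simp only [if_pos h]
    exact sum_cprd_right hw Z a
  · simp only [if_neg h, sum_const_zero]

theorem law_cprd_snd {w : Ω → ℝ} (hw : IsLaw w) {S T : Type} (Z : Ω → T) (X : Ω → S) :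
    law (cprd w Z) (fun x => X x.2) = law w X := by
  classical
  funext s
  unfold law
  rw [Fintype.sum_prod_type_right]
  refine sum_congr rfl fun a _ => ?_
  by_cases h : X a = s
  · simp only [if_pos h]
    rw [← sum_cprd_right hw Z a]
    exact sum_congr rfl fun b _ => cprd_swap w Z b a
  · simp only [if_neg h, sum_const_zero]

theorem law_cprd_Z {w : Ω → ℝ} (hw : IsLaw w) {T : Type} (Z : Ω → T) (z : T) :
    law (cprd w Z) (fun x => Z x.1) z = law w Z z := by
  rw [law_cprd_fst hw Z Z]

theorem cprd_supp {w : Ω → ℝ} {T : Type} {Z : Ω → T} {x : Ω × Ω} (h : cprd w Z x ≠ 0) : Z x.1 = Z x.2 := by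
  classical
  by_contra h1
  refine h ?_
  unfold cprd
  rw [if_neg h1]

theorem cnd_cprd (w : Ω → ℝ) {T : Type} (Z : Ω → T) (z : T) :
    cnd (cprd w Z) (fun x => Z x.1) z = prd (cnd w Z z) (cnd w Z z) := by
  classical
  funext x
  by_cases hz : law w Z z = 0
  · -- both sides vanish
    have h1 : ∀ a, cnd w Z z a = 0 := fun a => by
      unfold cnd
      rw [hz, div_zero, ite_self]
    unfold prd
    rw [h1, zero_mul]
    by_cases h2 : Z x.1 = z
    · have h3 : cprd w Z x = 0 := by
        unfold cprd
        rw [h2, hz, div_zero, ite_self]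
      unfold cnd
      rw [h3, zero_div, ite_self]
    · unfold cnd
      rw [if_neg h2]
  · have hm : law (cprd w Z) (fun x => Z x.1) z = law w Z z := by
      conv_lhs => unfold law
      conv_rhs => unfold law
      rw [Fintype.sum_prod_type]
      refine sum_congr rfl fun a _ => ?_
      by_cases h : Z a = z
      · simp only [if_pos h]
        have h1 : ∑ b, cprd w Z (a, b) = w a * law w Z (Z a) / law w Z (Z a) := by
          conv_rhs => arg 1; arg 2; unfold law
          rw [mul_sum, sum_div]
          refine sum_congr rfl fun b _ => ?_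
          unfold cprd
          simp only
          by_cases h2 : Z a = Z b
          · rw [if_pos h2, if_pos h2.symm]
          · rw [if_neg h2, if_neg (fun h => h2 h.symm), mul_zero, zero_div]
        rw [h1, h, mul_div_assoc, div_self hz, mul_one]
      · simp only [if_neg h, sum_const_zero]
    unfold prd
    by_cases h1 : Z x.1 = z
    · by_cases h2 : Z x.2 = z
      · have e1 : cnd (cprd w Z) (fun x => Z x.1) z x = cprd w Z x / law w Z z := by
          unfold cnd
          rw [if_pos h1, hm]
        have e2 : cprd w Z x = w x.1 * w x.2 / law w Z z := by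
          unfold cprd
          rw [if_pos (h1.trans h2.symm), h1]
        have e3 : cnd w Z z x.1 = w x.1 / law w Z z := by
          unfold cnd
          rw [if_pos h1]
        have e4 : cnd w Z z x.2 = w x.2 / law w Z z := by
          unfold cnd
          rw [if_pos h2]
        rw [e1, e2, e3, e4, div_mul_div_comm, div_div]
      · have e1 : cnd (cprd w Z) (fun x => Z x.1) z x = cprd w Z x / law w Z z := by
          unfold cnd
          rw [if_pos h1, hm]
        have e2 : cprd w Z x = 0 := by
          unfold cprd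
          rw [if_neg]
          intro h
          exact h2 (h ▸ h1)
        have e4 : cnd w Z z x.2 = 0 := by
          unfold cnd
          rw [if_neg h2]
        rw [e1, e2, e4, zero_div, mul_zero]
    · have e1 : cnd (cprd w Z) (fun x => Z x.1) z x = 0 := by
        unfold cnd
        rw [if_neg h1]
      have e3 : cnd w Z z x.1 = 0 := by
        unfold cnd
        rw [if_neg h1]
      rw [e1, e3, zero_mul]

theorem H_cprd {w : Ω → ℝ} (hw : IsLaw w) (X : Ω → S) (Y : Ω → S') (Z : Ω → T) :
    H (cprd w Z) (fun x => (X x.1, Y x.2, Z x.1)) =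
      H w (fun ω => (X ω, Z ω)) + H w (fun ω => (Y ω, Z ω)) - H w Z := by
  have hc := cprd_isLaw hw Z
  have h1 : H (cprd w Z) (fun x => (X x.1, Y x.2, Z x.1)) = H (cprd w Z) (fun x => ((X x.1, Y x.2), Z x.1)) := by
    refine H_congr hc _ _ fun x y => ?_
    simp only [Prod.mk.injEq]
    tauto
  have h2 : H (cprd w Z) (fun x => Z x.1) = H w Z := by
    unfold H
    rw [law_cprd_fst hw Z Z]
  rw [h1, H_chain hc (fun x => (X x.1, Y x.2)) (fun x => Z x.1), h2, H_chain hw X Z, H_chain hw Y Z]
  have h3 : ∑ z, law (cprd w Z) (fun x => Z x.1) z * H (cnd (cprd w Z) (fun x => Z x.1) z) (fun x => (X x.1, Y x.2)) =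
      ∑ z, law w Z z * H (cnd w Z z) X + ∑ z, law w Z z * H (cnd w Z z) Y := by
    rw [← sum_add_distrib]
    refine sum_congr rfl fun z _ => ?_
    rw [law_cprd_Z hw Z z, cnd_cprd w Z z]
    by_cases hz : law w Z z = 0
    · rw [hz]; ring
    · rw [H_prd (cnd_isLaw hw hz) (cnd_isLaw hw hz) X Y]; ring
  rw [h3]
  ring

end

end Pool.Agent.Lib.MP_0430e4_lc.PFR
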