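import Pool.Agent.Lib.MP_0430e4_lc.PFR.Law
import Pool.Agent.Lib.MP_0430e4_lc.PFR.Cpr

/-!
# PFR.Ebsg: entropic Balog-Szemeredi-Gowers (M5)

PROOF. `u = cprd w Zc`, `Zc = (A + B, Z)`; `A1 = A x.1`, `B2 = B x.2` etc., `C1 = A1 + B1`. On the support of `u` (`cprd_supp`): `A1 + B1 = A2 + B2`,
`Z x.1 = Z x.2`, and by `h2` `A1 + B2 = A2 + B1`.
(1) `submod` (`X = A1+B2`, `Y = C1`, `Z = Z1`): `H(A1+B2, C1, Z1) ≤ H(A1+B2, Z1) + H(C1, Z1) - H(Z1)`.
(2) `submod` (`X = A1`, `Y = B1`, `Z = (A1+B2, Z1)`): `H(A1+B2, Z1) ≤ H(A1, A1+B2, Z1) + H(B1, A1+B2, Z1) - H(A1, B1, A1+B2, Z1)`.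
(3) `H(A1, B1, A1+B2, Z1) ≥ H((A1,B1), (A2,B2), Zc)` (`H_le_of_supp`) `= 2 H(A,B,Z) - H(A+B,Z)` (`H_cprd` with `X = Y = (A,B)`; `H_congr`).
(4) `H(A1, A1+B2, Z1) ≤ H(A1, B2, Z1)` and `H(B1, A1+B2, Z1) ≤ H(B1, A2, Z1)` (`H_le_of_supp`), each `≤ H(A,Z) + H(B,Z) - H(Z)` (`submod`,
`law_cprd_fst`, `law_cprd_snd`; `Z x.1 = Z x.2` on the support: `H_le_of_supp` or `law_congr`).
-/

set_option autoImplicit false

open Finset

namespace Pool.Agent.Lib.MP_0430e4_lc.PFR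

section

variable {G : Type} [AddCommGroup G] [Fintype G]

theorem ebsg (h2 : ∀ x : G, x + x = 0) {Ω T : Type} [Fintype Ω] [Fintype T] {w : Ω → ℝ}
    (hw : IsLaw w) (A B : Ω → G) (Z : Ω → T) :
    H (cprd w (fun ω => (A ω + B ω, Z ω))) (fun x => (A x.1 + B x.2, (A x.1 + B x.1, Z x.1))) ≤
      2 * H w (fun ω => (A ω, Z ω)) + 2 * H w (fun ω => (B ω, Z ω))
        + 2 * H w (fun ω => (A ω + B ω, Z ω))
        - 2 * H w (fun ω => (A ω, B ω, Z ω)) - 3 * H w Z := by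
  have hu : IsLaw (cprd w (fun ω => (A ω + B ω, Z ω))) := cprd_isLaw hw _
  have hsup : ∀ x : Ω × Ω, cprd w (fun ω => (A ω + B ω, Z ω)) x ≠ 0 →
      A x.1 + B x.1 = A x.2 + B x.2 ∧ Z x.1 = Z x.2 := by
    intro x hx
    have h := cprd_supp hx
    exact ⟨(Prod.mk.inj h).1, (Prod.mk.inj h).2⟩
  have hneg : ∀ x : G, -x = x := fun x => neg_eq_of_add_eq_zero_left (h2 x)
  have hcross : ∀ x : Ω × Ω, cprd w (fun ω => (A ω + B ω, Z ω)) x ≠ 0 →
      A x.1 + B x.2 = B x.1 + A x.2 := by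
    intro x hx
    have h := (hsup x hx).1
    have h1 : A x.1 = A x.2 + B x.2 - B x.1 := eq_sub_of_add_eq h
    have h3 := h2 (B x.2)
    rw [h1, sub_eq_add_neg, hneg]
    calc A x.2 + B x.2 + B x.1 + B x.2 = B x.1 + A x.2 + (B x.2 + B x.2) := by abel
      _ = B x.1 + A x.2 := by rw [h3, add_zero]
  -- laws of functions of one copy
  have hZ1 : H (cprd w (fun ω => (A ω + B ω, Z ω))) (fun x => Z x.1) = H w Z := by
    unfold H; rw [law_cprd_fst hw _ Z]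
  have hC1 : H (cprd w (fun ω => (A ω + B ω, Z ω))) (fun x => (A x.1 + B x.1, Z x.1)) =
      H w (fun ω => (A ω + B ω, Z ω)) := by
    unfold H; rw [law_cprd_fst hw _ (fun ω => (A ω + B ω, Z ω))]
  have hA1 : H (cprd w (fun ω => (A ω + B ω, Z ω))) (fun x => (A x.1, Z x.1)) =
      H w (fun ω => (A ω, Z ω)) := by
    unfold H; rw [law_cprd_fst hw _ (fun ω => (A ω, Z ω))]
  have hB1 : H (cprd w (fun ω => (A ω + B ω, Z ω))) (fun x => (B x.1, Z x.1)) =
      H w (fun ω => (B ω, Z ω)) := by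
    unfold H; rw [law_cprd_fst hw _ (fun ω => (B ω, Z ω))]
  have hA2 : H (cprd w (fun ω => (A ω + B ω, Z ω))) (fun x => (A x.2, Z x.1)) ≤
      H w (fun ω => (A ω, Z ω)) := by
    have h : H (cprd w (fun ω => (A ω + B ω, Z ω))) (fun x => (A x.2, Z x.2)) =
        H w (fun ω => (A ω, Z ω)) := by
      unfold H; rw [law_cprd_snd hw _ (fun ω => (A ω, Z ω))]
    rw [← h]
    refine H_le_of_supp hu _ _ fun x y hx hy hxy => ?_
    have h3 := Prod.mk.inj hxy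
    show (A x.2, Z x.1) = (A y.2, Z y.1)
    rw [h3.1, (hsup x hx).2, (hsup y hy).2, h3.2]
  have hB2 : H (cprd w (fun ω => (A ω + B ω, Z ω))) (fun x => (B x.2, Z x.1)) ≤
      H w (fun ω => (B ω, Z ω)) := by
    have h : H (cprd w (fun ω => (A ω + B ω, Z ω))) (fun x => (B x.2, Z x.2)) =
        H w (fun ω => (B ω, Z ω)) := by
      unfold H; rw [law_cprd_snd hw _ (fun ω => (B ω, Z ω))]
    rw [← h]
    refine H_le_of_supp hu _ _ fun x y hx hy hxy => ?_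
    have h3 := Prod.mk.inj hxy
    show (B x.2, Z x.1) = (B y.2, Z y.1)
    rw [h3.1, (hsup x hx).2, (hsup y hy).2, h3.2]
  -- (1)
  have s1 := submod hu (fun x : Ω × Ω => A x.1 + B x.2) (fun x => A x.1 + B x.1) (fun x => Z x.1)
  -- (2)
  have s2 := submod hu (fun x : Ω × Ω => A x.1) (fun x => B x.1)
    (fun x => (A x.1 + B x.2, Z x.1))
  -- (3)
  have s3 : H (cprd w (fun ω => (A ω + B ω, Z ω)))
        (fun x => ((A x.1, B x.1), (A x.2, B x.2), (A x.1 + B x.1, Z x.1))) ≤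
      H (cprd w (fun ω => (A ω + B ω, Z ω)))
        (fun x => (A x.1, B x.1, (A x.1 + B x.2, Z x.1))) := by
    refine H_le_of_supp hu _ _ fun x y hx hy hxy => ?_
    have e1 := Prod.mk.inj hxy
    have e2 := Prod.mk.inj e1.2
    have e3 := Prod.mk.inj e2.2
    have hA : A x.1 = A y.1 := e1.1
    have hB : B x.1 = B y.1 := e2.1
    have hB' : B x.2 = B y.2 := by
      have := e3.1
      rw [hA] at this
      exact add_left_cancel this
    have hA' : A x.2 = A y.2 := by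
      have h3 := (hsup x hx).1
      have h4 := (hsup y hy).1
      rw [hA, hB, hB', h4] at h3
      exact (add_right_cancel h3).symm
    show ((A x.1, B x.1), (A x.2, B x.2), (A x.1 + B x.1, Z x.1)) =
      ((A y.1, B y.1), (A y.2, B y.2), (A y.1 + B y.1, Z y.1))
    rw [hA, hB, hA', hB', e3.2]
  have s3' := H_cprd hw (fun ω => (A ω, B ω)) (fun ω => (A ω, B ω)) (fun ω => (A ω + B ω, Z ω))
  have s3c : H w (fun ω => ((A ω, B ω), (A ω + B ω, Z ω))) = H w (fun ω => (A ω, B ω, Z ω)) := by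
    refine H_congr hw _ _ fun x y => ⟨fun h => ?_, fun h => ?_⟩
    · have e1 := Prod.mk.inj h
      have e2 := Prod.mk.inj e1.2
      rw [e1.1, e2.1, e2.2]
    · have e1 := Prod.mk.inj h
      have e2 := Prod.mk.inj e1.1
      have e3 := Prod.mk.inj e1.2
      rw [e2.1, e2.2, e3.2]
  -- (4)
  have s4 : H (cprd w (fun ω => (A ω + B ω, Z ω))) (fun x => (A x.1, (A x.1 + B x.2, Z x.1))) ≤
      H (cprd w (fun ω => (A ω + B ω, Z ω))) (fun x => (A x.1, B x.2, Z x.1)) := by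
    refine H_le_of_factor hu _ _ fun x y hxy => ?_
    have e1 := Prod.mk.inj hxy
    have e2 := Prod.mk.inj e1.2
    rw [e1.1, e2.1, e2.2]
  have s4' := submod hu (fun x : Ω × Ω => A x.1) (fun x => B x.2) (fun x => Z x.1)
  -- (5)
  have s5 : H (cprd w (fun ω => (A ω + B ω, Z ω))) (fun x => (B x.1, (A x.1 + B x.2, Z x.1))) ≤
      H (cprd w (fun ω => (A ω + B ω, Z ω))) (fun x => (B x.1, A x.2, Z x.1)) := by
    refine H_le_of_supp hu _ _ fun x y hx hy hxy => ?_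
    have e1 := Prod.mk.inj hxy
    have e2 := Prod.mk.inj e1.2
    show (B x.1, (A x.1 + B x.2, Z x.1)) = (B y.1, (A y.1 + B y.2, Z y.1))
    rw [hcross x hx, hcross y hy, e1.1, e2.1, e2.2]
  have s5' := submod hu (fun x : Ω × Ω => B x.1) (fun x => A x.2) (fun x => Z x.1)
  linarith

end

end Pool.Agent.Lib.MP_0430e4_lc.PFR
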