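import Pool.Agent.Lib.MP_0430e4_lc.PFR.Law
import Pool.Agent.Lib.MP_0430e4_lc.PFR.Prd
import Pool.Agent.Lib.MP_0430e4_lc.PFR.Cnv
import Pool.Agent.Lib.MP_0430e4_lc.PFR.Cnd
import Pool.Agent.Lib.MP_0430e4_lc.PFR.Cpr
import Pool.Agent.Lib.MP_0430e4_lc.PFR.Rz4
import Pool.Agent.Lib.MP_0430e4_lc.PFR.Avg

/-!
# PFR.MDg: minimality, conditioning on the same variable (M4)

PROOF. `I = T`, `v = law w Z`, `P z = law (cnd w Z z) A`, `Q z = law (cnd w Z z) B`. `H_chain` for `cprd w Z`, `X = A x.1 + B x.2`, `Z = Z x.1`: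
the law of `Z x.1` is `law w Z` (`law_cprd_fst`), `cnd_cprd`, `H_prd_add`: `∑ v * ent (conv (P z) (Q z)) = H(cprd)(A+B, Z) - H w Z`.
`∑ v * ent (P z) = H(A,Z) - H Z` etc. (`H_chain`), `dst_cnd_le` twice, `lmin_average`, arithmetic.
-/

set_option autoImplicit false

open Finset

namespace Pool.Agent.Lib.MP_0430e4_lc.PFR

section

variable {G : Type} [AddCommGroup G] [Fintype G]

theorem lmin_diag {Ω T : Type} [Fintype Ω] [Fintype T]
    {η : ℝ} (hη : 0 ≤ η) {p q : G → ℝ} (hp : IsLaw p) (hq : IsLaw q) (hm : LMin η p q)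
    {w : Ω → ℝ} (hw : IsLaw w) (A B : Ω → G) (Z : Ω → T) :
    dst p q ≤ H (cprd w Z) (fun x => (A x.1 + B x.2, Z x.1))
        - (H w (fun ω => (A ω, Z ω)) + H w (fun ω => (B ω, Z ω))) / 2
      + η * (dst p (law w A) + (H w A + H w Z - H w (fun ω => (A ω, Z ω))) / 2
        + dst q (law w B) + (H w B + H w Z - H w (fun ω => (B ω, Z ω))) / 2) := by
  have hv : IsLaw (law w Z) := law_isLaw hw Z
  have h0 := lmin_average hm hv (fun z => law (cnd w Z z) A) (fun z => law (cnd w Z z) B)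
    (fun z hz => law_isLaw (cnd_isLaw hw hz) A) (fun z hz => law_isLaw (cnd_isLaw hw hz) B)
  have hA := H_chain hw A Z
  have hB := H_chain hw B Z
  have hC := H_chain (cprd_isLaw hw Z) (fun x : Ω × Ω => A x.1 + B x.2) (fun x => Z x.1)
  have hZ : law (cprd w Z) (fun x => Z x.1) = law w Z := law_cprd_fst hw Z Z
  have hZ' : H (cprd w Z) (fun x => Z x.1) = H w Z := by
    unfold H
    rw [hZ]
  rw [hZ', hZ] at hC
  have hC' : ∀ z, H (cnd (cprd w Z) (fun x => Z x.1) z) (fun x : Ω × Ω => A x.1 + B x.2) =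
      ent (conv (law (cnd w Z z) A) (law (cnd w Z z) B)) := by
    intro z
    rw [cnd_cprd, H_prd_add]
  simp only [hC'] at hC
  have hdA := dst_cnd_le hp hw A Z
  have hdB := dst_cnd_le hq hw B Z
  have hs : ∑ z, law w Z z * dst (law (cnd w Z z) A) (law (cnd w Z z) B) =
      ∑ z, law w Z z * ent (conv (law (cnd w Z z) A) (law (cnd w Z z) B))
        - (∑ z, law w Z z * H (cnd w Z z) A + ∑ z, law w Z z * H (cnd w Z z) B) / 2 := by
    rw [← sum_add_distrib, sum_div, ← sum_sub_distrib]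
    refine sum_congr rfl fun z _ => ?_
    unfold dst H
    ring
  have hη' := mul_le_mul_of_nonneg_left (add_le_add hdA hdB) hη
  rw [hs] at h0
  refine h0.trans ?_
  refine (add_le_add (le_refl _) hη').trans ?_
  refine le_of_eq ?_
  rw [hC, hA, hB]
  ring


end

end Pool.Agent.Lib.MP_0430e4_lc.PFR
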