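import Pool.Agent.Lib.MP_0430e4_lc.PFR.Num
import Pool.Agent.Lib.MP_0430e4_lc.PFR.MDg
import Pool.Agent.Lib.MP_0430e4_lc.PFR.Ebsg
import Pool.Agent.Lib.MP_0430e4_lc.PFR.Rz3

/-!
# PFR.T5: endgame (T5)

PROOF. `w = Q4 p q`, `A = X1 + X2`, `B = X3 + X2`, `Z = S = X1 + X2 + X3 + X4`, `Zc = (A + B, Z)`; `A + B = X1 + X3` by `h2`. `lmin_diag` (with `Zc`) and `ebsg`:
`k ≤ 2 H(A,Z) + 2 H(B,Z) + 2 H(A+B,Z) - 2 H(A,B,Z) - 3 H Z - (H(A,Zc) + H(B,Zc)) / 2 + η (..)`.
`H(A,B,Z) = H(A,Zc) = H(B,Zc) = numT` (`H_congr`), `H Z = numS` (`law_prd_add`), `H(A,Z) ≤ H(X1+X2) + H(X3+X4) = 2 c` (`H_congr` or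
`H_le_of_factor` to `(X1+X2, X3+X4)`, `subadd`), `H(B,Z) ≤ H(X3+X2) + H(X1+X4) = 2 c`, `H(A+B,Z) ≤ H(X1+X3) + H(X2+X4) = e + f`.
(`H(X3+X2)`: `law_prd_add` gives `conv` of the law of `x.1.2` and `x.2.1`; `conv_comm`.)
Bracket after `η`: `dst p (conv p q) + dst q (conv p q) ≤ 3 k`, and each information is `≤ c + (e + f) - numT ≤ 8 k`
(`numT ≥ 3/2 (a + b)`, `e ≤ a + 2k`, `f ≤ b + 2k`: even `5 k`).
-/

set_option autoImplicit false

open Finset

namespace Pool.Agent.Lib.MP_0430e4_lc.PFR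

section

variable {G : Type} [AddCommGroup G] [Fintype G]

theorem T5 (h2 : ∀ x : G, x + x = 0) {η : ℝ} (hη : 0 ≤ η) {p q : G → ℝ} (hp : IsLaw p)
    (hq : IsLaw q) (hm : LMin η p q) :
    dst p q ≤ 8 * ent (conv p q) + 2 * ent (conv p p) + 2 * ent (conv q q) - 3 * numT p q
      - 3 * numS p q + 11 * η * dst p q := by
  have hpq : IsLaw (prd p q) := prd_isLaw hp hq
  have hw : IsLaw (Q4 p q) := prd_isLaw hpq hpq
  -- arithmetic in characteristic two
  have c1 : ∀ a b c : G, (a + b) + (c + b) = a + c := by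
    intro a b c
    calc (a + b) + (c + b) = a + c + (b + b) := by abel
      _ = a + c := by rw [h2, add_zero]
  -- laws of the two basic variables
  have hsnd : law (prd p q) (fun a : G × G => a.2) = q := by
    have := law_snd hp q (fun y : G => y)
    rw [this, law_id]
  have hfst : law (prd p q) (fun a : G × G => a.1) = p := by
    have := law_fst p hq (fun y : G => y)
    rw [this, law_id]
  have lA : law (Q4 p q) (fun x => x.1.1 + x.1.2) = conv p q :=
    law_fst (prd p q) hpq (fun a : G × G => a.1 + a.2)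
  have lA' : law (Q4 p q) (fun x => x.2.1 + x.2.2) = conv p q :=
    law_snd hpq (prd p q) (fun a : G × G => a.1 + a.2)
  have lB : law (Q4 p q) (fun x => x.2.1 + x.1.2) = conv p q := by
    have h := law_prd_add (prd p q) (prd p q) (fun a : G × G => a.2) (fun a : G × G => a.1)
    rw [hsnd, hfst, conv_comm] at h
    rw [← h]
    unfold Q4
    refine law_congr fun x _ => ?_
    show x.2.1 + x.1.2 = x.1.2 + x.2.1
    exact add_comm _ _
  have lB' : law (Q4 p q) (fun x => x.1.1 + x.2.2) = conv p q := by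
    have h := law_prd_add (prd p q) (prd p q) (fun a : G × G => a.1) (fun a : G × G => a.2)
    rw [hsnd, hfst] at h
    rw [← h]
    rfl
  have lC : law (Q4 p q) (fun x => x.1.1 + x.2.1) = conv p p := by
    have h := law_prd_add (prd p q) (prd p q) (fun a : G × G => a.1) (fun a : G × G => a.1)
    rw [hfst] at h
    rw [← h]
    rfl
  have lC' : law (Q4 p q) (fun x => x.1.2 + x.2.2) = conv q q := by
    have h := law_prd_add (prd p q) (prd p q) (fun a : G × G => a.2) (fun a : G × G => a.2)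
    rw [hsnd] at h
    rw [← h]
    rfl
  have lS : law (Q4 p q) (fun x => x.1.1 + x.1.2 + x.2.1 + x.2.2) = conv (conv p q) (conv p q) := by
    have h := law_prd_add (prd p q) (prd p q) (fun a : G × G => a.1 + a.2)
      (fun a : G × G => a.1 + a.2)
    have h' : law (prd (prd p q) (prd p q)) (fun x => x.1.1 + x.1.2 + (x.2.1 + x.2.2)) =
      conv (conv p q) (conv p q) := h
    rw [← h']
    unfold Q4
    refine law_congr fun x _ => ?_
    exact add_assoc _ _ _
  -- the two main inequalities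
  have m1 := lmin_diag hη hp hq hm hw (fun x => x.1.1 + x.1.2) (fun x => x.2.1 + x.1.2)
    (fun x => ((x.1.1 + x.1.2) + (x.2.1 + x.1.2), x.1.1 + x.1.2 + x.2.1 + x.2.2))
  have m2 := ebsg h2 hw (fun x => x.1.1 + x.1.2) (fun x => x.2.1 + x.1.2)
    (fun x => x.1.1 + x.1.2 + x.2.1 + x.2.2)
  -- entropies
  have eA : H (Q4 p q) (fun x => x.1.1 + x.1.2) = ent (conv p q) := by unfold H; rw [lA]
  have eB : H (Q4 p q) (fun x => x.2.1 + x.1.2) = ent (conv p q) := by unfold H; rw [lB]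
  have eZ : H (Q4 p q) (fun x => x.1.1 + x.1.2 + x.2.1 + x.2.2) = numS p q := by
    unfold H; rw [lS]; rfl
  have eABZ : H (Q4 p q) (fun x => (x.1.1 + x.1.2, x.2.1 + x.1.2,
      x.1.1 + x.1.2 + x.2.1 + x.2.2)) = numT p q := by
    unfold numT
    refine H_congr hw _ _ fun x y => ⟨fun h => ?_, fun h => ?_⟩
    · have e1 := Prod.mk.inj h
      have e2 := Prod.mk.inj e1.2
      have e3 : x.2.1 + x.1.2 = y.2.1 + y.1.2 := by
        have t1 : ∀ z : (G × G) × (G × G), z.2.1 + z.1.2 = (z.1.1 + z.1.2) + (z.1.1 + z.2.1) := by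
          intro z
          have := c1 z.1.2 z.1.1 z.2.1
          rw [add_comm z.1.2 z.1.1, add_comm z.2.1 z.1.1, add_comm z.1.2 z.2.1] at this
          exact this.symm
        rw [t1 x, t1 y, e1.1, e2.1]
      exact Prod.ext e1.1 (Prod.ext e3 e2.2)
    · have e1 := Prod.mk.inj h
      have e2 := Prod.mk.inj e1.2
      have e3 : x.1.1 + x.2.1 = y.1.1 + y.2.1 := by
        rw [← c1 x.1.1 x.1.2 x.2.1, ← c1 y.1.1 y.1.2 y.2.1, e1.1, e2.1]
      exact Prod.ext e1.1 (Prod.ext e3 e2.2)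
  have eAZc : H (Q4 p q) (fun x => (x.1.1 + x.1.2,
      ((x.1.1 + x.1.2) + (x.2.1 + x.1.2), x.1.1 + x.1.2 + x.2.1 + x.2.2))) = numT p q := by
    rw [← eABZ]
    refine H_congr hw _ _ fun x y => ⟨fun h => ?_, fun h => ?_⟩
    · have e1 := Prod.mk.inj h
      have e2 := Prod.mk.inj e1.2
      refine Prod.ext e1.1 (Prod.ext ?_ e2.2)
      show x.1.1 + x.1.2 + (x.2.1 + x.1.2) = y.1.1 + y.1.2 + (y.2.1 + y.1.2)
      rw [e1.1, e2.1]
    · have e1 := Prod.mk.inj h
      have e2 := Prod.mk.inj e1.2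
      have e3 : x.2.1 + x.1.2 = y.2.1 + y.1.2 := by
        have := e2.1
        rw [e1.1] at this
        exact add_left_cancel this
      exact Prod.ext e1.1 (Prod.ext e3 e2.2)
  have eBZc : H (Q4 p q) (fun x => (x.2.1 + x.1.2,
      ((x.1.1 + x.1.2) + (x.2.1 + x.1.2), x.1.1 + x.1.2 + x.2.1 + x.2.2))) = numT p q := by
    rw [← eABZ]
    refine H_congr hw _ _ fun x y => ⟨fun h => ?_, fun h => ?_⟩
    · have e1 := Prod.mk.inj h
      have e2 := Prod.mk.inj e1.2
      refine Prod.ext e2.1 (Prod.ext ?_ e2.2)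
      show x.1.1 + x.1.2 + (x.2.1 + x.1.2) = y.1.1 + y.1.2 + (y.2.1 + y.1.2)
      rw [e1.1, e2.1]
    · have e1 := Prod.mk.inj h
      have e2 := Prod.mk.inj e1.2
      have e3 : x.1.1 + x.1.2 = y.1.1 + y.1.2 := by
        have := e2.1
        rw [e1.1] at this
        exact add_right_cancel this
      exact Prod.ext e3 (Prod.ext e1.1 e2.2)
  -- upper bounds
  have uAZ : H (Q4 p q) (fun x => (x.1.1 + x.1.2, x.1.1 + x.1.2 + x.2.1 + x.2.2)) ≤
      ent (conv p q) + ent (conv p q) := by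
    have h1 : H (Q4 p q) (fun x => (x.1.1 + x.1.2, x.1.1 + x.1.2 + x.2.1 + x.2.2)) ≤
        H (Q4 p q) (fun x => (x.1.1 + x.1.2, x.2.1 + x.2.2)) := by
      refine H_le_of_factor hw _ _ fun x y h => ?_
      have e1 := Prod.mk.inj h
      refine Prod.ext e1.1 ?_
      show x.1.1 + x.1.2 + x.2.1 + x.2.2 = y.1.1 + y.1.2 + y.2.1 + y.2.2
      rw [add_assoc (x.1.1 + x.1.2), add_assoc (y.1.1 + y.1.2), e1.1, e1.2]
    have h3 := subadd hw (fun x => x.1.1 + x.1.2) (fun x => x.2.1 + x.2.2)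
    have h4 : H (Q4 p q) (fun x => x.2.1 + x.2.2) = ent (conv p q) := by unfold H; rw [lA']
    linarith
  have uBZ : H (Q4 p q) (fun x => (x.2.1 + x.1.2, x.1.1 + x.1.2 + x.2.1 + x.2.2)) ≤
      ent (conv p q) + ent (conv p q) := by
    have h1 : H (Q4 p q) (fun x => (x.2.1 + x.1.2, x.1.1 + x.1.2 + x.2.1 + x.2.2)) ≤
        H (Q4 p q) (fun x => (x.2.1 + x.1.2, x.1.1 + x.2.2)) := by
      refine H_le_of_factor hw _ _ fun x y h => ?_
      have e1 := Prod.mk.inj h
      have t : ∀ z : (G × G) × (G × G), z.1.1 + z.1.2 + z.2.1 + z.2.2 =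
          (z.2.1 + z.1.2) + (z.1.1 + z.2.2) := by
        intro z; abel
      refine Prod.ext e1.1 ?_
      show x.1.1 + x.1.2 + x.2.1 + x.2.2 = y.1.1 + y.1.2 + y.2.1 + y.2.2
      rw [t x, t y, e1.1, e1.2]
    have h3 := subadd hw (fun x => x.2.1 + x.1.2) (fun x => x.1.1 + x.2.2)
    have h4 : H (Q4 p q) (fun x => x.1.1 + x.2.2) = ent (conv p q) := by unfold H; rw [lB']
    linarith
  have uCZ : H (Q4 p q) (fun x => ((x.1.1 + x.1.2) + (x.2.1 + x.1.2),
      x.1.1 + x.1.2 + x.2.1 + x.2.2)) ≤ ent (conv p p) + ent (conv q q) := by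
    have h1 : H (Q4 p q) (fun x => ((x.1.1 + x.1.2) + (x.2.1 + x.1.2),
          x.1.1 + x.1.2 + x.2.1 + x.2.2)) ≤
        H (Q4 p q) (fun x => (x.1.1 + x.2.1, x.1.2 + x.2.2)) := by
      refine H_le_of_factor hw _ _ fun x y h => ?_
      have e1 := Prod.mk.inj h
      have t : ∀ z : (G × G) × (G × G), z.1.1 + z.1.2 + z.2.1 + z.2.2 =
          (z.1.1 + z.2.1) + (z.1.2 + z.2.2) := by
        intro z; abel
      refine Prod.ext ?_ ?_
      · show x.1.1 + x.1.2 + (x.2.1 + x.1.2) = y.1.1 + y.1.2 + (y.2.1 + y.1.2)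
        rw [c1, c1, e1.1]
      · show x.1.1 + x.1.2 + x.2.1 + x.2.2 = y.1.1 + y.1.2 + y.2.1 + y.2.2
        rw [t x, t y, e1.1, e1.2]
    have h3 := subadd hw (fun x => x.1.1 + x.2.1) (fun x => x.1.2 + x.2.2)
    have h4 : H (Q4 p q) (fun x => x.1.1 + x.2.1) = ent (conv p p) := by unfold H; rw [lC]
    have h5 : H (Q4 p q) (fun x => x.1.2 + x.2.2) = ent (conv q q) := by unfold H; rw [lC']
    linarith
  -- the bracket after eta
  have d1 := dst_conv_le hp hq
  have d2 := dst_self_le h2 hp hq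
  have d3 := dst_self_le h2 hq hp
  rw [dst_comm q p] at d3
  have n1 := numT_ge_left hp hq
  have n2 := numT_ge_right hp hq
  have k0 : dst p q = ent (conv p q) - (ent p + ent q) / 2 := rfl
  have kp : dst p p = ent (conv p p) - (ent p + ent p) / 2 := rfl
  have kq : dst q q = ent (conv q q) - (ent q + ent q) / 2 := rfl
  have k1 := dst_nonneg hp hq
  rw [lA, lB, eA, eB, eAZc, eBZc] at m1
  rw [eABZ, eZ] at m2
  have hbr : η * (dst p (conv p q) + (ent (conv p q) +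
        H (Q4 p q) (fun x => ((x.1.1 + x.1.2) + (x.2.1 + x.1.2),
          x.1.1 + x.1.2 + x.2.1 + x.2.2)) - numT p q) / 2
      + dst q (conv p q) + (ent (conv p q) +
        H (Q4 p q) (fun x => ((x.1.1 + x.1.2) + (x.2.1 + x.1.2),
          x.1.1 + x.1.2 + x.2.1 + x.2.2)) - numT p q) / 2) ≤ η * (11 * dst p q) := by
    refine mul_le_mul_of_nonneg_left ?_ hη
    linarith
  linarith

end

end Pool.Agent.Lib.MP_0430e4_lc.PFR
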