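import Pool.Agent.Lib.MP_0430e4_lc.PFR.T13
import Pool.Agent.Lib.MP_0430e4_lc.PFR.T2
import Pool.Agent.Lib.MP_0430e4_lc.PFR.T4
import Pool.Agent.Lib.MP_0430e4_lc.PFR.T5
import Pool.Agent.Lib.MP_0430e4_lc.PFR.Rz1

/-!
# PFR.T6: distance zero (T6)

PROOF. `linarith`/`nlinarith` from `T1 + T2`: `0 ≤ s + t - 4 c + 9 η k`, `T3 + T4`: `0 ≤ s + t - e - f - 2 c + 12 η k`, `T5`; with
`k = c - (a + b) / 2`. So `k ≤ 44 η k`, and `k ≥ 0`.
-/

set_option autoImplicit false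

open Finset

namespace Pool.Agent.Lib.MP_0430e4_lc.PFR

section

variable {G : Type} [AddCommGroup G] [Fintype G]

theorem T6 (h2 : ∀ x : G, x + x = 0) {η : ℝ} (hη : 0 ≤ η) (hη' : 44 * η < 1) {p q : G → ℝ}
    (hp : IsLaw p) (hq : IsLaw q) (hm : LMin η p q) : dst p q = 0 := by
  have t1 := T1 hη hp hq hm
  have t2 := T2 h2 hη hp hq hm
  have t3 := T3 h2 hη hp hq hm
  have t4 := T4 h2 hη hp hq hm
  have t5 := T5 h2 hη hp hq hm
  have k0 : dst p q = ent (conv p q) - (ent p + ent q) / 2 := rfl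
  have k1 := dst_nonneg hp hq
  have h : dst p q ≤ 44 * η * dst p q := by linarith
  nlinarith

end

end Pool.Agent.Lib.MP_0430e4_lc.PFR
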