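import Pool.Agent.Lib.MP_0430e4_lc.PFR.Z1
import Pool.Agent.Lib.MP_0430e4_lc.PFR.Rz1

/-!
# PFR.Z2: distance zero means cosets (Z2)

PROOF. `ent p = ent q = ent (conv p q)` (`ent_le_conv_left`, `ent_le_conv_right`). `V = {h | ∀ x, p (x + h) = p x}`, `W = {h | ∀ x, q (x + h) = q x}`.
By `Z1` (twice, `conv_comm`): `y - y' ∈ V` for `y, y'` in the support of `q`, `x - x' ∈ W` for `x, x'` in the support of `p`. Take `x₀`, `y₀` in the
supports. `h ∈ V`: `p (x₀ + h) = p x₀ ≠ 0`, so `h ∈ W`; conversely too: `V = W`. If `p x ≠ 0` then `x - x₀ ∈ W = V`; if `x - x₀ ∈ V` then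
`p x = p x₀`. Sum `1` gives `p x₀ = 1 / card V`. Same for `q`.
-/

set_option autoImplicit false

open Finset

namespace Pool.Agent.Lib.MP_0430e4_lc.PFR

section

variable {G : Type} [AddCommGroup G] [Fintype G]

private lemma Z2_exists_ne {p : G → ℝ} (hp : IsLaw p) : ∃ x, p x ≠ 0 := by
  by_contra h
  push Not at h
  have := hp.sum_one
  simp [h] at this

/-- the stabilizer of a function -/
private def Z2_stab (p : G → ℝ) : AddSubgroup G where
  carrier := {g | ∀ x, p (x + g) = p x}
  add_mem' := by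
    intro a b ha hb x
    rw [← add_assoc, hb, ha]
  zero_mem' := by intro x; simp
  neg_mem' := by
    intro a ha x
    have := ha (x + -a)
    rw [← this]; congr 1; abel

private lemma Z2_shift {p q : G → ℝ} (hp : IsLaw p) (hq : IsLaw q)
    (h : ent (conv p q) ≤ ent p) (y y' : G) (hy : q y ≠ 0) (hy' : q y' ≠ 0) (z : G) :
    p (z + (y - y')) = p z := by
  have a := Z1 hp hq h y y' hy hy' (z + y)
  have e1 : z + y - y = z := by abel
  have e2 : z + y - y' = z + (y - y') := by abel
  rw [e1, e2] at a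
  exact a.symm

open Classical in
private lemma Z2_uniform {p : G → ℝ} (hp : IsLaw p) (V : AddSubgroup G) (x0 : G)
    (h1 : ∀ x, p x ≠ 0 → x - x0 ∈ V) (h2 : V ≤ Z2_stab p) :
    ∀ x, p x = if x - x0 ∈ V then 1 / (Nat.card V : ℝ) else 0 := by
  have h3 : ∀ x, x - x0 ∈ V → p x = p x0 := by
    intro x hx
    have := h2 hx x0
    rw [← this]; congr 1; abel
  have h4 : ∀ x, p x = if x - x0 ∈ V then p x0 else 0 := by
    intro x
    by_cases hx : x - x0 ∈ V
    · rw [if_pos hx, h3 x hx]
    · rw [if_neg hx]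
      by_contra hne
      exact hx (h1 x hne)
  have h5 : ∑ x, p x = (Nat.card V : ℝ) * p x0 := by
    rw [Finset.sum_congr rfl (fun x _ => h4 x)]
    rw [← Finset.sum_filter, Finset.sum_const, nsmul_eq_mul]
    congr 1
    norm_cast
    rw [Nat.card_eq_fintype_card, Fintype.card_subtype]
    refine Finset.card_bij (fun x _ => x - x0) (fun x hx => ?_) (fun x _ y _ hxy => ?_)
      (fun y hy => ?_)
    · simpa using hx
    · simpa using hxy
    · refine ⟨y + x0, ?_, by abel⟩
      simpa using hy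
  have hc : (Nat.card V : ℝ) ≠ 0 := by
    have : 0 < Nat.card V := Nat.card_pos
    positivity
  have h6 : p x0 = 1 / (Nat.card V : ℝ) := by
    rw [hp.sum_one] at h5
    field_simp
    linarith
  intro x
  rw [h4 x, h6]

open Classical in
theorem Z2 {p q : G → ℝ} (hp : IsLaw p) (hq : IsLaw q) (h : dst p q = 0) :
    ∃ (V : AddSubgroup G) (a b : G),
      (∀ x, p x = if x - a ∈ V then 1 / (Nat.card V : ℝ) else 0) ∧
      (∀ x, q x = if x - b ∈ V then 1 / (Nat.card V : ℝ) else 0) := by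
  have hl := ent_le_conv_left hp hq
  have hr := ent_le_conv_right hp hq
  unfold dst at h
  have e1 : ent (conv p q) ≤ ent p := by linarith
  have e2 : ent (conv q p) ≤ ent q := by rw [conv_comm q p]; linarith
  obtain ⟨x0, hx0⟩ := Z2_exists_ne hp
  obtain ⟨y0, hy0⟩ := Z2_exists_ne hq
  have A : ∀ y, q y ≠ 0 → y - y0 ∈ Z2_stab p := fun y hy z =>
    Z2_shift hp hq e1 y y0 hy hy0 z
  have B : ∀ x, p x ≠ 0 → x - x0 ∈ Z2_stab q := fun x hx z =>
    Z2_shift hq hp e2 x x0 hx hx0 z
  have C : Z2_stab p ≤ Z2_stab q := by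
    intro g hg
    have : p (x0 + g) ≠ 0 := by rw [hg x0]; exact hx0
    have := B _ this
    simpa using this
  have D : Z2_stab q ≤ Z2_stab p := by
    intro g hg
    have : q (y0 + g) ≠ 0 := by rw [hg y0]; exact hy0
    have := A _ this
    simpa using this
  refine ⟨Z2_stab p, x0, y0, ?_, ?_⟩
  · exact Z2_uniform hp _ x0 (fun x hx => D (B x hx)) le_rfl
  · exact Z2_uniform hq _ y0 (fun y hy => A y hy) C

end

end Pool.Agent.Lib.MP_0430e4_lc.PFR
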