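import Pool.Agent.Lib.MP_0430e4_lc.PFR.C1
import Pool.Agent.Lib.MP_0430e4_lc.PFR.C2
import Pool.Agent.Lib.MP_0430e4_lc.PFR.C3
import Pool.Agent.Lib.MP_0430e4_lc.PFR.Z2
import Pool.Agent.Lib.MP_0430e4_lc.PFR.T6
import Pool.Agent.Lib.MP_0430e4_lc.PFR.Mini
import Pool.Agent.Lib.MP_0430e4_lc.PFR.Rz1

/-!
# PFR.Pfr: **Marton conjecture over F_2**, polynomial dependence

PROOF. `η = 1/50`, `p₀ = q₀ = unf A`, `dst p₀ p₀ ≤ log K` (`K ≥ 1` because `card A ≤ card (A + A)`). `exists_lmin`, `T6`, `Z2`: `p = unf B`,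
`B = {x | x - a ∈ V}`, `dst p₀ p ≤ 54 log K =: D`. `C2`: some coset has `≥ exp(-D) sqrt(|A| |V|)` points of `A`. `ent_sub_le`:
`|A| exp(-2D) ≤ |V| ≤ |A| exp(2D)`. If `|V| ≤ |A|`: `≥ |A| exp(-2D)`. Otherwise `C3` with `m = |A|`, `C4`: `≥ exp(-D) sqrt(|A| |V|) |A| / (2 |V|) ≥
|A| exp(-2D) / 2`. `exp(-2D) = K ^ (-108)`.
-/

set_option autoImplicit false

open Finset

namespace Pool.Agent.Lib.MP_0430e4_lc.PFR

section

variable {G : Type} [AddCommGroup G] [Fintype G]

open Pointwise in
open Classical in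
theorem pfr (h2 : ∀ x : G, x + x = 0) {A : Finset G} (hA : A.Nonempty) {K : ℝ}
    (hK : ((A + A).card : ℝ) ≤ K * A.card) :
    ∃ (V : AddSubgroup G) (x : G), Nat.card V ≤ A.card ∧
      (A.card : ℝ) / (2 * K ^ 108) ≤ ((A.filter (fun a => x - a ∈ V)).card : ℝ) := by
  have hAc : 0 < (A.card : ℝ) := by exact_mod_cast hA.card_pos
  have hAAc : (A.card : ℝ) ≤ ((A + A).card : ℝ) := by
    exact_mod_cast Finset.card_le_card_add_right hA
  have hK1 : 1 ≤ K := by
    by_contra hk
    push Not at hk
    have : K * A.card < 1 * A.card := mul_lt_mul_of_pos_right hk hAc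
    linarith
  have hK0 : 0 < K := by linarith
  have hl := unf_isLaw hA
  have hd0 : dst (unf A) (unf A) ≤ Real.log K := by
    have h1 := dst_unf hA
    have h3 : Real.log ((A + A).card : ℝ) ≤ Real.log K + Real.log (A.card : ℝ) := by
      rw [← Real.log_mul hK0.ne' hAc.ne']
      exact Real.log_le_log (by linarith) hK
    linarith
  have hlK : 0 ≤ Real.log K := Real.log_nonneg hK1
  obtain ⟨p, q, hp, hq, hm, hle⟩ := exists_lmin h2 (η := 1 / 50) (by norm_num) hl hl
  have h0 := T6 h2 (η := 1 / 50) (by norm_num) (by norm_num) hp hq hm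
  obtain ⟨V, a, b, hpV, hqV⟩ := Z2 hp hq h0
  set D : ℝ := 54 * Real.log K with hD
  have hsum : dst (unf A) p + dst (unf A) q ≤ 2 * D := by
    rw [h0] at hle
    rw [hD]
    linarith
  -- a coset of `V` with uniform law close to `unf A`
  have hex : ∃ c : G, dst (unf A) (unf (Finset.univ.filter (fun x => x - c ∈ V))) ≤ D := by
    have hun : ∀ (r : G → ℝ) (c : G), (∀ x, r x = if x - c ∈ V then 1 / (Nat.card V : ℝ) else 0) →
        r = unf (Finset.univ.filter (fun x => x - c ∈ V)) := by
      intro r c hr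
      funext x
      rw [hr x]
      unfold unf
      have hcard : (Finset.univ.filter (fun x => x - c ∈ V)).card = Nat.card V := by
        rw [← Fintype.card_subtype, ← Nat.card_eq_fintype_card]
        exact Nat.card_congr
          { toFun := fun x => ⟨x.1 - c, x.2⟩
            invFun := fun v => ⟨v.1 + c, by simp⟩
            left_inv := fun x => by ext; simp
            right_inv := fun v => by ext; simp }
      rw [hcard]
      simp
    have hp' := hun p a hpV
    have hq' := hun q b hqV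
    rcases le_total (dst (unf A) p) (dst (unf A) q) with h | h
    · exact ⟨a, by rw [← hp']; linarith⟩
    · exact ⟨b, by rw [← hq']; linarith⟩
  obtain ⟨c, hc⟩ := hex
  set B : Finset G := Finset.univ.filter (fun x => x - c ∈ V) with hB
  have hBcard : B.card = Nat.card V := by
    rw [hB, ← Fintype.card_subtype, ← Nat.card_eq_fintype_card]
    exact Nat.card_congr
      { toFun := fun x => ⟨x.1 - c, x.2⟩
        invFun := fun v => ⟨v.1 + c, by simp⟩
        left_inv := fun x => by ext; simp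
        right_inv := fun v => by ext; simp }
  have hVc : 0 < (Nat.card V : ℝ) := by
    have : 0 < Nat.card V := Nat.card_pos
    positivity
  have hBn : B.Nonempty := ⟨c, by rw [hB, Finset.mem_filter]; simp [V.zero_mem]⟩
  have hlB := unf_isLaw hBn
  obtain ⟨x, hx⟩ := C2 hA hBn
  have hKD : K ^ 108 = Real.exp (2 * D) := by
    rw [hD, show 2 * (54 * Real.log K) = ((108 : ℕ) : ℝ) * Real.log K by push_cast; ring,
      Real.exp_nat_mul, Real.exp_log hK0]
  have hentA := ent_sub_le hl hlB
  have hentB := ent_sub_le hlB hl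
  rw [dst_comm (unf B) (unf A)] at hentB
  rw [ent_unf hA, ent_unf hBn, hBcard] at hentA hentB
  -- the number of points in the coset
  have hfil : (A.filter (fun a => x - a ∈ B)) = A.filter (fun a => (x - c) - a ∈ V) := by
    ext y
    simp only [Finset.mem_filter, hB, Finset.mem_univ, true_and]
    have : x - y - c = x - c - y := by abel
    rw [this]
  rw [hfil, hBcard] at hx
  set N : ℝ := ((A.filter (fun a => (x - c) - a ∈ V)).card : ℝ) with hN
  have hN0 : 0 ≤ N := Nat.cast_nonneg _
  have hN1 : Real.exp (-D + (Real.log (A.card : ℝ) + Real.log (Nat.card V : ℝ)) / 2) ≤ N := by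
    refine le_trans ?_ hx
    have hs : Real.sqrt ((A.card : ℝ) * Nat.card V) =
        Real.exp ((Real.log A.card + Real.log (Nat.card V : ℝ)) / 2) := by
      rw [← Real.log_mul hAc.ne' hVc.ne', Real.sqrt_eq_rpow,
        Real.rpow_def_of_pos (by positivity)]
      congr 1; ring
    rw [hs, ← Real.exp_add]
    apply Real.exp_le_exp.2
    linarith
  by_cases hcase : Nat.card V ≤ A.card
  · refine ⟨V, x - c, hcase, ?_⟩
    rw [hKD, div_le_iff₀ (by positivity)]
    have h1 : Real.exp (-(2 * D)) * A.card ≤ N := by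
      refine le_trans ?_ hN1
      conv_lhs => rw [← Real.exp_log hAc]
      rw [← Real.exp_add]
      apply Real.exp_le_exp.2
      linarith
    have h4 : (A.card : ℝ) = Real.exp (2 * D) * (Real.exp (-(2 * D)) * A.card) := by
      rw [← mul_assoc, ← Real.exp_add, show 2 * D + -(2 * D) = 0 by ring, Real.exp_zero, one_mul]
    have h5 : Real.exp (2 * D) * (Real.exp (-(2 * D)) * A.card) ≤ Real.exp (2 * D) * N :=
      mul_le_mul_of_nonneg_left h1 (Real.exp_pos _).le
    have h6 : 0 ≤ Real.exp (2 * D) * N := mul_nonneg (Real.exp_pos _).le hN0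
    linarith
  · push Not at hcase
    obtain ⟨W, hWV, hW1, hW2⟩ := C3 h2 V (m := A.card) hA.card_pos hcase.le
    obtain ⟨y, hy⟩ := C4 hWV A (x - c)
    refine ⟨W, y, hW1, ?_⟩
    rw [hKD, div_le_iff₀ (by positivity)]
    set M : ℝ := ((A.filter (fun a => y - a ∈ W)).card : ℝ) with hM
    have hW2' : (A.card : ℝ) / 2 ≤ Nat.card W := by
      have : (A.card : ℝ) < 2 * Nat.card W := by exact_mod_cast hW2
      linarith
    -- `exp (-2 D) |V| ≤ N`
    have h8 : Real.exp (-(2 * D)) * Nat.card V ≤ N := by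
      refine le_trans ?_ hN1
      conv_lhs => rw [← Real.exp_log hVc]
      rw [← Real.exp_add]
      apply Real.exp_le_exp.2
      linarith
    have h9 : Real.exp (-(2 * D)) * ((A.card : ℝ) / 2) ≤ M := by
      refine le_trans ?_ hy
      rw [le_div_iff₀ hVc]
      have h10 : Real.exp (-(2 * D)) * (Nat.card V : ℝ) * ((A.card : ℝ) / 2) ≤
          N * (Nat.card W : ℝ) :=
        mul_le_mul h8 hW2' (by positivity) hN0
      calc Real.exp (-(2 * D)) * ((A.card : ℝ) / 2) * (Nat.card V : ℝ)
          = Real.exp (-(2 * D)) * (Nat.card V : ℝ) * ((A.card : ℝ) / 2) := by ring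
        _ ≤ _ := h10
    have h5 := mul_le_mul_of_nonneg_left h9 (Real.exp_pos (2 * D)).le
    have h7 : Real.exp (2 * D) * Real.exp (-(2 * D)) = 1 := by
      rw [← Real.exp_add, show 2 * D + -(2 * D) = 0 by ring, Real.exp_zero]
    have h4 : Real.exp (2 * D) * (Real.exp (-(2 * D)) * ((A.card : ℝ) / 2)) =
        (A.card : ℝ) / 2 := by
      rw [← mul_assoc, h7, one_mul]
    rw [h4] at h5
    linarith

end

end Pool.Agent.Lib.MP_0430e4_lc.PFR
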