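import Pool.Agent.Lib.MP_0430e4_lc.PFR.Defs

set_option autoImplicit false

open Finset

namespace Pool.Agent.Lib.MP_0430e4_lc.PFR

section
variable {Ω Ω' S S' T U : Type} [Fintype Ω] [Fintype Ω'] [Fintype S] [Fintype S'] [Fintype T] [Fintype U]

theorem law_nonneg {S : Type} {w : Ω → ℝ} (hw : IsLaw w) (X : Ω → S) (s : S) : 0 ≤ law w X s := by
  classical
  unfold law
  exact sum_nonneg fun ω _ => by
    split_ifs
    · exact hw.nonneg ω
    · exact le_rfl

theorem sum_law_mul (w : Ω → ℝ) (X : Ω → S) (f : S → ℝ) : ∑ s, law w X s * f s = ∑ ω, w ω * f (X ω) := by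
  classical
  unfold law
  simp_rw [sum_mul]
  rw [sum_comm]
  refine sum_congr rfl fun ω _ => ?_
  rw [Finset.sum_eq_single (X ω)]
  · simp
  · intro b _ hb
    rw [if_neg (fun h => hb h.symm), zero_mul]
  · intro h
    exact absurd (mem_univ _) h

theorem law_isLaw {w : Ω → ℝ} (hw : IsLaw w) (X : Ω → S) : IsLaw (law w X) := by
  refine ⟨law_nonneg hw X, ?_⟩
  have h := sum_law_mul w X (fun _ => 1)
  simp only [mul_one] at h
  rw [h]
  exact hw.sum_one

theorem law_law (w : Ω → ℝ) (X : Ω → S) {U : Type} (f : S → U) : law (law w X) f = law w (fun ω => f (X ω)) := by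
  classical
  funext u
  have h := sum_law_mul w X (fun s => if f s = u then 1 else 0)
  unfold law at h ⊢
  simp only [mul_ite, mul_one, mul_zero] at h
  convert h using 1

theorem law_id (w : Ω → ℝ) : law w (fun ω => ω) = w := by
  classical
  funext s
  unfold law
  rw [Finset.sum_eq_single s]
  · simp
  · intro b _ hb
    rw [if_neg hb]
  · intro h
    exact absurd (mem_univ _) h

theorem le_law {S : Type} {w : Ω → ℝ} (hw : IsLaw w) (X : Ω → S) (ω : Ω) : w ω ≤ law w X (X ω) := by
  classical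
  unfold law
  have h : (if X ω = X ω then w ω else 0) ≤ ∑ ω', (if X ω' = X ω then w ω' else 0) :=
    Finset.single_le_sum (f := fun ω' => if X ω' = X ω then w ω' else 0) (fun ω' _ => by
      show (0 : ℝ) ≤ if X ω' = X ω then w ω' else 0
      split_ifs
      · exact hw.nonneg ω'
      · exact le_rfl) (mem_univ ω)
  rw [if_pos rfl] at h
  convert h using 1

theorem exists_of_law_ne {S : Type} {w : Ω → ℝ} {X : Ω → S} {s : S} (h : law w X s ≠ 0) : ∃ ω, X ω = s ∧ w ω ≠ 0 := by
  classical
  unfold law at h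
  obtain ⟨ω, _, hω⟩ := Finset.exists_ne_zero_of_sum_ne_zero h
  refine ⟨ω, ?_⟩
  by_cases h1 : X ω = s
  · rw [if_pos h1] at hω
    exact ⟨h1, hω⟩
  · rw [if_neg h1] at hω
    exact absurd rfl hω

end

end Pool.Agent.Lib.MP_0430e4_lc.PFR
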