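import Pool.Agent.Lib.MP_0430e4_lc.PFR.B1

set_option autoImplicit false

open Finset

namespace Pool.Agent.Lib.MP_0430e4_lc.PFR

section
variable {Ω Ω' S S' T U : Type} [Fintype Ω] [Fintype Ω'] [Fintype S] [Fintype S'] [Fintype T] [Fintype U]

/-- entropy as an expectation -/
theorem H_eq_sum (w : Ω → ℝ) (X : Ω → S) : H w X = ∑ ω, w ω * (-Real.log (law w X (X ω))) := by
  unfold H ent
  rw [← sum_law_mul w X (fun s => -Real.log (law w X s))]
  refine sum_congr rfl fun s _ => ?_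
  unfold Real.negMulLog
  ring

theorem H_le_of_factor {w : Ω → ℝ} (hw : IsLaw w) (X : Ω → S) (Y : Ω → S')
    (h : ∀ ω ω', Y ω = Y ω' → X ω = X ω') : H w X ≤ H w Y := by
  classical
  rw [H_eq_sum, H_eq_sum]
  refine sum_le_sum fun ω _ => ?_
  rcases eq_or_lt_of_le (hw.nonneg ω) with h0 | h0
  · rw [← h0, zero_mul, zero_mul]
  · refine mul_le_mul_of_nonneg_left (neg_le_neg ?_) h0.le
    have h1 : 0 < law w Y (Y ω) := lt_of_lt_of_le h0 (le_law hw Y ω)
    refine Real.log_le_log h1 ?_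
    unfold law
    refine sum_le_sum fun ω' _ => ?_
    by_cases h2 : Y ω' = Y ω
    · rw [if_pos h2, if_pos (h _ _ h2)]
    · rw [if_neg h2]
      split_ifs
      · exact hw.nonneg ω'
      · exact le_rfl

theorem H_congr {w : Ω → ℝ} (hw : IsLaw w) (X : Ω → S) (Y : Ω → S')
    (h : ∀ ω ω', Y ω = Y ω' ↔ X ω = X ω') : H w X = H w Y :=
  le_antisymm (H_le_of_factor hw X Y fun ω ω' => (h ω ω').1) (H_le_of_factor hw Y X fun ω ω' => (h ω ω').2)

end

end Pool.Agent.Lib.MP_0430e4_lc.PFR
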