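import Pool.Agent.Lib.MP_0430e4_lc.PFR.B2

set_option autoImplicit false

open Finset

namespace Pool.Agent.Lib.MP_0430e4_lc.PFR

section
variable {Ω Ω' S S' T U : Type} [Fintype Ω] [Fintype Ω'] [Fintype S] [Fintype S'] [Fintype T] [Fintype U]

theorem IsLaw.le_one {w : Ω → ℝ} (hw : IsLaw w) (ω : Ω) : w ω ≤ 1 := by
  rw [← hw.sum_one]
  exact Finset.single_le_sum (fun i _ => hw.nonneg i) (mem_univ ω)

theorem ent_nonneg {w : Ω → ℝ} (hw : IsLaw w) : 0 ≤ ent w := by
  unfold ent
  exact sum_nonneg fun ω _ => Real.negMulLog_nonneg (hw.nonneg ω) (hw.le_one ω)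

theorem H_nonneg {w : Ω → ℝ} (hw : IsLaw w) (X : Ω → S) : 0 ≤ H w X := ent_nonneg (law_isLaw hw X)

theorem H_const {w : Ω → ℝ} (hw : IsLaw w) (c : S) : H w (fun _ => c) = 0 := by
  classical
  rw [H_eq_sum]
  refine sum_eq_zero fun ω _ => ?_
  have h : law w (fun _ => c) c = 1 := by
    unfold law
    simp [hw.sum_one]
  rw [h, Real.log_one, neg_zero, mul_zero]

theorem ent_le_log_card {w : Ω → ℝ} (hw : IsLaw w) (A : Finset Ω) (hA : ∀ x, w x ≠ 0 → x ∈ A) :
    ent w ≤ Real.log A.card := by
  classical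
  have hne : A.Nonempty := by
    by_contra hn
    rw [Finset.not_nonempty_iff_eq_empty] at hn
    have h1 : ∀ x, w x = 0 := fun x => by
      by_contra hx
      have := hA x hx
      rw [hn] at this
      exact absurd this (Finset.notMem_empty x)
    have := hw.sum_one
    rw [sum_eq_zero (fun x _ => h1 x)] at this
    norm_num at this
  have hc : (0 : ℝ) < A.card := by exact_mod_cast hne.card_pos
  have hs : ∑ x ∈ A, w x = 1 := by
    rw [← hw.sum_one]
    refine sum_subset (subset_univ A) fun x _ hx => ?_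
    by_contra h
    exact hx (hA x h)
  have he : ent w = ∑ x ∈ A, Real.negMulLog (w x) := by
    unfold ent
    symm
    refine sum_subset (subset_univ A) fun x _ hx => ?_
    have : w x = 0 := by
      by_contra h
      exact hx (hA x h)
    rw [this, Real.negMulLog_zero]
  have h1 : ∀ x ∈ A, Real.negMulLog (w x) ≤ w x * Real.log A.card + (1 / (A.card : ℝ) - w x) := by
    intro x _
    rcases eq_or_lt_of_le (hw.nonneg x) with h0 | h0
    · rw [← h0, Real.negMulLog_zero]
      have : 0 < 1 / (A.card : ℝ) := by positivity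
      linarith
    · have h2 := Real.log_le_sub_one_of_pos (show 0 < 1 / ((A.card : ℝ) * w x) by positivity)
      have h3 : Real.log (1 / ((A.card : ℝ) * w x)) = -(Real.log A.card + Real.log (w x)) := by
        rw [one_div, Real.log_inv, Real.log_mul hc.ne' h0.ne']
      rw [h3] at h2
      have h4 : w x * (1 / ((A.card : ℝ) * w x)) = 1 / (A.card : ℝ) := by field_simp
      unfold Real.negMulLog
      nlinarith [mul_le_mul_of_nonneg_left h2 h0.le]
  rw [he]
  refine (sum_le_sum h1).trans ?_
  rw [sum_add_distrib, ← sum_mul, hs, sum_sub_distrib, hs, sum_const, nsmul_eq_mul, mul_one_div, div_self hc.ne']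
  linarith

end

end Pool.Agent.Lib.MP_0430e4_lc.PFR
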