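import Pool.Agent.Lib.MP_0430e4_lc.PFR.B3

set_option autoImplicit false

open Finset

namespace Pool.Agent.Lib.MP_0430e4_lc.PFR

section
variable {Ω Ω' S S' T U : Type} [Fintype Ω] [Fintype Ω'] [Fintype S] [Fintype S'] [Fintype T] [Fintype U]

/-- marginals -/
theorem sum_law_pair (w : Ω → ℝ) (X : Ω → S) {T : Type} (Z : Ω → T) (z : T) :
    ∑ x, law w (fun ω => (X ω, Z ω)) (x, z) = law w Z z := by
  classical
  unfold law
  rw [sum_comm]
  refine sum_congr rfl fun ω _ => ?_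
  by_cases h : Z ω = z
  · rw [if_pos h, Finset.sum_eq_single (X ω)]
    · exact if_pos (show (X ω, Z ω) = (X ω, z) by rw [h])
    · intro b _ hb
      rw [if_neg]
      intro h1
      exact hb (Prod.mk.inj h1).1.symm
    · intro h1
      exact absurd (mem_univ _) h1
  · rw [if_neg h]
    refine sum_eq_zero fun x _ => ?_
    rw [if_neg]
    intro h1
    exact h (Prod.mk.inj h1).2

theorem submod {w : Ω → ℝ} (hw : IsLaw w) (X : Ω → S) (Y : Ω → S') (Z : Ω → T) :
    H w (fun ω => (X ω, Y ω, Z ω)) + H w Z ≤ H w (fun ω => (X ω, Z ω)) + H w (fun ω => (Y ω, Z ω)) := by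
  classical
  set P := law w (fun ω => (X ω, Y ω, Z ω)) with hP
  set A := law w (fun ω => (X ω, Z ω)) with hA
  set B := law w (fun ω => (Y ω, Z ω)) with hB
  set C := law w Z with hC
  have hP0 : ∀ s, 0 ≤ P s := law_nonneg hw _
  have hA0 : ∀ s, 0 ≤ A s := law_nonneg hw _
  have hB0 : ∀ s, 0 ≤ B s := law_nonneg hw _
  have hC0 : ∀ s, 0 ≤ C s := law_nonneg hw _
  -- the sum of the densities
  have h1 : ∑ ω, w ω * (A (X ω, Z ω) * B (Y ω, Z ω) / (P (X ω, Y ω, Z ω) * C (Z ω))) ≤ 1 := by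
    rw [← sum_law_mul w (fun ω => (X ω, Y ω, Z ω)) (fun s => A (s.1, s.2.2) * B (s.2.1, s.2.2) / (P s * C s.2.2))]
    calc ∑ s, P s * (A (s.1, s.2.2) * B (s.2.1, s.2.2) / (P s * C s.2.2))
        ≤ ∑ s : S × S' × T, A (s.1, s.2.2) * B (s.2.1, s.2.2) / C s.2.2 := by
          refine sum_le_sum fun s _ => ?_
          have h0 : 0 ≤ A (s.1, s.2.2) * B (s.2.1, s.2.2) / C s.2.2 :=
            div_nonneg (mul_nonneg (hA0 _) (hB0 _)) (hC0 _)
          rcases eq_or_lt_of_le (hP0 s) with h | h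
          · rw [← h, zero_mul]; exact h0
          · refine le_of_eq ?_
            rw [← div_div, mul_div_assoc', mul_div_assoc']
            rw [mul_div_cancel_left₀ _ h.ne']
      _ = ∑ z, (∑ x, A (x, z)) * (∑ y, B (y, z)) / C z := by
          rw [Fintype.sum_prod_type]
          simp_rw [Fintype.sum_prod_type]
          calc ∑ x, ∑ y, ∑ z, A (x, z) * B (y, z) / C z = ∑ x, ∑ z, ∑ y, A (x, z) * B (y, z) / C z :=
                sum_congr rfl fun x _ => sum_comm
            _ = ∑ z, ∑ x, ∑ y, A (x, z) * B (y, z) / C z := sum_comm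
            _ = _ := by
                refine sum_congr rfl fun z _ => ?_
                rw [sum_mul_sum, sum_div]
                refine sum_congr rfl fun x _ => ?_
                rw [sum_div]
      _ = ∑ z, C z := by
          refine sum_congr rfl fun z _ => ?_
          rw [sum_law_pair w X Z z, sum_law_pair w Y Z z]
          by_cases h : C z = 0
          · rw [← hC, h]; simp
          · rw [← hC, mul_div_assoc, div_self h, mul_one]
      _ = 1 := (law_isLaw hw Z).sum_one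
      _ ≤ 1 := le_rfl
  rw [H_eq_sum, H_eq_sum, H_eq_sum, H_eq_sum, ← sum_add_distrib, ← sum_add_distrib]
  have h2 : ∀ ω, (w ω * (-Real.log (P (X ω, Y ω, Z ω))) + w ω * (-Real.log (C (Z ω)))) ≤
      (w ω * (-Real.log (A (X ω, Z ω))) + w ω * (-Real.log (B (Y ω, Z ω)))) +
      (w ω * (A (X ω, Z ω) * B (Y ω, Z ω) / (P (X ω, Y ω, Z ω) * C (Z ω))) - w ω) := by
    intro ω
    rcases eq_or_lt_of_le (hw.nonneg ω) with h0 | h0
    · rw [← h0]; simp
    · have hP1 : 0 < P (X ω, Y ω, Z ω) := lt_of_lt_of_le h0 (le_law hw (fun ω => (X ω, Y ω, Z ω)) ω)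
      have hA1 : 0 < A (X ω, Z ω) := lt_of_lt_of_le h0 (le_law hw (fun ω => (X ω, Z ω)) ω)
      have hB1 : 0 < B (Y ω, Z ω) := lt_of_lt_of_le h0 (le_law hw (fun ω => (Y ω, Z ω)) ω)
      have hC1 : 0 < C (Z ω) := lt_of_lt_of_le h0 (le_law hw Z ω)
      have h3 := Real.log_le_sub_one_of_pos
        (show 0 < A (X ω, Z ω) * B (Y ω, Z ω) / (P (X ω, Y ω, Z ω) * C (Z ω)) by positivity)
      rw [Real.log_div (by positivity) (by positivity), Real.log_mul hA1.ne' hB1.ne', Real.log_mul hP1.ne' hC1.ne'] at h3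
      nlinarith [mul_le_mul_of_nonneg_left h3 h0.le]
  have h4 := sum_le_sum (fun ω (_ : ω ∈ univ) => h2 ω)
  have h5 : ∑ ω, ((w ω * (-Real.log (A (X ω, Z ω))) + w ω * (-Real.log (B (Y ω, Z ω)))) +
      (w ω * (A (X ω, Z ω) * B (Y ω, Z ω) / (P (X ω, Y ω, Z ω) * C (Z ω))) - w ω)) =
      ∑ ω, (w ω * (-Real.log (A (X ω, Z ω))) + w ω * (-Real.log (B (Y ω, Z ω)))) +
      (∑ ω, w ω * (A (X ω, Z ω) * B (Y ω, Z ω) / (P (X ω, Y ω, Z ω) * C (Z ω))) - 1) := by
    rw [sum_add_distrib, sum_sub_distrib, hw.sum_one]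
  rw [h5] at h4
  refine h4.trans ?_
  linarith

theorem subadd {w : Ω → ℝ} (hw : IsLaw w) (X : Ω → S) (Y : Ω → S') :
    H w (fun ω => (X ω, Y ω)) ≤ H w X + H w Y := by
  have h1 := submod hw X Y (fun _ => ())
  have h2 : H w (fun _ : Ω => ()) = 0 := H_const hw ()
  have h3 : H w (fun ω => (X ω, Y ω, ())) = H w (fun ω => (X ω, Y ω)) := by
    refine H_congr hw _ _ fun ω ω' => ?_
    simp
  have h4 : H w (fun ω => (X ω, ())) = H w X := by
    refine H_congr hw _ _ fun ω ω' => ?_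
    simp
  have h5 : H w (fun ω => (Y ω, ())) = H w Y := by
    refine H_congr hw _ _ fun ω ω' => ?_
    simp
  rw [h2, h3, h4, h5] at h1
  linarith

end

end Pool.Agent.Lib.MP_0430e4_lc.PFR
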