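import Mathlib

/-!
Balog-Szemeredi-Gowers with polynomial dependence (helper1, campaign PFR of MP_0430e4_lc).

`path3`: a dense bipartite graph contains `A'`, `B'` (polynomially dense) all of whose pairs are
joined by many paths of length three.
`bsg`: a finite set `A` in an abelian group with many pairs whose sums lie in a small set has a large
subset `A'` with small difference set.
-/

open Finset
open scoped Pointwise

namespace Pool.Agent.Lib.MP_0430e4_lc.PFR

section Graph

variable {α β : Type*} [DecidableEq α] [DecidableEq β]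

/-- double counting of the edges of a bipartite graph -/
theorem sum_deg_comm (A : Finset α) (B : Finset β) (E : Finset (α × β)) :
    ∑ a ∈ A, (B.filter (fun b => (a, b) ∈ E)).card =
      ∑ b ∈ B, (A.filter (fun a => (a, b) ∈ E)).card := by
  simp only [Finset.card_filter]
  exact Finset.sum_comm

theorem card_edges (A : Finset α) (B : Finset β) (E : Finset (α × β)) (hE : E ⊆ A ×ˢ B) :
    E.card = ∑ a ∈ A, (B.filter (fun b => (a, b) ∈ E)).card := by
  have h1 : E = (A ×ˢ B).filter (fun p => p ∈ E) := by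
    ext p; simp only [Finset.mem_filter]; exact ⟨fun h => ⟨hE h, h⟩, fun h => h.2⟩
  calc E.card = ((A ×ˢ B).filter (fun p => p ∈ E)).card := by rw [← h1]
    _ = ∑ p ∈ A ×ˢ B, if p ∈ E then 1 else 0 := by rw [Finset.card_filter]
    _ = ∑ a ∈ A, ∑ b ∈ B, if (a, b) ∈ E then 1 else 0 := by rw [Finset.sum_product]
    _ = _ := by simp only [Finset.card_filter]

theorem path3 (A : Finset α) (B : Finset β) (E : Finset (α × β)) (hE : E ⊆ A ×ˢ B)
    (K : ℝ) (hK : 1 ≤ K) (hA : A.Nonempty) (hB : B.Nonempty)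
    (h : (A.card : ℝ) * B.card ≤ K * E.card) :
    ∃ A' ⊆ A, ∃ B' ⊆ B, (A.card : ℝ) ≤ 6 * K * A'.card ∧ (B.card : ℝ) ≤ 4 * K * B'.card ∧
      ∀ a ∈ A', ∀ b ∈ B', (A.card : ℝ) * B.card ≤ 3072 * K ^ 5 *
        ((A ×ˢ B).filter (fun p => (a, p.2) ∈ E ∧ (p.1, p.2) ∈ E ∧ (p.1, b) ∈ E)).card := by
  have hK0 : 0 < K := by linarith
  have hApos : (0 : ℝ) < A.card := by exact_mod_cast hA.card_pos
  have hBpos : (0 : ℝ) < B.card := by exact_mod_cast hB.card_pos
  set deg : α → ℕ := fun a => (B.filter (fun b => (a, b) ∈ E)).card with hdeg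
  set At : Finset α := A.filter (fun a => (B.card : ℝ) ≤ 2 * K * deg a) with hAt
  have hAtA : At ⊆ A := Finset.filter_subset _ _
  -- step 1 : many edges start in `At`
  have hEsum : (E.card : ℝ) = ∑ a ∈ A, (deg a : ℝ) := by
    rw [card_edges A B E hE]; push_cast; rfl
  have hsplit : ∑ a ∈ A, (deg a : ℝ) = ∑ a ∈ At, (deg a : ℝ) +
      ∑ a ∈ A.filter (fun a => ¬ (B.card : ℝ) ≤ 2 * K * deg a), (deg a : ℝ) :=
    (Finset.sum_filter_add_sum_filter_not _ _ _).symm
  have hsmall : ∑ a ∈ A.filter (fun a => ¬ (B.card : ℝ) ≤ 2 * K * deg a), (deg a : ℝ) ≤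
      A.card * (B.card / (2 * K)) := by
    calc _ ≤ ∑ a ∈ A.filter (fun a => ¬ (B.card : ℝ) ≤ 2 * K * deg a), (B.card : ℝ) / (2 * K) := by
          apply Finset.sum_le_sum
          intro a ha
          have := (Finset.mem_filter.mp ha).2
          rw [le_div_iff₀ (by positivity)]
          nlinarith
      _ = (A.filter (fun a => ¬ (B.card : ℝ) ≤ 2 * K * deg a)).card * ((B.card : ℝ) / (2 * K)) := by
          rw [Finset.sum_const, nsmul_eq_mul]
      _ ≤ _ := by
          apply mul_le_mul_of_nonneg_right _ (by positivity)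
          exact_mod_cast Finset.card_filter_le _ _
  have hAtE : (A.card : ℝ) * (B.card / (2 * K)) ≤ ∑ a ∈ At, (deg a : ℝ) := by
    have h1 : (A.card : ℝ) * B.card / K ≤ E.card := by
      rw [div_le_iff₀ hK0]; nlinarith
    have h2 : (A.card : ℝ) * B.card / K = A.card * (B.card / (2 * K)) + A.card * (B.card / (2 * K)) := by
      field_simp; ring
    linarith
  -- step 2
  set nb : β → ℕ := fun b => (At.filter (fun a => (a, b) ∈ E)).card with hnb
  have hnbsum : ∑ b ∈ B, (nb b : ℝ) = ∑ a ∈ At, (deg a : ℝ) := by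
    have := sum_deg_comm At B E
    have h2 : ((∑ a ∈ At, deg a : ℕ) : ℝ) = ((∑ b ∈ B, nb b : ℕ) : ℝ) := by exact_mod_cast this
    push_cast at h2
    linarith
  set cod : α × α → ℕ := fun p => (B.filter (fun b => (p.1, b) ∈ E ∧ (p.2, b) ∈ E)).card with hcod
  set P : Finset (α × α) := (At ×ˢ At).filter (fun p => (cod p : ℝ) < B.card / (128 * K ^ 3)) with hP
  set bad : β → ℕ := fun b => (P.filter (fun p => (p.1, b) ∈ E ∧ (p.2, b) ∈ E)).card with hbad
  have hbadsum : ∑ b ∈ B, (bad b : ℝ) ≤ (A.card : ℝ) ^ 2 * (B.card / (128 * K ^ 3)) := by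
    have h1 : ∑ b ∈ B, bad b = ∑ p ∈ P, cod p := by
      simp only [hbad, hcod, Finset.card_filter]
      exact Finset.sum_comm
    have h2 : ∑ b ∈ B, (bad b : ℝ) = ∑ p ∈ P, (cod p : ℝ) := by exact_mod_cast h1
    rw [h2]
    calc ∑ p ∈ P, (cod p : ℝ) ≤ ∑ p ∈ P, (B.card : ℝ) / (128 * K ^ 3) := by
          apply Finset.sum_le_sum
          intro p hp
          exact le_of_lt (Finset.mem_filter.mp hp).2
      _ = P.card * ((B.card : ℝ) / (128 * K ^ 3)) := by rw [Finset.sum_const, nsmul_eq_mul]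
      _ ≤ _ := by
          apply mul_le_mul_of_nonneg_right _ (by positivity)
          have h3 : P.card ≤ A.card * A.card := by
            calc P.card ≤ (At ×ˢ At).card := Finset.card_filter_le _ _
              _ = At.card * At.card := Finset.card_product _ _
              _ ≤ _ := Nat.mul_le_mul (Finset.card_le_card hAtA) (Finset.card_le_card hAtA)
          have h4 : (P.card : ℝ) ≤ A.card * A.card := by exact_mod_cast h3
          nlinarith
  have hcs : (A.card : ℝ) ^ 2 * B.card / (4 * K ^ 2) ≤ ∑ b ∈ B, (nb b : ℝ) ^ 2 := by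
    have h1 : (∑ b ∈ B, (nb b : ℝ)) ^ 2 ≤ B.card * ∑ b ∈ B, (nb b : ℝ) ^ 2 := by
      exact sq_sum_le_card_mul_sum_sq
    have h2 : ((A.card : ℝ) * (B.card / (2 * K))) ^ 2 ≤ (∑ b ∈ B, (nb b : ℝ)) ^ 2 := by
      apply pow_le_pow_left₀ (by positivity)
      rw [hnbsum]; exact hAtE
    have h3 : ((A.card : ℝ) * (B.card / (2 * K))) ^ 2 = B.card * ((A.card : ℝ) ^ 2 * B.card / (4 * K ^ 2)) := by
      field_simp; ring
    have h4 : (B.card : ℝ) * ((A.card : ℝ) ^ 2 * B.card / (4 * K ^ 2)) ≤ B.card * ∑ b ∈ B, (nb b : ℝ) ^ 2 := by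
      rw [← h3]; exact h2.trans h1
    exact le_of_mul_le_mul_left h4 hBpos
  have hex : ∃ b0 ∈ B, (A.card : ℝ) ^ 2 / (8 * K ^ 2) ≤ (nb b0 : ℝ) ^ 2 - 16 * K * bad b0 := by
    apply Finset.exists_le_of_sum_le hB
    rw [Finset.sum_const, nsmul_eq_mul, Finset.sum_sub_distrib, ← Finset.mul_sum]
    have h5 : 16 * K * ∑ b ∈ B, (bad b : ℝ) ≤ 16 * K * ((A.card : ℝ) ^ 2 * (B.card / (128 * K ^ 3))) :=
      mul_le_mul_of_nonneg_left hbadsum (by positivity)
    have h6 : 16 * K * ((A.card : ℝ) ^ 2 * (B.card / (128 * K ^ 3))) = B.card * ((A.card : ℝ) ^ 2 / (8 * K ^ 2)) := by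
      field_simp; ring
    have h7 : (A.card : ℝ) ^ 2 * B.card / (4 * K ^ 2) = 2 * (B.card * ((A.card : ℝ) ^ 2 / (8 * K ^ 2))) := by
      field_simp; ring
    linarith
  obtain ⟨b0, hb0, hb0'⟩ := hex
  -- step 3
  set A2 : Finset α := At.filter (fun a => (a, b0) ∈ E) with hA2
  have hA2At : A2 ⊆ At := Finset.filter_subset _ _
  set m : ℝ := (A2.card : ℝ) with hm
  have hmnb : (nb b0 : ℝ) = m := rfl
  have hbadnn : (0 : ℝ) ≤ bad b0 := by positivity
  have hm2 : (A.card : ℝ) ^ 2 / (8 * K ^ 2) ≤ m ^ 2 := by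
    have : (0 : ℝ) ≤ 16 * K * bad b0 := by positivity
    linarith
  have hmA : (A.card : ℝ) ≤ 3 * K * m := by
    have h1 : (A.card : ℝ) ^ 2 ≤ (3 * K * m) ^ 2 := by
      rw [div_le_iff₀ (by positivity)] at hm2
      nlinarith [sq_nonneg (K * m)]
    exact le_of_sq_le_sq h1 (by positivity)
  have hmpos : 0 < m := by
    by_contra hcon
    have : m = 0 := le_antisymm (not_lt.mp hcon) (by positivity)
    rw [this] at hmA
    linarith
  have hbadm : 16 * K * bad b0 ≤ m ^ 2 := by
    have : (0 : ℝ) ≤ (A.card : ℝ) ^ 2 / (8 * K ^ 2) := by positivity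
    linarith
  set bp : α → ℕ := fun a => (A2.filter (fun a' => (a, a') ∈ P)).card with hbp
  have hbpsum : ∑ a ∈ A2, (bp a : ℝ) ≤ bad b0 := by
    have h1 : ∑ a ∈ A2, bp a ≤ bad b0 := by
      have h2 : ∑ a ∈ A2, bp a = ((A2 ×ˢ A2).filter (fun p => p ∈ P)).card := by
        simp only [hbp, Finset.card_filter]
        rw [Finset.sum_product]
      rw [h2]
      apply Finset.card_le_card
      intro p hp
      rw [Finset.mem_filter, Finset.mem_product] at hp
      obtain ⟨⟨h3, h4⟩, h5⟩ := hp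
      rw [Finset.mem_filter]
      exact ⟨h5, (Finset.mem_filter.mp h3).2, (Finset.mem_filter.mp h4).2⟩
    exact_mod_cast h1
  set A' : Finset α := A2.filter (fun a => (bp a : ℝ) ≤ m / (8 * K)) with hA'
  have hA'A2 : A' ⊆ A2 := Finset.filter_subset _ _
  have hA'card : m / 2 ≤ A'.card := by
    have h1 : ((A2.filter (fun a => ¬ (bp a : ℝ) ≤ m / (8 * K))).card : ℝ) * (m / (8 * K)) ≤ bad b0 := by
      calc _ = ∑ a ∈ A2.filter (fun a => ¬ (bp a : ℝ) ≤ m / (8 * K)), (m / (8 * K)) := by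
            rw [Finset.sum_const, nsmul_eq_mul]
        _ ≤ ∑ a ∈ A2.filter (fun a => ¬ (bp a : ℝ) ≤ m / (8 * K)), (bp a : ℝ) := by
            apply Finset.sum_le_sum
            intro a ha
            exact le_of_lt (not_le.mp (Finset.mem_filter.mp ha).2)
        _ ≤ ∑ a ∈ A2, (bp a : ℝ) :=
            Finset.sum_le_sum_of_subset_of_nonneg (Finset.filter_subset _ _) (fun _ _ _ => by positivity)
        _ ≤ _ := hbpsum
    have h2 : ((A2.filter (fun a => ¬ (bp a : ℝ) ≤ m / (8 * K))).card : ℝ) ≤ m / 2 := by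
      have h3 : ((A2.filter (fun a => ¬ (bp a : ℝ) ≤ m / (8 * K))).card : ℝ) * m ≤ 8 * K * bad b0 := by
        have : ((A2.filter (fun a => ¬ (bp a : ℝ) ≤ m / (8 * K))).card : ℝ) * (m / (8 * K)) * (8 * K)
            ≤ bad b0 * (8 * K) := mul_le_mul_of_nonneg_right h1 (by positivity)
        have h4 : ((A2.filter (fun a => ¬ (bp a : ℝ) ≤ m / (8 * K))).card : ℝ) * (m / (8 * K)) * (8 * K)
            = ((A2.filter (fun a => ¬ (bp a : ℝ) ≤ m / (8 * K))).card : ℝ) * m := by
          rw [mul_assoc, div_mul_cancel₀ _ (by positivity)]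
        rw [h4] at this
        linarith
      have h5 : ((A2.filter (fun a => ¬ (bp a : ℝ) ≤ m / (8 * K))).card : ℝ) * m ≤ (m / 2) * m := by
        nlinarith
      exact le_of_mul_le_mul_right h5 hmpos
    have h3 : (A'.card : ℝ) + ((A2.filter (fun a => ¬ (bp a : ℝ) ≤ m / (8 * K))).card : ℝ) = m := by
      have := Finset.card_filter_add_card_filter_not (s := A2) (fun a => (bp a : ℝ) ≤ m / (8 * K))
      rw [hm]
      exact_mod_cast this
    linarith
  -- step 4
  set nn : β → ℕ := fun b => (A2.filter (fun a => (a, b) ∈ E)).card with hnn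
  set B' : Finset β := B.filter (fun b => m / (4 * K) ≤ nn b) with hB'
  have hnnsum : m * (B.card / (2 * K)) ≤ ∑ b ∈ B, (nn b : ℝ) := by
    have h1 : ∑ b ∈ B, (nn b : ℝ) = ∑ a ∈ A2, (deg a : ℝ) := by
      have := sum_deg_comm A2 B E
      exact_mod_cast this.symm
    rw [h1]
    calc m * (B.card / (2 * K)) = ∑ a ∈ A2, (B.card : ℝ) / (2 * K) := by
          rw [Finset.sum_const, nsmul_eq_mul]
      _ ≤ _ := by
          apply Finset.sum_le_sum
          intro a ha
          have := (Finset.mem_filter.mp (hA2At ha)).2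
          rw [div_le_iff₀ (by positivity)]
          nlinarith
  have hB'card : (B.card : ℝ) ≤ 4 * K * B'.card := by
    have h1 : ∑ b ∈ B, (nn b : ℝ) = ∑ b ∈ B', (nn b : ℝ) +
        ∑ b ∈ B.filter (fun b => ¬ m / (4 * K) ≤ nn b), (nn b : ℝ) :=
      (Finset.sum_filter_add_sum_filter_not _ _ _).symm
    have h2 : ∑ b ∈ B.filter (fun b => ¬ m / (4 * K) ≤ nn b), (nn b : ℝ) ≤ B.card * (m / (4 * K)) := by
      calc _ ≤ ∑ b ∈ B.filter (fun b => ¬ m / (4 * K) ≤ nn b), (m / (4 * K)) := by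
            apply Finset.sum_le_sum
            intro b hb
            exact le_of_lt (not_le.mp (Finset.mem_filter.mp hb).2)
        _ = (B.filter (fun b => ¬ m / (4 * K) ≤ nn b)).card * (m / (4 * K)) := by
            rw [Finset.sum_const, nsmul_eq_mul]
        _ ≤ _ := by
            apply mul_le_mul_of_nonneg_right _ (by positivity)
            exact_mod_cast Finset.card_filter_le _ _
    have h3 : ∑ b ∈ B', (nn b : ℝ) ≤ B'.card * m := by
      calc _ ≤ ∑ b ∈ B', m := by
            apply Finset.sum_le_sum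
            intro b hb
            rw [hm]
            exact_mod_cast Finset.card_filter_le _ _
        _ = _ := by rw [Finset.sum_const, nsmul_eq_mul]
    have h4 : m * (B.card / (4 * K)) ≤ B'.card * m := by
      have h5 : m * ((B.card : ℝ) / (2 * K)) = m * (B.card / (4 * K)) + B.card * (m / (4 * K)) := by
        field_simp; ring
      linarith
    have h6 : (B.card : ℝ) / (4 * K) ≤ B'.card := by
      have : (B.card : ℝ) / (4 * K) * m ≤ B'.card * m := by linarith
      exact le_of_mul_le_mul_right this hmpos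
    rw [div_le_iff₀ (by positivity)] at h6
    linarith
  refine ⟨A', (hA'A2.trans hA2At).trans hAtA, B', Finset.filter_subset _ _, ?_, hB'card, ?_⟩
  · nlinarith
  -- step 5
  intro a ha b hb
  have ha2 : a ∈ A2 := hA'A2 ha
  set T : Finset α := A2.filter (fun a' => (a', b) ∈ E ∧ (a, a') ∉ P) with hT
  have hTcard : m / (8 * K) ≤ T.card := by
    have h1 : nn b ≤ T.card + bp a := by
      have h2 : A2.filter (fun a' => (a', b) ∈ E) ⊆ T ∪ A2.filter (fun a' => (a, a') ∈ P) := by
        intro x hx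
        rw [Finset.mem_filter] at hx
        rw [Finset.mem_union]
        by_cases hxP : (a, x) ∈ P
        · right; rw [Finset.mem_filter]; exact ⟨hx.1, hxP⟩
        · left; rw [Finset.mem_filter]; exact ⟨hx.1, hx.2, hxP⟩
      exact (Finset.card_le_card h2).trans (Finset.card_union_le _ _)
    have h2 : (nn b : ℝ) ≤ T.card + bp a := by exact_mod_cast h1
    have h3 : m / (4 * K) ≤ nn b := (Finset.mem_filter.mp hb).2
    have h4 : (bp a : ℝ) ≤ m / (8 * K) := (Finset.mem_filter.mp ha).2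
    have h5 : m / (4 * K) = m / (8 * K) + m / (8 * K) := by field_simp; ring
    linarith
  have hpaths : ∑ a' ∈ T, cod (a, a') ≤
      ((A ×ˢ B).filter (fun p => (a, p.2) ∈ E ∧ (p.1, p.2) ∈ E ∧ (p.1, b) ∈ E)).card := by
    have h1 : ∑ a' ∈ T, cod (a, a') =
        ((T ×ˢ B).filter (fun p => (a, p.2) ∈ E ∧ (p.1, p.2) ∈ E)).card := by
      simp only [hcod, Finset.card_filter]
      rw [Finset.sum_product]
    rw [h1]
    apply Finset.card_le_card
    intro p hp
    rw [Finset.mem_filter, Finset.mem_product] at hp ⊢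
    obtain ⟨⟨h3, h4⟩, h5, h6⟩ := hp
    have h7 := Finset.mem_filter.mp h3
    exact ⟨⟨hAtA (hA2At h7.1), h4⟩, h5, h6, h7.2.1⟩
  have hcodT : ∀ a' ∈ T, (B.card : ℝ) / (128 * K ^ 3) ≤ cod (a, a') := by
    intro a' ha'
    have h1 := (Finset.mem_filter.mp ha')
    by_contra hcon
    apply h1.2.2
    rw [hP, Finset.mem_filter, Finset.mem_product]
    exact ⟨⟨hA2At ha2, hA2At h1.1⟩, not_le.mp hcon⟩
  have hsum : (T.card : ℝ) * (B.card / (128 * K ^ 3)) ≤
      ((A ×ˢ B).filter (fun p => (a, p.2) ∈ E ∧ (p.1, p.2) ∈ E ∧ (p.1, b) ∈ E)).card := by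
    calc (T.card : ℝ) * (B.card / (128 * K ^ 3)) = ∑ a' ∈ T, (B.card : ℝ) / (128 * K ^ 3) := by
          rw [Finset.sum_const, nsmul_eq_mul]
      _ ≤ ∑ a' ∈ T, (cod (a, a') : ℝ) := Finset.sum_le_sum hcodT
      _ ≤ _ := by exact_mod_cast hpaths
  set X : ℝ := (((A ×ˢ B).filter (fun p => (a, p.2) ∈ E ∧ (p.1, p.2) ∈ E ∧ (p.1, b) ∈ E)).card : ℝ) with hX
  have h8 : m / (8 * K) * (B.card / (128 * K ^ 3)) ≤ X :=
    (mul_le_mul_of_nonneg_right hTcard (by positivity)).trans hsum
  have h9 : m / (8 * K) * ((B.card : ℝ) / (128 * K ^ 3)) = m * B.card / (1024 * K ^ 4) := by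
    field_simp; ring
  rw [h9, div_le_iff₀ (by positivity)] at h8
  calc (A.card : ℝ) * B.card ≤ (3 * K * m) * B.card := mul_le_mul_of_nonneg_right hmA hBpos.le
    _ = 3 * K * (m * B.card) := by ring
    _ ≤ 3 * K * (X * (1024 * K ^ 4)) := mul_le_mul_of_nonneg_left h8 (by positivity)
    _ = 3072 * K ^ 5 * X := by ring

end Graph

section Group

variable {G : Type*} [AddCommGroup G] [DecidableEq G]

/-- **Balog-Szemeredi-Gowers**: if at least `|A|^2 / K` pairs of elements of `A` have their sum in the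
set `D` and `|D| ≤ L |A|`, then `A` has a subset `A'` with `|A'| ≥ |A| / (6K)` and
`|A' - A'| ≤ 2^28 K^12 L^6 |A'|`. -/
theorem bsg (A D : Finset G) (hA : A.Nonempty) (K L : ℝ) (hK : 1 ≤ K)
    (h : (A.card : ℝ) ^ 2 ≤ K * ((A ×ˢ A).filter (fun p => p.1 + p.2 ∈ D)).card)
    (hD : (D.card : ℝ) ≤ L * A.card) :
    ∃ A' ⊆ A, A'.Nonempty ∧ (A.card : ℝ) ≤ 6 * K * A'.card ∧
      ((A' - A').card : ℝ) ≤ 2 ^ 28 * K ^ 12 * L ^ 6 * A'.card := by
  have hK0 : 0 < K := by linarith
  have hApos : (0 : ℝ) < A.card := by exact_mod_cast hA.card_pos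
  have hL : 0 ≤ L := by
    by_contra hcon
    have : L * A.card < 0 := mul_neg_of_neg_of_pos (not_le.mp hcon) hApos
    have h2 : (0 : ℝ) ≤ D.card := by positivity
    linarith
  obtain ⟨A', hA'A, B', hB'A, h1, h2, h3⟩ := path3 A A ((A ×ˢ A).filter (fun p => p.1 + p.2 ∈ D))
    (Finset.filter_subset _ _) K hK hA hA (by rw [← sq]; exact h)
  have hA'pos : (0 : ℝ) < A'.card := by
    by_contra hcon
    have : (A'.card : ℝ) = 0 := le_antisymm (not_lt.mp hcon) (by positivity)
    rw [this] at h1; linarith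
  have hB'pos : (0 : ℝ) < B'.card := by
    by_contra hcon
    have : (B'.card : ℝ) = 0 := le_antisymm (not_lt.mp hcon) (by positivity)
    rw [this] at h2; linarith
  have hA'ne : A'.Nonempty := by
    rw [← Finset.card_pos]; exact_mod_cast hA'pos
  have hB'ne : B'.Nonempty := by
    rw [← Finset.card_pos]; exact_mod_cast hB'pos
  refine ⟨A', hA'A, hA'ne, h1, ?_⟩
  -- every element of `A' + B'` has many representations
  have hrep : ∀ s ∈ A' + B', (A.card : ℝ) ^ 2 ≤ 3072 * K ^ 5 *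
      ((D ×ˢ (D ×ˢ D)).filter (fun t => t.1 - t.2.1 + t.2.2 = s)).card := by
    intro s hs
    obtain ⟨a, ha, b, hb, rfl⟩ := Finset.mem_add.mp hs
    have h4 := h3 a ha b hb
    rw [← sq] at h4
    refine h4.trans (mul_le_mul_of_nonneg_left ?_ (by positivity))
    have h5 : ((A ×ˢ A).filter (fun p => (a, p.2) ∈ (A ×ˢ A).filter (fun p => p.1 + p.2 ∈ D) ∧
        (p.1, p.2) ∈ (A ×ˢ A).filter (fun p => p.1 + p.2 ∈ D) ∧
        (p.1, b) ∈ (A ×ˢ A).filter (fun p => p.1 + p.2 ∈ D))).card ≤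
        ((D ×ˢ (D ×ˢ D)).filter (fun t => t.1 - t.2.1 + t.2.2 = a + b)).card := by
      apply Finset.card_le_card_of_injOn (fun p => (a + p.2, p.1 + p.2, p.1 + b))
      · intro p hp
        rw [Finset.mem_coe, Finset.mem_filter] at hp
        obtain ⟨_, h6, h7, h8⟩ := hp
        rw [Finset.mem_filter] at h6 h7 h8
        rw [Finset.mem_coe, Finset.mem_filter, Finset.mem_product, Finset.mem_product]
        refine ⟨⟨h6.2, h7.2, h8.2⟩, ?_⟩
        simp only
        abel
      · intro p _ q _ hpq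
        simp only [Prod.mk.injEq] at hpq
        obtain ⟨h6, h7, _⟩ := hpq
        have h9 : p.2 = q.2 := add_left_cancel h6
        have h10 : p.1 = q.1 := by rw [h9] at h7; exact add_right_cancel h7
        exact Prod.ext h10 h9
    exact_mod_cast h5
  have hcount : ((A' + B').card : ℝ) * (A.card : ℝ) ^ 2 ≤ 3072 * K ^ 5 * (D.card : ℝ) ^ 3 := by
    calc ((A' + B').card : ℝ) * (A.card : ℝ) ^ 2 = ∑ s ∈ A' + B', (A.card : ℝ) ^ 2 := by
          rw [Finset.sum_const, nsmul_eq_mul]
      _ ≤ ∑ s ∈ A' + B', 3072 * K ^ 5 *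
          (((D ×ˢ (D ×ˢ D)).filter (fun t => t.1 - t.2.1 + t.2.2 = s)).card : ℝ) :=
          Finset.sum_le_sum hrep
      _ = 3072 * K ^ 5 * ∑ s ∈ A' + B',
          (((D ×ˢ (D ×ˢ D)).filter (fun t => t.1 - t.2.1 + t.2.2 = s)).card : ℝ) := by
          rw [Finset.mul_sum]
      _ ≤ 3072 * K ^ 5 * (D.card : ℝ) ^ 3 := by
          apply mul_le_mul_of_nonneg_left _ (by positivity)
          have h6 : ∑ s ∈ A' + B', ((D ×ˢ (D ×ˢ D)).filter (fun t => t.1 - t.2.1 + t.2.2 = s)).card ≤
              (D ×ˢ (D ×ˢ D)).card := by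
            rw [← Finset.card_biUnion]
            · apply Finset.card_le_card
              intro t ht
              rw [Finset.mem_biUnion] at ht
              obtain ⟨s, _, hs⟩ := ht
              exact (Finset.mem_filter.mp hs).1
            · intro s _ s' _ hss'
              rw [Function.onFun, Finset.disjoint_left]
              intro t ht ht'
              exact hss' ((Finset.mem_filter.mp ht).2.symm.trans (Finset.mem_filter.mp ht').2)
          rw [Finset.card_product, Finset.card_product] at h6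
          have h7 : ∑ s ∈ A' + B', (((D ×ˢ (D ×ˢ D)).filter (fun t => t.1 - t.2.1 + t.2.2 = s)).card : ℝ) ≤
              (D.card : ℝ) * (D.card * D.card) := by exact_mod_cast h6
          calc _ ≤ (D.card : ℝ) * (D.card * D.card) := h7
            _ = (D.card : ℝ) ^ 3 := by ring
  have hAB : ((A' + B').card : ℝ) ≤ 3072 * K ^ 5 * L ^ 3 * A.card := by
    have h4 : (D.card : ℝ) ^ 3 ≤ (L * A.card) ^ 3 := pow_le_pow_left₀ (by positivity) hD 3
    have h5 : ((A' + B').card : ℝ) * (A.card : ℝ) ^ 2 ≤ (3072 * K ^ 5 * L ^ 3 * A.card) * (A.card : ℝ) ^ 2 := by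
      calc _ ≤ 3072 * K ^ 5 * (D.card : ℝ) ^ 3 := hcount
        _ ≤ 3072 * K ^ 5 * (L * A.card) ^ 3 := mul_le_mul_of_nonneg_left h4 (by positivity)
        _ = _ := by ring
    exact le_of_mul_le_mul_right h5 (by positivity)
  -- Ruzsa triangle inequality
  have hruz : ((A' - A').card : ℝ) * B'.card ≤ (A' + B').card * (A' + B').card := by
    have h4 : (A' - A').card * B'.card ≤ (A' + B').card * (A' + B').card :=
      Finset.ruzsa_triangle_inequality_sub_add_add A' B' A'
    exact_mod_cast h4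
  have h5 : ((A' - A').card : ℝ) * A.card ≤ 4 * K * ((3072 * K ^ 5 * L ^ 3 * A.card) ^ 2) := by
    calc ((A' - A').card : ℝ) * A.card ≤ (A' - A').card * (4 * K * B'.card) :=
          mul_le_mul_of_nonneg_left h2 (by positivity)
      _ = 4 * K * ((A' - A').card * B'.card) := by ring
      _ ≤ 4 * K * ((A' + B').card * (A' + B').card) := mul_le_mul_of_nonneg_left hruz (by positivity)
      _ ≤ 4 * K * ((3072 * K ^ 5 * L ^ 3 * A.card) ^ 2) := by
          apply mul_le_mul_of_nonneg_left _ (by positivity)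
          rw [sq]
          exact mul_le_mul hAB hAB (by positivity) (by positivity)
  have h6 : ((A' - A').card : ℝ) ≤ 4 * 3072 ^ 2 * K ^ 11 * L ^ 6 * A.card := by
    have h7 : ((A' - A').card : ℝ) * A.card ≤ (4 * 3072 ^ 2 * K ^ 11 * L ^ 6 * A.card) * A.card := by
      calc _ ≤ _ := h5
        _ = _ := by ring
    exact le_of_mul_le_mul_right h7 hApos
  calc ((A' - A').card : ℝ) ≤ 4 * 3072 ^ 2 * K ^ 11 * L ^ 6 * A.card := h6
    _ ≤ 4 * 3072 ^ 2 * K ^ 11 * L ^ 6 * (6 * K * A'.card) :=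
        mul_le_mul_of_nonneg_left h1 (by positivity)
    _ = (24 * 3072 ^ 2) * (K ^ 12 * L ^ 6 * A'.card) := by ring
    _ ≤ 2 ^ 28 * (K ^ 12 * L ^ 6 * A'.card) := by
        apply mul_le_mul_of_nonneg_right (by norm_num) (by positivity)
    _ = _ := by ring

end Group

end Pool.Agent.Lib.MP_0430e4_lc.PFR
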