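import Pool.Agent.Lib.MP_0430e4_lc.PFR.Law
import Pool.Agent.Lib.MP_0430e4_lc.PFR.Cnv

/-!
# PFR.C1: uniform laws (C1)

PROOFS. Direct; `dst_unf`: `ent_le_log_card` for `conv (unf A) (unf A)`, which vanishes outside `A + A`.
-/

set_option autoImplicit false

open Finset

namespace Pool.Agent.Lib.MP_0430e4_lc.PFR

section

variable {G : Type} [AddCommGroup G] [Fintype G]

theorem unf_isLaw {S : Type} [Fintype S] {A : Finset S} (hA : A.Nonempty) : IsLaw (unf A) := by
  classical
  have hc : 0 < (A.card : ℝ) := by exact_mod_cast hA.card_pos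
  have e : ∀ x, unf A x = if x ∈ A then 1 / (A.card : ℝ) else 0 := fun x => by
    unfold unf; congr
  refine ⟨fun x => ?_, ?_⟩
  · rw [e]; split_ifs <;> positivity
  · rw [Finset.sum_congr rfl (fun x _ => e x), ← Finset.sum_filter, Finset.sum_const,
      nsmul_eq_mul]
    simp only [Finset.filter_mem_eq_inter, Finset.univ_inter]
    field_simp

theorem ent_unf {S : Type} [Fintype S] {A : Finset S} (hA : A.Nonempty) :
    ent (unf A) = Real.log A.card := by
  classical
  have hc : 0 < (A.card : ℝ) := by exact_mod_cast hA.card_pos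
  have : ∀ x, Real.negMulLog (unf A x) =
      if x ∈ A then 1 / (A.card : ℝ) * Real.log (A.card : ℝ) else 0 := fun x => by
    have e : unf A x = if x ∈ A then 1 / (A.card : ℝ) else 0 := by unfold unf; congr
    rw [e]
    split_ifs
    · unfold Real.negMulLog
      rw [Real.log_div one_ne_zero hc.ne', Real.log_one]; ring
    · simp
  unfold ent
  rw [Finset.sum_congr rfl (fun x _ => this x), ← Finset.sum_filter, Finset.sum_const,
    nsmul_eq_mul]
  simp only [Finset.filter_mem_eq_inter, Finset.univ_inter]
  field_simp

open Pointwise in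
open Classical in
theorem dst_unf {A : Finset G} (hA : A.Nonempty) :
    dst (unf A) (unf A) ≤ Real.log ((A + A).card : ℝ) - Real.log A.card := by
  have hl := unf_isLaw hA
  have h1 : ent (conv (unf A) (unf A)) ≤ Real.log ((A + A).card : ℝ) := by
    refine ent_le_log_card (conv_isLaw hl hl) (A + A) (fun x hx => ?_)
    by_contra hxA
    apply hx
    rw [conv_apply]
    refine Finset.sum_eq_zero (fun y _ => ?_)
    by_cases hy : y ∈ A
    · by_cases hz : x - y ∈ A
      · exfalso
        exact hxA (Finset.mem_add.2 ⟨y, hy, x - y, hz, by abel⟩)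
      · have : unf A (x - y) = 0 := by unfold unf; rw [if_neg hz]
        rw [this, mul_zero]
    · have : unf A y = 0 := by unfold unf; rw [if_neg hy]
      rw [this, zero_mul]
  unfold dst
  rw [ent_unf hA]
  linarith

end

end Pool.Agent.Lib.MP_0430e4_lc.PFR
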