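import Mathlib

/-!
# PFR.Defs: finite laws, entropy, convolution, Ruzsa distance

Marton's conjecture over `F_2` with polynomial dependence (Gowers, Green, Manners, Tao), in the
shortest form with crude constants. Everything is a finite sum.
-/

set_option autoImplicit false

open Finset

namespace Pool.Agent.Lib.MP_0430e4_lc.PFR

/-- a probability law on a finite type -/
structure IsLaw {Ω : Type} [Fintype Ω] (w : Ω → ℝ) : Prop where
  nonneg : ∀ x, 0 ≤ w x
  sum_one : ∑ x, w x = 1

open Classical in
/-- the law of the variable `X` for the weight `w` -/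
noncomputable def law {Ω S : Type} [Fintype Ω] (w : Ω → ℝ) (X : Ω → S) (s : S) : ℝ :=
  ∑ ω, if X ω = s then w ω else 0

/-- Shannon entropy of a function on a finite type -/
noncomputable def ent {S : Type} [Fintype S] (p : S → ℝ) : ℝ := ∑ s, Real.negMulLog (p s)

/-- entropy of the variable `X` for the weight `w` -/
noncomputable def H {Ω S : Type} [Fintype Ω] [Fintype S] (w : Ω → ℝ) (X : Ω → S) : ℝ :=
  ent (law w X)

/-- product of weights -/
def prd {A B : Type} (p : A → ℝ) (q : B → ℝ) : A × B → ℝ := fun x => p x.1 * q x.2

open Classical in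
/-- the weight `w` conditioned on `Z = z` (zero if `P(Z = z) = 0`) -/
noncomputable def cnd {Ω T : Type} [Fintype Ω] (w : Ω → ℝ) (Z : Ω → T) (z : T) : Ω → ℝ :=
  fun ω => if Z ω = z then w ω / law w Z z else 0

open Classical in
/-- two copies of `w`, conditionally independent given `Z` -/
noncomputable def cprd {Ω T : Type} [Fintype Ω] (w : Ω → ℝ) (Z : Ω → T) : Ω × Ω → ℝ :=
  fun x => if Z x.1 = Z x.2 then w x.1 * w x.2 / law w Z (Z x.1) else 0

section group

variable {G : Type} [AddCommGroup G] [Fintype G]

/-- convolution: the law of the sum of two independent variables -/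
noncomputable def conv (p q : G → ℝ) : G → ℝ := law (prd p q) (fun x => x.1 + x.2)

/-- (entropic) Ruzsa distance; used in groups with `x + x = 0` only -/
noncomputable def dst (p q : G → ℝ) : ℝ := ent (conv p q) - (ent p + ent q) / 2

/-- local minimality of a pair of laws with constant `η` -/
def LMin (η : ℝ) (p q : G → ℝ) : Prop :=
  ∀ p' q' : G → ℝ, IsLaw p' → IsLaw q' → dst p q ≤ dst p' q' + η * (dst p p' + dst q q')

end group

open Classical in
/-- the uniform law on a finite set -/
noncomputable def unf {S : Type} (A : Finset S) : S → ℝ :=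
  fun x => if x ∈ A then 1 / (A.card : ℝ) else 0

end Pool.Agent.Lib.MP_0430e4_lc.PFR
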