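import Pool.Agent.Lib.MP_0430e4_lc.PFR.B1
import Pool.Agent.Lib.MP_0430e4_lc.PFR.B2
import Pool.Agent.Lib.MP_0430e4_lc.PFR.B3
import Pool.Agent.Lib.MP_0430e4_lc.PFR.B4

/-!
# PFR.Law: laws and basic entropies (collects B1 to B4), laws depend on the support only
-/

set_option autoImplicit false

open Finset

namespace Pool.Agent.Lib.MP_0430e4_lc.PFR

section

variable {Ω Ω' S S' T U : Type} [Fintype Ω] [Fintype Ω'] [Fintype S] [Fintype S'] [Fintype T] [Fintype U]

theorem law_congr {S : Type} {w : Ω → ℝ} {X Y : Ω → S} (h : ∀ ω, w ω ≠ 0 → X ω = Y ω) :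
    law w X = law w Y := by
  classical
  funext s
  unfold law
  refine sum_congr rfl fun ω _ => ?_
  by_cases h0 : w ω = 0
  · rw [h0, ite_self, ite_self]
  · rw [h ω h0]

/-- entropy decreases under maps; only the support matters -/
theorem H_le_of_supp {w : Ω → ℝ} (hw : IsLaw w) (X : Ω → S) (Y : Ω → S')
    (h : ∀ ω ω', w ω ≠ 0 → w ω' ≠ 0 → Y ω = Y ω' → X ω = X ω') : H w X ≤ H w Y := by
  classical
  rw [H_eq_sum, H_eq_sum]
  refine sum_le_sum fun ω _ => ?_
  rcases eq_or_lt_of_le (hw.nonneg ω) with h0 | h0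
  · rw [← h0, zero_mul, zero_mul]
  · refine mul_le_mul_of_nonneg_left (neg_le_neg ?_) h0.le
    have h1 : 0 < law w Y (Y ω) := lt_of_lt_of_le h0 (le_law hw Y ω)
    refine Real.log_le_log h1 ?_
    unfold law
    refine sum_le_sum fun ω' _ => ?_
    rcases eq_or_lt_of_le (hw.nonneg ω') with h3 | h3
    · rw [← h3, ite_self, ite_self]
    by_cases h2 : Y ω' = Y ω
    · rw [if_pos h2, if_pos (h _ _ h3.ne' h0.ne' h2)]
    · rw [if_neg h2]
      split_ifs
      · exact hw.nonneg ω'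
      · exact le_rfl

end

end Pool.Agent.Lib.MP_0430e4_lc.PFR
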