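import Pool.Agent.Lib.MP_0430e4_lc.PFR.Law
import Pool.Agent.Lib.MP_0430e4_lc.PFR.Prd
import Pool.Agent.Lib.MP_0430e4_lc.PFR.Cnv

/-!
# PFR.Num: the numbers s and t

`Q4 p q` is the law of four independent variables `X1 = x.1.1`, `X2 = x.1.2`, `X3 = x.2.1`, `X4 = x.2.2` with laws `p, q, p, q`.
PROOFS. `numT_ge`: `ent p + ent q + ent p + ent q = H (X1,X2,X3,X4) ≤ H (X1+X2, X1+X3, S) + H X1` (`H_le_of_factor`, `subadd`) and
`H X1 = ent p`; the same with `X2`. `numS_eq`: `conv (conv p p) (conv q q) = conv (conv p q) (conv p q)` by `conv_comm`, `conv_assoc`.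
-/

set_option autoImplicit false

open Finset

namespace Pool.Agent.Lib.MP_0430e4_lc.PFR

section

variable {G : Type} [AddCommGroup G] [Fintype G]

noncomputable def Q4 (p q : G → ℝ) : (G × G) × (G × G) → ℝ := prd (prd p q) (prd p q)

noncomputable def numS (p q : G → ℝ) : ℝ := ent (conv (conv p q) (conv p q))

noncomputable def numT (p q : G → ℝ) : ℝ :=
  H (Q4 p q) (fun x => (x.1.1 + x.1.2, x.1.1 + x.2.1, x.1.1 + x.1.2 + x.2.1 + x.2.2))

private theorem num_total {p q : G → ℝ} (hp : IsLaw p) (hq : IsLaw q) :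
    H (Q4 p q) (fun x => x) = 2 * ent p + 2 * ent q := by
  unfold H
  rw [law_id]
  unfold Q4
  rw [ent_prd (prd_isLaw hp hq) (prd_isLaw hp hq), ent_prd hp hq]
  ring

theorem numT_ge_left {p q : G → ℝ} (hp : IsLaw p) (hq : IsLaw q) :
    ent p + 2 * ent q ≤ numT p q := by
  have hpq : IsLaw (prd p q) := prd_isLaw hp hq
  have hw : IsLaw (Q4 p q) := prd_isLaw hpq hpq
  have h1 : H (Q4 p q) (fun x => x) ≤ H (Q4 p q) (fun x =>
      ((x.1.1 + x.1.2, x.1.1 + x.2.1, x.1.1 + x.1.2 + x.2.1 + x.2.2), x.1.1)) := by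
    refine H_le_of_factor hw _ _ fun x y h => ?_
    have e1 := Prod.mk.inj h
    have e2 := Prod.mk.inj e1.1
    have e3 := Prod.mk.inj e2.2
    have a1 : x.1.1 = y.1.1 := e1.2
    have a2 : x.1.2 = y.1.2 := by
      have := e2.1; rw [a1] at this; exact add_left_cancel this
    have a3 : x.2.1 = y.2.1 := by
      have := e3.1; rw [a1] at this; exact add_left_cancel this
    have a4 : x.2.2 = y.2.2 := by
      have := e3.2; rw [a1, a2, a3] at this; exact add_left_cancel this
    exact Prod.ext (Prod.ext a1 a2) (Prod.ext a3 a4)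
  have h2 := subadd hw (fun x => (x.1.1 + x.1.2, x.1.1 + x.2.1, x.1.1 + x.1.2 + x.2.1 + x.2.2))
    (fun x => x.1.1)
  have h3 : H (Q4 p q) (fun x => x.1.1) = ent p := by
    unfold H
    have h4 : law (Q4 p q) (fun x => x.1.1) = p := by
      have h5 := law_fst (prd p q) hpq (fun a : G × G => a.1)
      have h6 := law_fst p hq (fun y : G => y)
      rw [law_id] at h6
      rw [h6] at h5
      exact h5
    rw [h4]
  have h7 := num_total hp hq
  unfold numT
  linarith

theorem numT_ge_right {p q : G → ℝ} (hp : IsLaw p) (hq : IsLaw q) :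
    2 * ent p + ent q ≤ numT p q := by
  have hpq : IsLaw (prd p q) := prd_isLaw hp hq
  have hw : IsLaw (Q4 p q) := prd_isLaw hpq hpq
  have h1 : H (Q4 p q) (fun x => x) ≤ H (Q4 p q) (fun x =>
      ((x.1.1 + x.1.2, x.1.1 + x.2.1, x.1.1 + x.1.2 + x.2.1 + x.2.2), x.1.2)) := by
    refine H_le_of_factor hw _ _ fun x y h => ?_
    have e1 := Prod.mk.inj h
    have e2 := Prod.mk.inj e1.1
    have e3 := Prod.mk.inj e2.2
    have a2 : x.1.2 = y.1.2 := e1.2
    have a1 : x.1.1 = y.1.1 := by
      have := e2.1; rw [a2] at this; exact add_right_cancel this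
    have a3 : x.2.1 = y.2.1 := by
      have := e3.1; rw [a1] at this; exact add_left_cancel this
    have a4 : x.2.2 = y.2.2 := by
      have := e3.2; rw [a1, a2, a3] at this; exact add_left_cancel this
    exact Prod.ext (Prod.ext a1 a2) (Prod.ext a3 a4)
  have h2 := subadd hw (fun x => (x.1.1 + x.1.2, x.1.1 + x.2.1, x.1.1 + x.1.2 + x.2.1 + x.2.2))
    (fun x => x.1.2)
  have h3 : H (Q4 p q) (fun x => x.1.2) = ent q := by
    unfold H
    have h4 : law (Q4 p q) (fun x => x.1.2) = q := by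
      have h5 := law_fst (prd p q) hpq (fun a : G × G => a.2)
      have h6 := law_snd hp q (fun y : G => y)
      rw [law_id] at h6
      rw [h6] at h5
      exact h5
    rw [h4]
  have h7 := num_total hp hq
  unfold numT
  linarith

theorem numS_eq (p q : G → ℝ) : ent (conv (conv p p) (conv q q)) = numS p q := by
  unfold numS
  have h : conv (conv p p) (conv q q) = conv (conv p q) (conv p q) := by
    rw [conv_assoc p p, ← conv_assoc p q q, conv_comm (conv p q) q, ← conv_assoc p q (conv p q)]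
  rw [h]

end

end Pool.Agent.Lib.MP_0430e4_lc.PFR
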