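import Pool.Agent.Lib.MP_0430e4_lc.PFR.Bsg

/-!
Large spectrum step of ALLCODES.md (helper1, campaign PFR of MP_0430e4_lc).

`V` is a finite abelian group with a real bicharacter `e : V → V → ℝ` (`e x y = (-1)^(x·y)`).
If `∑_{x,y ∈ C} φ(x) ψ(y) e(x,y)` is at least `η |C|^2` for weights bounded by one, then a large part
`S` of `C` has many pairs whose sum lies in the large spectrum `D` of `C` (`spectrum`), and by
Balog-Szemeredi-Gowers a large part `S'` of `C` has small difference set (`spectrum_bsg`).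
-/

open Finset
open scoped Pointwise ComplexConjugate

namespace Pool.Agent.Lib.MP_0430e4_lc.PFR

variable {V : Type*} [AddCommGroup V] [DecidableEq V] [Fintype V]

theorem spectrum (e : V → V → ℝ) (N : ℝ) (he : ∀ x y, |e x y| ≤ 1)
    (hadd : ∀ x x' y, e (x + x') y = e x y * e x' y)
    (horth : ∀ y y', ∑ u, e u y * e u y' = if y = y' then N else 0)
    (C : Finset V) (hC : C.Nonempty) (φ ψ : V → ℂ) (hφ : ∀ x ∈ C, ‖φ x‖ ≤ 1)
    (hψ : ∀ x ∈ C, ‖ψ x‖ ≤ 1) (η : ℝ) (hη : 0 < η)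
    (h : η * (C.card : ℝ) ^ 2 ≤ ‖∑ x ∈ C, ∑ y ∈ C, φ x * ψ y * (e x y : ℂ)‖) :
    ∃ S ⊆ C, η / 2 * C.card ≤ S.card ∧ ∃ D : Finset V, η ^ 4 * C.card * D.card ≤ 64 * N ∧
      η ^ 2 / 8 * (S.card : ℝ) ^ 2 ≤ ((S ×ˢ S).filter (fun p => p.1 + p.2 ∈ D)).card := by
  classical
  have hCpos : (0 : ℝ) < C.card := by exact_mod_cast hC.card_pos
  set F : V → ℂ := fun x => ∑ y ∈ C, ψ y * (e x y : ℂ) with hF
  have hFle : ∀ x, ‖F x‖ ≤ C.card := by
    intro x
    calc ‖F x‖ ≤ ∑ y ∈ C, ‖ψ y * (e x y : ℂ)‖ := norm_sum_le _ _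
      _ ≤ ∑ y ∈ C, (1 : ℝ) := by
          apply Finset.sum_le_sum
          intro y hy
          rw [norm_mul, Complex.norm_real, Real.norm_eq_abs]
          calc ‖ψ y‖ * |e x y| ≤ 1 * 1 :=
                mul_le_mul (hψ y hy) (he x y) (abs_nonneg _) (by norm_num)
            _ = 1 := by norm_num
      _ = C.card := by simp
  have h1 : η * (C.card : ℝ) ^ 2 ≤ ∑ x ∈ C, ‖F x‖ := by
    refine h.trans ?_
    have h2 : ∑ x ∈ C, ∑ y ∈ C, φ x * ψ y * (e x y : ℂ) = ∑ x ∈ C, φ x * F x := by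
      apply Finset.sum_congr rfl
      intro x _
      rw [hF]; simp only
      rw [Finset.mul_sum]
      apply Finset.sum_congr rfl
      intro y _; ring
    rw [h2]
    refine (norm_sum_le _ _).trans (Finset.sum_le_sum fun x hx => ?_)
    rw [norm_mul]
    calc ‖φ x‖ * ‖F x‖ ≤ 1 * ‖F x‖ := mul_le_mul_of_nonneg_right (hφ x hx) (norm_nonneg _)
      _ = ‖F x‖ := one_mul _
  set S : Finset V := C.filter (fun x => η / 2 * C.card ≤ ‖F x‖) with hS
  have hSC : S ⊆ C := Finset.filter_subset _ _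
  have hScard : η / 2 * C.card ≤ S.card := by
    have h2 : ∑ x ∈ C, ‖F x‖ = ∑ x ∈ S, ‖F x‖ +
        ∑ x ∈ C.filter (fun x => ¬ η / 2 * C.card ≤ ‖F x‖), ‖F x‖ :=
      (Finset.sum_filter_add_sum_filter_not _ _ _).symm
    have h3 : ∑ x ∈ S, ‖F x‖ ≤ S.card * C.card := by
      calc _ ≤ ∑ x ∈ S, (C.card : ℝ) := Finset.sum_le_sum fun x _ => hFle x
        _ = _ := by rw [Finset.sum_const, nsmul_eq_mul]
    have h4 : ∑ x ∈ C.filter (fun x => ¬ η / 2 * C.card ≤ ‖F x‖), ‖F x‖ ≤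
        C.card * (η / 2 * C.card) := by
      calc _ ≤ ∑ x ∈ C.filter (fun x => ¬ η / 2 * C.card ≤ ‖F x‖), (η / 2 * C.card) := by
            apply Finset.sum_le_sum
            intro x hx
            exact le_of_lt (not_le.mp (Finset.mem_filter.mp hx).2)
        _ = (C.filter (fun x => ¬ η / 2 * C.card ≤ ‖F x‖)).card * (η / 2 * C.card) := by
            rw [Finset.sum_const, nsmul_eq_mul]
        _ ≤ _ := by
            apply mul_le_mul_of_nonneg_right _ (by positivity)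
            exact_mod_cast Finset.card_filter_le _ _
    have h5 : (η / 2 * C.card) * C.card ≤ S.card * C.card := by nlinarith
    exact le_of_mul_le_mul_right h5 hCpos
  refine ⟨S, hSC, hScard, ?_⟩
  -- the unimodular factors
  set c : V → ℂ := fun x => conj (F x) / (‖F x‖ : ℂ) with hc
  have hcn : ∀ x, ‖c x‖ ≤ 1 := by
    intro x
    rw [hc]; simp only
    rw [norm_div, Complex.norm_conj, Complex.norm_real, norm_norm]
    exact div_self_le_one _
  have hcF : ∀ x, c x * F x = (‖F x‖ : ℂ) := by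
    intro x
    rw [hc]; simp only
    by_cases hx : F x = 0
    · rw [hx]; simp
    · have h6 : (‖F x‖ : ℂ) ≠ 0 := by
        rw [Complex.ofReal_ne_zero]; exact norm_ne_zero_iff.mpr hx
      rw [div_mul_eq_mul_div, div_eq_iff h6, ← Complex.normSq_eq_conj_mul_self,
        Complex.normSq_eq_norm_sq]
      push_cast; ring
  set Gf : V → ℂ := fun y => ∑ x ∈ S, c x * (e x y : ℂ) with hGf
  have h2 : (S.card : ℝ) * (η / 2 * C.card) ≤ ‖∑ y ∈ C, ψ y * Gf y‖ := by
    have h3 : ∑ y ∈ C, ψ y * Gf y = ((∑ x ∈ S, ‖F x‖ : ℝ) : ℂ) := by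
      push_cast
      rw [← Finset.sum_congr rfl (fun x _ => hcF x)]
      simp only [hGf, hF, Finset.mul_sum]
      rw [Finset.sum_comm]
      apply Finset.sum_congr rfl; intro x _
      apply Finset.sum_congr rfl; intro y _
      ring
    rw [h3, Complex.norm_real, Real.norm_eq_abs]
    refine le_trans ?_ (le_abs_self _)
    calc (S.card : ℝ) * (η / 2 * C.card) = ∑ x ∈ S, (η / 2 * C.card) := by
          rw [Finset.sum_const, nsmul_eq_mul]
      _ ≤ _ := Finset.sum_le_sum fun x hx => (Finset.mem_filter.mp hx).2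
  have h3 : ‖∑ y ∈ C, ψ y * Gf y‖ ^ 2 ≤ C.card * ∑ y ∈ C, ‖Gf y‖ ^ 2 := by
    have h4 : ‖∑ y ∈ C, ψ y * Gf y‖ ≤ ∑ y ∈ C, ‖Gf y‖ := by
      refine (norm_sum_le _ _).trans (Finset.sum_le_sum fun y hy => ?_)
      rw [norm_mul]
      calc ‖ψ y‖ * ‖Gf y‖ ≤ 1 * ‖Gf y‖ := mul_le_mul_of_nonneg_right (hψ y hy) (norm_nonneg _)
        _ = ‖Gf y‖ := one_mul _
    calc ‖∑ y ∈ C, ψ y * Gf y‖ ^ 2 ≤ (∑ y ∈ C, ‖Gf y‖) ^ 2 :=
          pow_le_pow_left₀ (norm_nonneg _) h4 2
      _ ≤ _ := sq_sum_le_card_mul_sum_sq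
  set Ch : V → ℝ := fun u => ∑ y ∈ C, e u y with hCh
  have h4 : ∑ y ∈ C, ‖Gf y‖ ^ 2 ≤ ∑ p ∈ S ×ˢ S, |Ch (p.1 + p.2)| := by
    have h5 : ((∑ y ∈ C, ‖Gf y‖ ^ 2 : ℝ) : ℂ) =
        ∑ p ∈ S ×ˢ S, c p.1 * conj (c p.2) * (Ch (p.1 + p.2) : ℂ) := by
      push_cast
      have h6 : ∀ y, ((‖Gf y‖ : ℂ)) ^ 2 =
          ∑ p ∈ S ×ˢ S, c p.1 * conj (c p.2) * (e (p.1 + p.2) y : ℂ) := by
        intro y
        rw [← Complex.ofReal_pow, ← Complex.normSq_eq_norm_sq, ← Complex.mul_conj,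
          Finset.sum_product]
        simp only [hGf, map_sum, map_mul, Complex.conj_ofReal]
        rw [Finset.sum_mul_sum]
        apply Finset.sum_congr rfl; intro x _
        apply Finset.sum_congr rfl; intro x' _
        rw [hadd]; push_cast; ring
      rw [Finset.sum_congr rfl fun y _ => h6 y, Finset.sum_comm]
      apply Finset.sum_congr rfl
      intro p _
      rw [hCh]; simp only; push_cast
      rw [Finset.mul_sum]
    have h6 : (∑ y ∈ C, ‖Gf y‖ ^ 2) = ‖((∑ y ∈ C, ‖Gf y‖ ^ 2 : ℝ) : ℂ)‖ := by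
      rw [Complex.norm_real, Real.norm_eq_abs, abs_of_nonneg]
      exact Finset.sum_nonneg fun _ _ => by positivity
    rw [h6, h5]
    refine (norm_sum_le _ _).trans (Finset.sum_le_sum fun p _ => ?_)
    rw [norm_mul, norm_mul, Complex.norm_conj, Complex.norm_real, Real.norm_eq_abs]
    calc ‖c p.1‖ * ‖c p.2‖ * |Ch (p.1 + p.2)| ≤ 1 * 1 * |Ch (p.1 + p.2)| := by
          apply mul_le_mul_of_nonneg_right _ (abs_nonneg _)
          exact mul_le_mul (hcn _) (hcn _) (norm_nonneg _) (by norm_num)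
      _ = _ := by ring
  have hChle : ∀ u, |Ch u| ≤ C.card := by
    intro u
    calc |Ch u| ≤ ∑ y ∈ C, |e u y| := Finset.abs_sum_le_sum_abs _ _
      _ ≤ ∑ y ∈ C, (1 : ℝ) := Finset.sum_le_sum fun y _ => he u y
      _ = C.card := by simp
  set D : Finset V := Finset.univ.filter (fun u => η ^ 2 / 8 * C.card ≤ |Ch u|) with hD
  refine ⟨D, ?_, ?_⟩
  · -- Parseval
    have h5 : ∑ u, (Ch u) ^ 2 = N * C.card := by
      calc ∑ u, (Ch u) ^ 2 = ∑ u, ∑ y ∈ C, ∑ y' ∈ C, e u y * e u y' := by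
            apply Finset.sum_congr rfl; intro u _
            rw [hCh]; simp only
            rw [sq, Finset.sum_mul_sum]
        _ = ∑ y ∈ C, ∑ y' ∈ C, ∑ u, e u y * e u y' := by
            rw [Finset.sum_comm]
            apply Finset.sum_congr rfl; intro y _
            rw [Finset.sum_comm]
        _ = ∑ y ∈ C, ∑ y' ∈ C, (if y = y' then N else 0) := by
            apply Finset.sum_congr rfl; intro y _
            apply Finset.sum_congr rfl; intro y' _
            exact horth y y'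
        _ = ∑ y ∈ C, N := by
            apply Finset.sum_congr rfl; intro y hy
            rw [Finset.sum_ite_eq]; simp [hy]
        _ = N * C.card := by rw [Finset.sum_const, nsmul_eq_mul]; ring
    have h6 : (D.card : ℝ) * (η ^ 2 / 8 * C.card) ^ 2 ≤ N * C.card := by
      rw [← h5]
      calc (D.card : ℝ) * (η ^ 2 / 8 * C.card) ^ 2 = ∑ u ∈ D, (η ^ 2 / 8 * C.card) ^ 2 := by
            rw [Finset.sum_const, nsmul_eq_mul]
        _ ≤ ∑ u ∈ D, (Ch u) ^ 2 := by
            apply Finset.sum_le_sum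
            intro u hu
            rw [← sq_abs (Ch u)]
            exact pow_le_pow_left₀ (by positivity) (Finset.mem_filter.mp hu).2 2
        _ ≤ ∑ u, (Ch u) ^ 2 :=
            Finset.sum_le_sum_of_subset_of_nonneg (Finset.subset_univ _) (fun _ _ _ => sq_nonneg _)
    have h7 : (η ^ 4 * C.card * D.card) * C.card ≤ (64 * N) * C.card := by nlinarith
    exact le_of_mul_le_mul_right h7 hCpos
  · -- many pairs
    set P : Finset (V × V) := (S ×ˢ S).filter (fun p => p.1 + p.2 ∈ D) with hP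
    have h5 : ∑ p ∈ S ×ˢ S, |Ch (p.1 + p.2)| ≤
        P.card * C.card + (S.card : ℝ) ^ 2 * (η ^ 2 / 8 * C.card) := by
      rw [← Finset.sum_filter_add_sum_filter_not (S ×ˢ S) (fun p => p.1 + p.2 ∈ D)]
      apply add_le_add
      · calc _ ≤ ∑ p ∈ P, (C.card : ℝ) := Finset.sum_le_sum fun p _ => hChle _
          _ = _ := by rw [Finset.sum_const, nsmul_eq_mul]
      · calc _ ≤ ∑ p ∈ (S ×ˢ S).filter (fun p => ¬ p.1 + p.2 ∈ D), (η ^ 2 / 8 * C.card) := by
              apply Finset.sum_le_sum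
              intro p hp
              have h6 := (Finset.mem_filter.mp hp).2
              by_contra hcon
              apply h6
              rw [hD, Finset.mem_filter]
              exact ⟨Finset.mem_univ _, le_of_lt (not_le.mp hcon)⟩
          _ = ((S ×ˢ S).filter (fun p => ¬ p.1 + p.2 ∈ D)).card * (η ^ 2 / 8 * C.card) := by
              rw [Finset.sum_const, nsmul_eq_mul]
          _ ≤ _ := by
              apply mul_le_mul_of_nonneg_right _ (by positivity)
              have h7 : ((S ×ˢ S).filter (fun p => ¬ p.1 + p.2 ∈ D)).card ≤ S.card * S.card := by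
                rw [← Finset.card_product]; exact Finset.card_filter_le _ _
              rw [sq]; exact_mod_cast h7
    have h6 : ((S.card : ℝ) * (η / 2 * C.card)) ^ 2 ≤
        C.card * (P.card * C.card + (S.card : ℝ) ^ 2 * (η ^ 2 / 8 * C.card)) := by
      calc ((S.card : ℝ) * (η / 2 * C.card)) ^ 2 ≤ ‖∑ y ∈ C, ψ y * Gf y‖ ^ 2 :=
            pow_le_pow_left₀ (by positivity) h2 2
        _ ≤ C.card * ∑ y ∈ C, ‖Gf y‖ ^ 2 := h3
        _ ≤ _ := mul_le_mul_of_nonneg_left (h4.trans h5) (by positivity)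
    have h7 : (η ^ 2 / 8 * (S.card : ℝ) ^ 2) * (C.card : ℝ) ^ 2 ≤ P.card * (C.card : ℝ) ^ 2 := by
      nlinarith
    exact le_of_mul_le_mul_right h7 (by positivity)

/-- Structure of a set `C` whose bilinear sum nearly reaches the trivial bound: a part `S'` of relative
size `≥ η^3 / 96` has difference set at most `2^106 η^(-54) (N / |C|^2)^6 |S'|`. -/
theorem spectrum_bsg (e : V → V → ℝ) (N : ℝ) (he : ∀ x y, |e x y| ≤ 1)
    (hadd : ∀ x x' y, e (x + x') y = e x y * e x' y)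
    (horth : ∀ y y', ∑ u, e u y * e u y' = if y = y' then N else 0)
    (C : Finset V) (hC : C.Nonempty) (φ ψ : V → ℂ) (hφ : ∀ x ∈ C, ‖φ x‖ ≤ 1)
    (hψ : ∀ x ∈ C, ‖ψ x‖ ≤ 1) (η : ℝ) (hη : 0 < η)
    (h : η * (C.card : ℝ) ^ 2 ≤ ‖∑ x ∈ C, ∑ y ∈ C, φ x * ψ y * (e x y : ℂ)‖) :
    ∃ S' ⊆ C, S'.Nonempty ∧ η ^ 3 / 96 * C.card ≤ S'.card ∧
      ((S' - S').card : ℝ) ≤ 2 ^ 106 * η⁻¹ ^ 54 * (N / (C.card : ℝ) ^ 2) ^ 6 * S'.card := by
  have hCpos : (0 : ℝ) < C.card := by exact_mod_cast hC.card_pos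
  obtain ⟨S, hSC, hS, D, hD, hP⟩ := spectrum e N he hadd horth C hC φ ψ hφ hψ η hη h
  have hSpos : (0 : ℝ) < S.card := lt_of_lt_of_le (by positivity) hS
  have hSne : S.Nonempty := by rw [← Finset.card_pos]; exact_mod_cast hSpos
  -- `η ≤ 8` follows from the number of pairs
  have hPle : (((S ×ˢ S).filter (fun p => p.1 + p.2 ∈ D)).card : ℝ) ≤ (S.card : ℝ) ^ 2 := by
    have h7 : ((S ×ˢ S).filter (fun p => p.1 + p.2 ∈ D)).card ≤ S.card * S.card := by
      rw [← Finset.card_product]; exact Finset.card_filter_le _ _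
    rw [sq]; exact_mod_cast h7
  have hη8 : η ^ 2 / 8 ≤ 1 := by
    have h8 : η ^ 2 / 8 * (S.card : ℝ) ^ 2 ≤ 1 * (S.card : ℝ) ^ 2 := by rw [one_mul]; exact hP.trans hPle
    exact le_of_mul_le_mul_right h8 (by positivity)
  have hK : (1 : ℝ) ≤ 8 / η ^ 2 := by
    rw [le_div_iff₀ (by positivity)]
    linarith
  have hNpos : 0 ≤ N := by
    by_contra hcon
    have h9 : 64 * N < 0 := by linarith
    have h10 : (0 : ℝ) ≤ η ^ 4 * C.card * D.card := by positivity
    linarith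
  have hL : (D.card : ℝ) ≤ (128 * η⁻¹ ^ 5 * (N / (C.card : ℝ) ^ 2)) * S.card := by
    have h9 : (D.card : ℝ) ≤ 64 * N / (η ^ 4 * C.card) := by
      rw [le_div_iff₀ (by positivity)]; linarith
    have h10 : 64 * N / (η ^ 4 * C.card) = (128 * η⁻¹ ^ 5 * (N / (C.card : ℝ) ^ 2)) * (η / 2 * C.card) := by
      field_simp; ring
    rw [h10] at h9
    exact h9.trans (mul_le_mul_of_nonneg_left hS (by positivity))
  obtain ⟨S', hS'S, hS'ne, h1, h2⟩ := bsg S D hSne (8 / η ^ 2)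
    (128 * η⁻¹ ^ 5 * (N / (C.card : ℝ) ^ 2)) hK (by
      have h11 : (S.card : ℝ) ^ 2 = 8 / η ^ 2 * (η ^ 2 / 8 * (S.card : ℝ) ^ 2) := by field_simp
      rw [h11]
      exact mul_le_mul_of_nonneg_left hP (by positivity)) hL
  refine ⟨S', hS'S.trans hSC, hS'ne, ?_, ?_⟩
  · have h3 : η / 2 * C.card ≤ 6 * (8 / η ^ 2) * S'.card := hS.trans h1
    have h4 : η ^ 3 / 96 * C.card = η ^ 2 / 48 * (η / 2 * C.card) := by ring
    rw [h4]
    calc η ^ 2 / 48 * (η / 2 * C.card) ≤ η ^ 2 / 48 * (6 * (8 / η ^ 2) * S'.card) :=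
          mul_le_mul_of_nonneg_left h3 (by positivity)
      _ = S'.card := by field_simp; norm_num
  · refine h2.trans (le_of_eq ?_)
    field_simp
    ring

end Pool.Agent.Lib.MP_0430e4_lc.PFR
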