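import Pool.Agent.Lib.MP_0430e4_lc.PFR.Num
import Pool.Agent.Lib.MP_0430e4_lc.PFR.Rz3

/-!
# PFR.T13: first and third estimate (T1, T3)

PROOFS. `T1`: `LMin` with `p' = q' = conv p q`: `dst (conv p q) (conv p q) = numS p q - ent (conv p q)`, `dst_conv_le`.
`T3`: `p' = conv p p`, `q' = conv q q`, `numS_eq`, `dst_conv_self_le`, `dst_self_le` (also `dst q q ≤ 2 dst q p = 2 dst p q`).
-/

set_option autoImplicit false

open Finset

namespace Pool.Agent.Lib.MP_0430e4_lc.PFR

section

variable {G : Type} [AddCommGroup G] [Fintype G]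

theorem T1 {η : ℝ} (hη : 0 ≤ η) {p q : G → ℝ} (hp : IsLaw p) (hq : IsLaw q) (hm : LMin η p q) :
    dst p q ≤ numS p q - ent (conv p q) + 3 * η * dst p q := by
  have hc := conv_isLaw hp hq
  have h1 := hm (conv p q) (conv p q) hc hc
  have h2 := dst_conv_le hp hq
  have h3 : dst (conv p q) (conv p q) = numS p q - ent (conv p q) := by
    unfold dst numS
    ring
  have h4 := mul_le_mul_of_nonneg_left h2 hη
  rw [h3] at h1
  linarith

theorem T3 (h2 : ∀ x : G, x + x = 0) {η : ℝ} (hη : 0 ≤ η) {p q : G → ℝ} (hp : IsLaw p)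
    (hq : IsLaw q) (hm : LMin η p q) :
    dst p q ≤ numS p q - (ent (conv p p) + ent (conv q q)) / 2 + 6 * η * dst p q := by
  have h1 := hm (conv p p) (conv q q) (conv_isLaw hp hp) (conv_isLaw hq hq)
  have h3 : dst (conv p p) (conv q q) = numS p q - (ent (conv p p) + ent (conv q q)) / 2 := by
    rw [← numS_eq]
    rfl
  have h4 := dst_conv_self_le hp
  have h5 := dst_conv_self_le hq
  have h6 := dst_self_le h2 hp hq
  have h7 := dst_self_le h2 hq hp
  rw [dst_comm q p] at h7
  have h8 : dst p (conv p p) + dst q (conv q q) ≤ 6 * dst p q := by linarith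
  have h9 := mul_le_mul_of_nonneg_left h8 hη
  rw [h3] at h1
  linarith

end

end Pool.Agent.Lib.MP_0430e4_lc.PFR
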