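import Pool.Agent.Lib.MP_0430e4_lc.PFR.Cnv

/-!
# PFR.Z1: equality in H(p*q) >= H(p) (Z1)

PROOF. Jensen for every `z`: `∑ y, q y * negMulLog (p (z - y)) ≤ negMulLog (conv p q z)` (`conv_apply`); summed over `z`: `ent p ≤ ent (conv p q)`.
Equality for every `z`, so `StrictConcaveOn.map_sum_eq_iff'` (`Real.strictConcaveOn_negMulLog`) gives `p (z - y) = conv p q z` for all
`y` with `q y ≠ 0`.
-/

set_option autoImplicit false

open Finset

namespace Pool.Agent.Lib.MP_0430e4_lc.PFR

section

variable {G : Type} [AddCommGroup G] [Fintype G]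

private lemma Z1_pointwise {p q : G → ℝ} (hp : IsLaw p) (hq : IsLaw q) (x : G) :
    ∑ y, q y * Real.negMulLog (p (x - y)) ≤ Real.negMulLog (conv p q x) := by
  have h := Real.concaveOn_negMulLog.le_map_sum (t := Finset.univ) (w := q)
    (p := fun y => p (x - y)) (fun i _ => hq.nonneg i) hq.sum_one (fun i _ => hp.nonneg _)
  rw [conv_apply]
  simpa only [smul_eq_mul] using h

private lemma Z1_sum (p q : G → ℝ) (hq : IsLaw q) :
    ∑ x, ∑ y, q y * Real.negMulLog (p (x - y)) = ent p := by
  rw [Finset.sum_comm]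
  have : ∀ y : G, ∑ x, q y * Real.negMulLog (p (x - y)) = q y * ent p := by
    intro y
    rw [← Finset.mul_sum]
    congr 1
    exact Fintype.sum_equiv (Equiv.subRight y) _ _ (fun x => by simp)
  rw [Finset.sum_congr rfl (fun y _ => this y), ← Finset.sum_mul, hq.sum_one, one_mul]

theorem Z1 {p q : G → ℝ} (hp : IsLaw p) (hq : IsLaw q) (h : ent (conv p q) ≤ ent p) :
    ∀ y y' : G, q y ≠ 0 → q y' ≠ 0 → ∀ x, p (x - y) = p (x - y') := by
  have hle : ∀ x ∈ (Finset.univ : Finset G),
      ∑ y, q y * Real.negMulLog (p (x - y)) ≤ Real.negMulLog (conv p q x) :=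
    fun x _ => Z1_pointwise hp hq x
  have heq : ∑ x, ∑ y, q y * Real.negMulLog (p (x - y)) =
      ∑ x, Real.negMulLog (conv p q x) := by
    refine le_antisymm (Finset.sum_le_sum hle) ?_
    rw [Z1_sum p q hq]
    exact h
  have h1 := (Finset.sum_eq_sum_iff_of_le hle).1 heq
  have h2 : ∀ x y : G, q y ≠ 0 → p (x - y) = conv p q x := by
    intro x y hy
    have h3 := (Real.strictConcaveOn_negMulLog.map_sum_eq_iff' (t := Finset.univ) (w := q)
      (p := fun y => p (x - y)) (fun i _ => hq.nonneg i) hq.sum_one (fun i _ => hp.nonneg _)).1 (by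
        have e : (∑ i, q i • p (x - i)) = conv p q x := by
          rw [conv_apply]; simp only [smul_eq_mul]
        rw [e, ← h1 x (Finset.mem_univ _)]
        simp only [smul_eq_mul])
    have h4 := h3 y (Finset.mem_univ _) hy
    rw [h4, conv_apply]
    simp only [smul_eq_mul]
  intro y y' hy hy' x
  rw [h2 x y hy, h2 x y' hy']

end

end Pool.Agent.Lib.MP_0430e4_lc.PFR
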